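import Pool.Agent.Helper687_Borel.Tower

/-!
# Automorphism groups of iterated extensions

If `K` is a finitely generated normal subgroup of `N` with a spread quotient, then the stabilizer of `K` in
`Aut N` has finite index, and its homomorphism to `Aut K × Aut (N / K)` has an abelian kernel, which is
trivial if `K` has trivial center.
-/

set_option autoImplicit false

namespace Pool.Agent.Helper687_Borel

variable {C : ∀ (G : Type) [Group G], Prop}

/-- spread groups have trivial center -/
theorem Spread.center_eq {S : Type} [Group S] (hS : Spread S) : Subgroup.center S = ⊥ := by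
  rw [Subgroup.eq_bot_iff_forall]
  intro z hz
  by_contra hz1
  obtain ⟨H, hH, k, hk, ψ, hψ⟩ := hS.sep z hz1
  obtain ⟨d, hd, hnp⟩ := hS.coh H hH ψ
  have hc : ∀ x : H, (⟨z ^ k, hk⟩ : H) * x = x * ⟨z ^ k, hk⟩ := fun x => Subtype.ext (by
    have := Subgroup.mem_center_iff.1 (Subgroup.pow_mem _ hz k) (x : S)
    exact this.symm)
  have hne : Real.exp (ψ ⟨z ^ k, hk⟩).toAdd - 1 ≠ 0 := by
    intro h
    exact hψ (exp_eq_one (by linarith))
  refine hnp ⟨d ⟨z ^ k, hk⟩ / (Real.exp (ψ ⟨z ^ k, hk⟩).toAdd - 1), fun x => ?_⟩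
  have h1 := hd ⟨z ^ k, hk⟩ x
  have h2 := hd x ⟨z ^ k, hk⟩
  rw [hc x, h2] at h1
  rw [div_mul_eq_mul_div, eq_div_iff hne]
  linarith

/-! ### stabilizers of subgroups -/

section stab

variable {N : Type} [Group N]

/-- the automorphisms which preserve the subgroup `K` -/
def stab (K : Subgroup N) : Subgroup (MulAut N) where
  carrier := {σ | ∀ x, σ x ∈ K ↔ x ∈ K}
  mul_mem' := fun {σ τ} hσ hτ x => by
    show σ (τ x) ∈ K ↔ x ∈ K
    exact (hσ (τ x)).trans (hτ x)
  one_mem' := fun x => Iff.rfl
  inv_mem' := fun {σ} hσ x => by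
    have h1 := hσ (σ⁻¹ x)
    rw [MulAut.apply_inv_self] at h1
    exact h1.symm

theorem mem_stab {K : Subgroup N} {σ : MulAut N} : σ ∈ stab K ↔ ∀ x, σ x ∈ K ↔ x ∈ K := Iff.rfl

theorem mem_stab_iff {K : Subgroup N} {σ : MulAut N} : σ ∈ stab K ↔ K.map σ.toMonoidHom = K := by
  constructor
  · intro h
    ext x
    rw [Subgroup.mem_map_equiv, ← h (σ.symm x)]
    rw [MulEquiv.apply_symm_apply]
  · intro h x
    have h1 : σ x ∈ K.map σ.toMonoidHom ↔ x ∈ K := by
      rw [Subgroup.mem_map_equiv, MulEquiv.symm_apply_apply]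
    rw [h] at h1
    exact h1

theorem stab_finiteIndex (K : Subgroup N) (T : Set (Subgroup N)) (hT : T.Finite)
    (h : ∀ σ : MulAut N, K.map (σ : MulAut N).toMonoidHom ∈ T) : (stab K).FiniteIndex := by
  rw [Subgroup.finiteIndex_iff_finite_quotient]
  have := hT.to_subtype
  refine Finite.of_injective (fun q : MulAut N ⧸ stab K => (⟨_, h q.out⟩ : T)) ?_
  intro q q' hq
  have h1 : K.map (q.out : MulAut N).toMonoidHom = K.map (q'.out : MulAut N).toMonoidHom :=
    congrArg Subtype.val hq
  rw [← QuotientGroup.out_eq' q, ← QuotientGroup.out_eq' q', QuotientGroup.eq]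
  intro x
  have h2 : q'.out x ∈ K.map (q'.out : MulAut N).toMonoidHom ↔ x ∈ K := by
    rw [Subgroup.mem_map_equiv, MulEquiv.symm_apply_apply]
  rw [← h1, Subgroup.mem_map_equiv] at h2
  exact h2

/-- restriction of automorphisms to an invariant subgroup -/
def res (L : Subgroup N) : stab L →* MulAut L where
  toFun σ :=
    { toFun := fun x => ⟨σ.1 x, (σ.2 x).2 x.2⟩
      invFun := fun x => ⟨σ.1.symm x, by
        rw [← σ.2, MulEquiv.apply_symm_apply]
        exact x.2⟩
      left_inv := fun x => Subtype.ext (σ.1.symm_apply_apply _)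
      right_inv := fun x => Subtype.ext (σ.1.apply_symm_apply _)
      map_mul' := fun x y => Subtype.ext (map_mul σ.1 _ _) }
  map_one' := by ext; rfl
  map_mul' σ τ := by ext; rfl

theorem res_apply (L : Subgroup N) (σ : stab L) (x : L) : (res L σ x : N) = σ.1 x := rfl

/-- the induced automorphisms of the quotient by an invariant normal subgroup -/
def quo (M : Subgroup N) [M.Normal] : stab M →* MulAut (N ⧸ M) where
  toFun σ := QuotientGroup.congr M M σ.1 (mem_stab_iff.1 σ.2)
  map_one' := by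
    ext x
    obtain ⟨x, rfl⟩ := QuotientGroup.mk_surjective x
    rfl
  map_mul' σ τ := by
    ext x
    obtain ⟨x, rfl⟩ := QuotientGroup.mk_surjective x
    rfl

theorem quo_apply (M : Subgroup N) [M.Normal] (σ : stab M) (x : N) :
    quo M σ (x : N ⧸ M) = ((σ.1 x : N) : N ⧸ M) := rfl

/-- restriction to an invariant subgroup and to the quotient by an invariant normal subgroup -/
def rq (L M : Subgroup N) [M.Normal] : ↥(stab L ⊓ stab M) →* MulAut L × MulAut (N ⧸ M) :=
  ((res L).comp (Subgroup.inclusion inf_le_left)).prod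
    ((quo M).comp (Subgroup.inclusion inf_le_right))

theorem rq_ker {L M : Subgroup N} [hMn : M.Normal] {σ : ↥(stab L ⊓ stab M)}
    (h : rq L M σ = 1) : (∀ x ∈ L, σ.1 x = x) ∧ ∀ n : N, n⁻¹ * σ.1 n ∈ M := by
  have h1 : res L (Subgroup.inclusion inf_le_left σ) = 1 := congrArg Prod.fst h
  have h2 : quo M (Subgroup.inclusion inf_le_right σ) = 1 := congrArg Prod.snd h
  constructor
  · intro x hx
    have h3 : (res L (Subgroup.inclusion inf_le_left σ) ⟨x, hx⟩ : N) = x := by rw [h1]; rfl
    exact h3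
  · intro n
    have h3 : quo M (Subgroup.inclusion inf_le_right σ) (n : N ⧸ M) = (n : N ⧸ M) := by rw [h2]; rfl
    rw [quo_apply] at h3
    exact QuotientGroup.eq.1 h3.symm

theorem rq_ker_comm {L M : Subgroup N} [hMn : M.Normal] (hML : M ≤ L) {σ : ↥(stab L ⊓ stab M)}
    (h : rq L M σ = 1) (n x : N) (hx : x ∈ M) : n⁻¹ * σ.1 n * x = x * (n⁻¹ * σ.1 n) := by
  obtain ⟨h1, h2⟩ := rq_ker h
  have h3 : n * x * n⁻¹ ∈ M := hMn.conj_mem x hx n
  have h4 := h1 _ (hML h3)
  rw [map_mul, map_mul, map_inv, h1 x (hML hx)] at h4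
  calc n⁻¹ * σ.1 n * x = n⁻¹ * (σ.1 n * x * (σ.1 n)⁻¹) * σ.1 n := by group
    _ = n⁻¹ * (n * x * n⁻¹) * σ.1 n := by rw [h4]
    _ = x * (n⁻¹ * σ.1 n) := by group

/-- the kernel is abelian -/
theorem rq_abelian {L M : Subgroup N} [hMn : M.Normal] (hML : M ≤ L) (σ τ : ↥(stab L ⊓ stab M))
    (hσ : rq L M σ = 1) (hτ : rq L M τ = 1) : σ * τ = τ * σ := by
  apply Subtype.ext
  ext n
  show σ.1 (τ.1 n) = τ.1 (σ.1 n)
  obtain ⟨s1, s2⟩ := rq_ker hσ
  obtain ⟨t1, t2⟩ := rq_ker hτ
  have h1 : σ.1 (τ.1 n) = σ.1 n * (n⁻¹ * τ.1 n) := by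
    have h2 : τ.1 n = n * (n⁻¹ * τ.1 n) := by group
    conv_lhs => rw [h2, map_mul, s1 _ (hML (t2 n))]
  have h3 : τ.1 (σ.1 n) = τ.1 n * (n⁻¹ * σ.1 n) := by
    have h2 : σ.1 n = n * (n⁻¹ * σ.1 n) := by group
    conv_lhs => rw [h2, map_mul, t1 _ (hML (s2 n))]
  rw [h1, h3]
  have h4 := rq_ker_comm hML hσ n (n⁻¹ * τ.1 n) (t2 n)
  calc σ.1 n * (n⁻¹ * τ.1 n) = n * (n⁻¹ * σ.1 n * (n⁻¹ * τ.1 n)) := by group
    _ = n * (n⁻¹ * τ.1 n * (n⁻¹ * σ.1 n)) := by rw [h4]
    _ = τ.1 n * (n⁻¹ * σ.1 n) := by group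

/-- the kernel is trivial if the center of the subgroup is trivial -/
theorem rq_injective {L M : Subgroup N} [hMn : M.Normal] (hML : M ≤ L)
    (hZ : Subgroup.center M = ⊥) : Function.Injective (rq L M) := by
  rw [injective_iff_map_eq_one]
  intro σ hσ
  apply Subtype.ext
  ext n
  show σ.1 n = n
  obtain ⟨s1, s2⟩ := rq_ker hσ
  have h1 : (⟨n⁻¹ * σ.1 n, s2 n⟩ : M) ∈ Subgroup.center M := by
    rw [Subgroup.mem_center_iff]
    intro x
    exact Subtype.ext (rq_ker_comm hML hσ n x x.2).symm
  rw [hZ, Subgroup.mem_bot] at h1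
  have h2 : n⁻¹ * σ.1 n = 1 := congrArg Subtype.val h1
  rw [inv_mul_eq_one] at h2
  exact h2.symm

end stab

/-- the stabilizer of a finitely generated normal subgroup with a spread quotient -/
theorem stab_spread (N : Type) [Group N] [hN : Group.FG N] (K : Subgroup N) [hKn : K.Normal]
    (hK : K.FG) (hS : Spread (N ⧸ K)) : (stab K).FiniteIndex := by
  refine stab_finiteIndex K _ (finite_fib N) fun σ => ?_
  have hn : (K.map (σ : MulAut N).toMonoidHom).Normal := hKn.map _ (σ : MulAut N).surjective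
  exact ⟨hn, fg_map hK _, Spread.equiv (QuotientGroup.congr K (K.map (σ : MulAut N).toMonoidHom) σ rfl) hS⟩

/-- the stabilizer of a subgroup of finite index -/
theorem stab_index (N : Type) [Group N] [hN : Group.FG N] (K : Subgroup N) [hKf : K.FiniteIndex] :
    (stab K).FiniteIndex :=
  stab_finiteIndex K _ (finite_index N K.index hKf.index_ne_zero) fun σ =>
    Subgroup.index_map_of_bijective (σ : MulAut N).bijective K

/-- classes of groups which contain the trivial groups and are closed under subgroups, direct products,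
overgroups of finite index and extensions with abelian kernel -/
structure ACl (C : ∀ (G : Type) [Group G], Prop) : Prop where
  triv : ∀ (G : Type) [Group G], Subsingleton G → C G
  of_injective : ∀ (G H : Type) [Group G] [Group H] (f : G →* H), Function.Injective f → C H → C G
  prod : ∀ (G H : Type) [Group G] [Group H], C G → C H → C (G × H)
  finiteIndex : ∀ (G : Type) [Group G] (K : Subgroup G), K.FiniteIndex → C K → C G
  abExt : ∀ (G : Type) [Group G] (A : Subgroup G) [A.Normal], (∀ x ∈ A, ∀ y ∈ A, x * y = y * x) →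
    C (G ⧸ A) → C G

theorem ACl.equiv (hC : ACl C) {G H : Type} [Group G] [Group H] (e : G ≃* H) (h : C G) : C H :=
  hC.of_injective H G e.symm.toMonoidHom e.symm.injective h

theorem ACl.finite (hC : ACl C) (G : Type) [Group G] [Finite G] : C G :=
  hC.finiteIndex G ⊥ inferInstance (hC.triv _ inferInstance)

theorem ACl.comm (hC : ACl C) (G : Type) [Group G] (h : ∀ x y : G, x * y = y * x) : C G :=
  hC.abExt G ⊤ (fun x _ y _ => h x y) (hC.triv _ (by
    have := QuotientGroup.subsingleton_quotient_top (G := G)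
    exact this))

/-- the general step -/
theorem aut_ext (hC : ACl C) {N : Type} [Group N] (L M : Subgroup N) [hMn : M.Normal] (hML : M ≤ L)
    (hL : (stab L).FiniteIndex) (hM : (stab M).FiniteIndex) (h1 : C (MulAut L))
    (h2 : C (MulAut (N ⧸ M))) : C (MulAut N) := by
  refine hC.finiteIndex _ (stab L ⊓ stab M) inferInstance ?_
  refine hC.abExt _ (rq L M).ker (fun x hx y hy => rq_abelian hML x y hx hy) ?_
  exact hC.equiv (QuotientGroup.quotientKerEquivRange (rq L M)).symm
    (hC.of_injective _ _ (rq L M).range.subtype (Subgroup.subtype_injective _) (hC.prod _ _ h1 h2))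

/-- finitely generated normal subgroups with spread quotients -/
theorem aut_step (hC : ACl C) (N : Type) [Group N] [hN : Group.FG N] (K : Subgroup N) [hKn : K.Normal]
    (hK : K.FG) (hS : Spread (N ⧸ K)) (h1 : C (MulAut K)) (h2 : C (MulAut (N ⧸ K))) :
    C (MulAut N) :=
  aut_ext hC K K le_rfl (stab_spread N K hK hS) (stab_spread N K hK hS) h1 h2

/-- subgroups of finite index -/
theorem aut_fin (hC : ACl C) (N : Type) [Group N] [hN : Group.FG N] (K : Subgroup N)
    [hKf : K.FiniteIndex] (h1 : C (MulAut K)) : C (MulAut N) := by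
  have h3 : Finite (N ⧸ K.normalCore) := inferInstance
  have h4 : Finite (MulAut (N ⧸ K.normalCore)) :=
    Finite.of_injective (fun (σ : MulAut (N ⧸ K.normalCore)) => (σ : N ⧸ K.normalCore → N ⧸ K.normalCore))
      DFunLike.coe_injective
  exact aut_ext hC K K.normalCore K.normalCore_le (stab_index N K) (stab_index N _) h1
    (hC.finite _)

/-- normal subgroups which are preserved by all automorphisms -/
theorem aut_char (hC : ACl C) (N : Type) [Group N] (K : Subgroup N) [hKn : K.Normal]
    (hK : K.Characteristic) (h1 : C (MulAut K)) (h2 : C (MulAut (N ⧸ K))) : C (MulAut N) := by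
  have h3 : stab K = ⊤ := by
    rw [eq_top_iff]
    intro σ _
    exact mem_stab_iff.2 ((Subgroup.characteristic_iff_map_eq.1 hK) σ)
  have h4 : (stab K).FiniteIndex := by rw [h3]; infer_instance
  exact aut_ext hC K K le_rfl h4 h4 h1 h2

/-- iterated extensions of groups with automorphism groups in `C` -/
inductive AT (C : ∀ (G : Type) [Group G], Prop) : ∀ (N : Type) [Group N], Prop
  | base (N : Type) [Group N] : Group.FG N → C (MulAut N) → AT C N
  | step (N : Type) [Group N] (K : Subgroup N) [K.Normal] : AT C K → Spread (N ⧸ K) →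
      C (MulAut (N ⧸ K)) → AT C N
  | fin (N : Type) [Group N] (K : Subgroup N) [K.FiniteIndex] : AT C K → AT C N

theorem at_aut (hC : ACl C) {N : Type} [Group N] (h : AT C N) : Group.FG N ∧ C (MulAut N) := by
  induction h with
  | base N h1 h2 => exact ⟨h1, h2⟩
  | step N K _ h2 h3 ih =>
    have h4 : Group.FG N := fg_ext K ih.1 h2.fg
    exact ⟨h4, aut_step hC N K ((Group.fg_iff_subgroup_fg K).1 ih.1) h2 ih.2 h3⟩
  | fin N K _ ih =>
    have h4 : Group.FG N := fg_fin K ih.1
    exact ⟨h4, aut_fin hC N K ih.2⟩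

/-- the quotient by the centralizer -/
theorem quot_centralizer (hC : ACl C) {G : Type} [Group G] (N : Subgroup G) [hNn : N.Normal]
    (h : C (MulAut N)) : C (G ⧸ Subgroup.centralizer (N : Set G)) := by
  have h1 : (MulAut.conjNormal : G →* MulAut N).ker = Subgroup.centralizer (N : Set G) := by
    ext g
    rw [MonoidHom.mem_ker, Subgroup.mem_centralizer_iff]
    constructor
    · intro hg x hx
      have h2 : ((MulAut.conjNormal g : MulAut N) ⟨x, hx⟩ : G) = x := by rw [hg]; rfl
      rw [MulAut.conjNormal_apply] at h2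
      have h3 : g * x = x * g := by
        calc g * x = g * x * g⁻¹ * g := by group
          _ = x * g := by rw [h2]
      exact h3.symm
    · intro hg
      ext x
      rw [MulAut.conjNormal_apply]
      show g * x * g⁻¹ = x
      rw [← hg x x.2, mul_inv_cancel_right]
  have h2 : Function.Injective (QuotientGroup.kerLift (MulAut.conjNormal : G →* MulAut N)) :=
    QuotientGroup.kerLift_injective _
  have h3 := hC.of_injective _ _ (QuotientGroup.kerLift (MulAut.conjNormal : G →* MulAut N)) h2 h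
  exact hC.equiv (QuotientGroup.quotientMulEquivOfEq h1) h3

end Pool.Agent.Helper687_Borel
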