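import Pool.Agent.Helper687_Borel.Coh
import Pool.Agent.Helper436.SM.RF1

/-!
# The separation condition

`SepC S`: each nontrivial element of `S` has a power in a finite index subgroup `H` of `S` which is not
killed by all homomorphisms `H → ℝ`. It holds for groups which are residually a group with this property, in
particular for residually free groups, and for residually finite groups whose finite index subgroups have
the lifting property for homomorphisms to `ℤ/p`.
-/

set_option autoImplicit false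

namespace Pool.Agent.Helper687_Borel

/-- the separation condition -/
def SepC (S : Type) [Group S] : Prop :=
  ∀ s : S, s ≠ 1 → ∃ H : Subgroup S, H.FiniteIndex ∧
    ∃ (k : ℕ) (hk : s ^ k ∈ H) (ψ : H →* Multiplicative ℝ), ψ ⟨s ^ k, hk⟩ ≠ 1

theorem fin_comap {S F : Type} [Group S] [Group F] (f : S →* F) (H : Subgroup F)
    [hH : H.FiniteIndex] : (H.comap f).FiniteIndex := by
  have : H.IsFiniteRelIndex f.range := Subgroup.isFiniteRelIndex_of_finiteIndex
  exact ⟨by rw [Subgroup.index_comap]; exact this.relIndex_ne_zero⟩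

/-- the separation condition is a residual property -/
theorem SepC.residual {S : Type} [Group S]
    (h : ∀ s : S, s ≠ 1 → ∃ (F : Type) (_ : Group F) (f : S →* F), f s ≠ 1 ∧ SepC F) : SepC S := by
  intro s hs
  obtain ⟨F, _, f, hf, hF⟩ := h s hs
  obtain ⟨H, hH, k, hk, ψ, hψ⟩ := hF (f s) hf
  have hk' : s ^ k ∈ H.comap f := by
    show f (s ^ k) ∈ H
    rw [map_pow]
    exact hk
  let g : H.comap f →* H :=
    { toFun := fun x => ⟨f x, x.2⟩
      map_one' := Subtype.ext (map_one f)
      map_mul' := fun x y => Subtype.ext (map_mul f _ _) }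
  refine ⟨H.comap f, fin_comap f H, k, hk', ψ.comp g, ?_⟩
  have h3 : g ⟨s ^ k, hk'⟩ = ⟨f s ^ k, hk⟩ := Subtype.ext (map_pow f _ _)
  show ψ (g ⟨s ^ k, hk'⟩) ≠ 1
  rw [h3]
  exact hψ

/-- the reduction map -/
def redP (p : ℕ) : Multiplicative ℤ →* Multiplicative (ZMod p) :=
  AddMonoidHom.toMultiplicative (Int.castAddHom (ZMod p))

theorem redP_surj (p : ℕ) : Function.Surjective (redP p) := by
  intro x
  obtain ⟨n, hn⟩ := ZMod.intCast_surjective x.toAdd
  exact ⟨Multiplicative.ofAdd n, by rw [redP]; exact congrArg Multiplicative.ofAdd hn⟩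

/-- a criterion for residually finite groups -/
theorem SepC.of_lift {S : Type} [Group S]
    (h1 : ∀ s : S, s ≠ 1 → ∃ (Q : Type) (_ : Group Q) (_ : Finite Q) (f : S →* Q), f s ≠ 1)
    (h2 : ∀ H : Subgroup S, H.FiniteIndex → ∀ p : ℕ, p.Prime → ∀ θ : H →* Multiplicative (ZMod p),
      ∃ Θ : H →* Multiplicative ℤ, (redP p).comp Θ = θ) : SepC S := by
  intro s hs
  obtain ⟨Q, _, _, f, hf⟩ := h1 s hs
  have ho : orderOf (f s) ≠ 1 := fun h => hf (orderOf_eq_one_iff.1 h)
  obtain ⟨p, hp, hpo⟩ := Nat.exists_prime_and_dvd ho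
  have hHi : ((Subgroup.zpowers (f s)).comap f).FiniteIndex := fin_comap f _
  have hsH : s ^ 1 ∈ (Subgroup.zpowers (f s)).comap f := by
    rw [pow_one]
    exact Subgroup.mem_zpowers _
  let q : (Subgroup.zpowers (f s)).comap f →* Subgroup.zpowers (f s) :=
    { toFun := fun x => ⟨f x, x.2⟩
      map_one' := Subtype.ext (map_one f)
      map_mul' := fun x y => Subtype.ext (map_mul f _ _) }
  have hgen : ∀ x : Subgroup.zpowers (f s), x ∈ Subgroup.zpowers
      (⟨f s, Subgroup.mem_zpowers _⟩ : Subgroup.zpowers (f s)) := by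
    rintro ⟨_, n, rfl⟩
    exact ⟨n, Subtype.ext (by simp)⟩
  have hord : orderOf (Multiplicative.ofAdd (1 : ZMod p)) ∣
      orderOf (⟨f s, Subgroup.mem_zpowers _⟩ : Subgroup.zpowers (f s)) := by
    rw [← Subgroup.orderOf_coe, orderOf_ofAdd_eq_addOrderOf, ZMod.addOrderOf_one]
    exact hpo
  obtain ⟨θ0, hθ0⟩ : ∃ θ0 : Subgroup.zpowers (f s) →* Multiplicative (ZMod p),
      θ0 ⟨f s, Subgroup.mem_zpowers _⟩ = Multiplicative.ofAdd (1 : ZMod p) :=
    ⟨monoidHomOfForallMemZpowers hgen hord, monoidHomOfForallMemZpowers_apply_gen hgen hord⟩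
  obtain ⟨Θ, hΘ⟩ := h2 _ hHi p hp (θ0.comp q)
  refine ⟨_, hHi, 1, hsH,
    (AddMonoidHom.toMultiplicative (Int.castAddHom ℝ)).comp Θ, fun h => ?_⟩
  have h3 : Θ ⟨s ^ 1, hsH⟩ = 1 := by
    have h4 : (((Θ ⟨s ^ 1, hsH⟩).toAdd : ℤ) : ℝ) = 0 := h
    have h5 : (Θ ⟨s ^ 1, hsH⟩).toAdd = 0 := by exact_mod_cast h4
    exact h5
  have h6 := DFunLike.congr_fun hΘ ⟨s ^ 1, hsH⟩
  rw [MonoidHom.comp_apply, h3, map_one] at h6
  have h7 : q ⟨s ^ 1, hsH⟩ = ⟨f s, Subgroup.mem_zpowers _⟩ := Subtype.ext (by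
    show f (s ^ 1) = f s
    rw [pow_one])
  rw [MonoidHom.comp_apply, h7, hθ0] at h6
  have h8 : (0 : ZMod p) = 1 := h6
  have := Fact.mk hp
  exact zero_ne_one h8

/-- free groups -/
theorem sepC_free (ι : Type) [DecidableEq ι] : SepC (FreeGroup ι) := by
  refine SepC.of_lift (fun s hs => ?_) (fun H hH p hp θ => ?_)
  · obtain ⟨m, e, he⟩ := Pool.Agent.Helper436.SM.free_rf s hs
    exact ⟨Equiv.Perm (Fin m), inferInstance, inferInstance, FreeGroup.lift e, he⟩
  · have h1 : IsFreeGroup H := inferInstance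
    obtain ⟨l, hl⟩ : ∃ l : Multiplicative (ZMod p) → Multiplicative ℤ, ∀ x, redP p (l x) = x :=
      ⟨_, Function.surjInv_eq (redP_surj p)⟩
    refine ⟨IsFreeGroup.lift fun i => l (θ (IsFreeGroup.of i)), ?_⟩
    apply IsFreeGroup.ext_hom
    intro i
    rw [MonoidHom.comp_apply, IsFreeGroup.lift_of, hl]

/-- **residually free groups with a presentation of deficiency at least two are spread** -/
theorem spread_of_def {S : Type} [Group S] (hsep : SepC S) {ι κ : Type} [Fintype ι] [Fintype κ]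
    (hnm : Fintype.card κ + 2 ≤ Fintype.card ι)
    (π : FreeGroup ι →* S) (hπ : Function.Surjective π) (r : κ → FreeGroup ι)
    (hr : π.ker = Subgroup.normalClosure (Set.range r)) : Spread S where
  fg := Group.fg_of_surjective hπ
  coh := fun H hH χ => coh_def hnm π hπ r hr H hH χ
  sep := hsep

/-- free groups of rank at least two -/
theorem spread_free (n : ℕ) (hn : 2 ≤ n) : Spread (FreeGroup (Fin n)) := by
  refine spread_of_def (sepC_free (Fin n)) (κ := Fin 0) (by simpa using hn) (MonoidHom.id _)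
    Function.surjective_id Fin.elim0 ?_
  rw [Set.range_eq_empty, Subgroup.normalClosure_empty, MonoidHom.ker_id]

end Pool.Agent.Helper687_Borel
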