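import Pool.Agent.Helper687_Borel.Omega

/-!
# Finitely generated normal subgroups with spread quotients

A finitely generated group `S` is spread if each finite index subgroup `H` of `S` has nonzero first
cohomology with coefficients in all characters `exp χ`, `χ : H → ℝ` a homomorphism, and if each nontrivial
element of `S` has a power in a finite index subgroup `H` which is not killed by all homomorphisms `H → ℝ`.
A finitely generated group has only finitely many finitely generated normal subgroups with a spread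
quotient (`finite_fib`).
-/

set_option autoImplicit false

open Polynomial

namespace Pool.Agent.Helper687_Borel

/-- `d` is a derivation with respect to the character `exp χ` -/
def IsDer {H : Type} [Group H] (χ : H →* Multiplicative ℝ) (d : H → ℝ) : Prop :=
  ∀ x y, d (x * y) = d x + Real.exp (χ x).toAdd * d y

/-- `H¹(H; ℝ_χ) ≠ 0`: some derivation is not principal -/
def NonPrin {H : Type} [Group H] (χ : H →* Multiplicative ℝ) : Prop :=
  ∃ d : H → ℝ, IsDer χ d ∧ ¬ ∃ c : ℝ, ∀ x, d x = c * (Real.exp (χ x).toAdd - 1)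

/-- spread groups -/
structure Spread (S : Type) [Group S] : Prop where
  fg : Group.FG S
  coh : ∀ H : Subgroup S, H.FiniteIndex → ∀ χ : H →* Multiplicative ℝ, NonPrin χ
  sep : ∀ s : S, s ≠ 1 → ∃ H : Subgroup S, H.FiniteIndex ∧
    ∃ (k : ℕ) (hk : s ^ k ∈ H) (ψ : H →* Multiplicative ℝ), ψ ⟨s ^ k, hk⟩ ≠ 1

/-- the exponential function -/
noncomputable def expU : Multiplicative ℝ →* ℝˣ where
  toFun a := Units.mk0 (Real.exp a.toAdd) (Real.exp_ne_zero _)
  map_one' := by ext; simp
  map_mul' a b := by ext; simp [Real.exp_add]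

variable {N : Type} [Group N]

/-- evaluation at the character `exp χ` -/
noncomputable def ev (χ : N →* Multiplicative ℝ) : Rg N →ₐ[ℤ] ℝ :=
  MonoidAlgebra.lift ℤ ℝ (Abelianization N)
    ((Units.coeHom ℝ).comp (Abelianization.lift (expU.comp χ)))

theorem ev_br (χ : N →* Multiplicative ℝ) (x : N) : ev χ (br x) = Real.exp (χ x).toAdd := by
  rw [ev, br, MonoidAlgebra.lift_of]
  show ((Abelianization.lift (expU.comp χ) (Abelianization.of x) : ℝˣ) : ℝ) = _
  rw [Abelianization.lift_apply_of]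
  rfl

theorem exp_eq_one {a : Multiplicative ℝ} (h : Real.exp a.toAdd = 1) : a = 1 := by
  rw [Real.exp_eq_one_iff] at h
  exact h

/-- the annihilator of the brackets is contained in the kernel of all nontrivial characters with
nonzero cohomology -/
theorem Ib_le (χ : N →* Multiplicative ℝ) (hχ : ∃ y, χ y ≠ 1) (h : NonPrin χ) {r : Rg N}
    (hr : r ∈ Ib N) : ev χ r = 0 := by
  obtain ⟨d, hd, hnp⟩ := h
  obtain ⟨y, hy⟩ := hχ
  obtain ⟨f, hf1, hf2, hf3⟩ := lift_exists ((ev χ : Rg N →ₐ[ℤ] ℝ) : Rg N →+* ℝ) d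
    (fun x y => by rw [hd x y]; congr 2; exact (ev_br χ x).symm)
  have hf4 : ∀ v w, f (v - w) = f v - f w := fun v w => by
    have := hf1 (v - w) w
    rw [sub_add_cancel] at this
    linarith
  have hbb : ∀ x, f (bb x y) = (1 - Real.exp (χ y).toAdd) * d x - (1 - Real.exp (χ x).toAdd) * d y := by
    intro x
    rw [bb, hf4, hf2, hf2, hf3, hf3]
    simp only [map_sub, map_one]
    rw [← ev_br χ x, ← ev_br χ y]
    rfl
  have h1 : ∀ x, ev χ r * f (bb x y) = 0 := by
    intro x
    have h2 := hf2 r (bb x y)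
    rw [hr x y] at h2
    have h3 : f 0 = 0 := by
      have := hf1 0 0
      rw [add_zero] at this
      linarith
    rw [h3] at h2
    exact h2.symm
  by_contra hne
  refine hnp ⟨- d y / (1 - Real.exp (χ y).toAdd), fun x => ?_⟩
  have h2 : f (bb x y) = 0 := by
    rcases mul_eq_zero.1 (h1 x) with h | h
    · exact absurd h hne
    · exact h
  rw [hbb] at h2
  have h3 : 1 - Real.exp (χ y).toAdd ≠ 0 := by
    intro h
    exact hy (exp_eq_one (by linarith))
  rw [div_mul_eq_mul_div, eq_div_iff h3]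
  linarith

/-! ### generic characters -/

theorem exists_generic (S : Type) [Group S] [hS : Group.FG S] : ∃ χ : S →* Multiplicative ℝ,
    ∀ x, χ x = 1 → ∀ ψ : S →* Multiplicative ℝ, ψ x = 1 := by
  classical
  have h1 : Group.FG (Abelianization S) :=
    Group.fg_of_surjective (f := Abelianization.of) (QuotientGroup.mk_surjective)
  have h2 : AddGroup.FG (Additive (Abelianization S)) := GroupFG.iff_add_fg.1 h1
  have h3 : Module.Finite ℤ (Additive (Abelianization S)) := Module.Finite.iff_addGroup_fg.mpr h2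
  obtain ⟨Q, hQ1, hQ2, hQ3, hQ4, q, hq⟩ : ∃ (Q : Type) (_ : AddCommGroup Q) (_ : Module.Finite ℤ Q)
      (_ : Module.Free ℤ Q) (_ : True) (q : Additive (Abelianization S) →ₗ[ℤ] Q),
      ∀ a, q a = 0 → ∃ n : ℤ, n ≠ 0 ∧ n • a = 0 := by
    refine ⟨Additive (Abelianization S) ⧸ Submodule.torsion ℤ (Additive (Abelianization S)),
      inferInstance, inferInstance, inferInstance, trivial, Submodule.mkQ _, fun a ha => ?_⟩
    rw [Submodule.mkQ_apply, Submodule.Quotient.mk_eq_zero, Submodule.mem_torsion_iff] at ha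
    obtain ⟨n, hn⟩ := ha
    exact ⟨n, nonZeroDivisors.ne_zero n.2, hn⟩
  let b := Module.Free.chooseBasis ℤ Q
  let e := Fintype.equivFin (Module.Free.ChooseBasisIndex ℤ Q)
  have hτ := transcendental_liouvilleNumber (le_refl 2)
  obtain ⟨τ, hτ⟩ : ∃ τ : ℝ, Transcendental ℤ τ := ⟨_, hτ⟩
  let lam : Q →ₗ[ℤ] ℝ := b.constr ℤ (fun i => τ ^ (e i : ℕ))
  have hlam : ∀ v, lam v = 0 → v = 0 := by
    intro v hv
    have h4 : lam v = ∑ i, b.repr v i • τ ^ (e i : ℕ) := by
      show b.constr ℤ (fun i => τ ^ (e i : ℕ)) v = _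
      rw [Module.Basis.constr_apply_fintype]
      rfl
    have h5 : aeval τ (∑ i, C (b.repr v i) * (X : ℤ[X]) ^ (e i : ℕ)) = 0 := by
      rw [map_sum, ← hv, h4]
      refine Finset.sum_congr rfl fun i _ => ?_
      rw [map_mul, aeval_C, map_pow, aeval_X]
      simp
    have h6 := (transcendental_iff.1 hτ) _ h5
    refine b.ext_elem fun i => ?_
    have h7 := congrArg (fun p : ℤ[X] => p.coeff (e i : ℕ)) h6
    simp only [finsetSum_coeff, coeff_C_mul, coeff_X_pow, coeff_zero] at h7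
    rw [Finset.sum_eq_single i] at h7
    · simpa using h7
    · intro j _ hj
      rw [if_neg, mul_zero]
      intro h
      exact hj (e.injective (Fin.ext h.symm))
    · intro h; exact absurd (Finset.mem_univ i) h
  let χ : S →* Multiplicative ℝ :=
    { toFun := fun x => Multiplicative.ofAdd (lam (q (Additive.ofMul (Abelianization.of x))))
      map_one' := by simp
      map_mul' := fun x y => by
        rw [map_mul, ofMul_mul, map_add, map_add, ofAdd_add] }
  refine ⟨χ, fun x hx ψ => ?_⟩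
  have h4 : lam (q (Additive.ofMul (Abelianization.of x))) = 0 := hx
  obtain ⟨n, hn, h5⟩ := hq _ (hlam _ h4)
  have h6 : (Abelianization.of x) ^ n = 1 := h5
  have h7 : ψ x ^ n = 1 := by
    rw [← Abelianization.lift_apply_of ψ x, ← map_zpow, h6, map_one]
  have h8 : n • (ψ x).toAdd = 0 := h7
  rcases smul_eq_zero.1 h8 with h | h
  · exact absurd h hn
  · exact h

theorem exists_good (S : Type) [Group S] [hS : Group.FG S]
    (hne : ∃ (ψ : S →* Multiplicative ℝ) (x : S), ψ x ≠ 1) : ∃ χ : S →* Multiplicative ℝ,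
    (∀ x, χ x = 1 → ∀ ψ : S →* Multiplicative ℝ, ψ x = 1) ∧
    ∃ t : S, Transcendental ℤ (Real.exp (χ t).toAdd) := by
  obtain ⟨χ, hχ⟩ := exists_generic S
  obtain ⟨ψ, t, hψ⟩ := hne
  have ht : (χ t).toAdd ≠ 0 := fun h => hψ (hχ t h ψ)
  have hτ : Transcendental ℤ ((liouvilleNumber 2) ^ 2) :=
    (transcendental_liouvilleNumber (le_refl 2)).pow (by norm_num)
  have hne0 : liouvilleNumber 2 ≠ 0 := by
    intro h
    have := transcendental_liouvilleNumber (le_refl 2)
    rw [Nat.cast_ofNat, h] at this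
    exact this isAlgebraic_zero
  have hpos : 0 < (liouvilleNumber 2) ^ 2 := by positivity
  obtain ⟨c, hc⟩ : ∃ c : ℝ, c = Real.log ((liouvilleNumber 2) ^ 2) / (χ t).toAdd := ⟨_, rfl⟩
  have hct : c * (χ t).toAdd = Real.log ((liouvilleNumber 2) ^ 2) := by
    rw [hc]; field_simp
  have hc0 : c ≠ 0 := by
    intro h
    rw [h, zero_mul] at hct
    have : Real.exp 0 = (liouvilleNumber 2) ^ 2 := by rw [hct, Real.exp_log hpos]
    rw [Real.exp_zero] at this
    rw [← this] at hτ
    exact hτ isAlgebraic_one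
  let χ' : S →* Multiplicative ℝ :=
    { toFun := fun x => Multiplicative.ofAdd (c * (χ x).toAdd)
      map_one' := by simp
      map_mul' := fun x y => by
        show Multiplicative.ofAdd (c * (χ (x * y)).toAdd) = Multiplicative.ofAdd (c * (χ x).toAdd +
          c * (χ y).toAdd)
        rw [χ.map_mul, toAdd_mul, mul_add] }
  have h1 : ∀ x, (χ' x).toAdd = c * (χ x).toAdd := fun x => rfl
  refine ⟨χ', fun x hx => hχ x ?_, t, ?_⟩
  · have h2 : c * (χ x).toAdd = 0 := hx
    rcases mul_eq_zero.1 h2 with h | h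
    · exact absurd h hc0
    · exact h
  · rw [h1, hct, Real.exp_log hpos]
    exact hτ

theorem fg_map {G H : Type} [Group G] [Group H] {K : Subgroup G} (hK : K.FG) (f : G →* H) :
    (K.map f).FG := by
  classical
  obtain ⟨T, hT⟩ := hK
  exact ⟨T.image f, by rw [Finset.coe_image, ← MonoidHom.map_closure, hT]⟩

/-- the whole group -/
theorem Spread.top {S : Type} [Group S] (hS : Spread S) (χ : S →* Multiplicative ℝ) : NonPrin χ := by
  obtain ⟨d, hd, hnp⟩ := hS.coh ⊤ inferInstance (χ.comp (⊤ : Subgroup S).subtype)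
  refine ⟨fun x => d ⟨x, trivial⟩, fun x y => hd ⟨x, trivial⟩ ⟨y, trivial⟩, ?_⟩
  rintro ⟨c, hc⟩
  exact hnp ⟨c, fun x => hc x⟩

theorem Spread.exists_char {S : Type} [Group S] (hS : Spread S) :
    ∃ (ψ : S →* Multiplicative ℝ) (x : S), ψ x ≠ 1 := by
  obtain ⟨d, hd, hnp⟩ := hS.top (1 : S →* Multiplicative ℝ)
  have hd' : ∀ x y, d (x * y) = d x + d y := fun x y => by
    rw [hd x y]; simp
  let ψ : S →* Multiplicative ℝ :=
    { toFun := fun x => Multiplicative.ofAdd (d x)
      map_one' := by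
        have := hd' 1 1
        rw [mul_one] at this
        have h0 : d 1 = 0 := by linarith
        rw [h0]; rfl
      map_mul' := fun x y => by rw [hd', ofAdd_add] }
  by_contra hcon
  push Not at hcon
  refine hnp ⟨0, fun x => ?_⟩
  rw [zero_mul]
  exact hcon ψ x

theorem ker_prime (χ : N →* Multiplicative ℝ) :
    (RingHom.ker ((ev χ : Rg N →ₐ[ℤ] ℝ) : Rg N →+* ℝ)).IsPrime := RingHom.ker_isPrime _

theorem mem_ker_ev (χ : N →* Multiplicative ℝ) (r : Rg N) :
    r ∈ RingHom.ker ((ev χ : Rg N →ₐ[ℤ] ℝ) : Rg N →+* ℝ) ↔ ev χ r = 0 := Iff.rfl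

/-- the key lemma for the kernel of a character -/
theorem key_char [hN : Group.FG N] (K : Subgroup N) [hKn : K.Normal] (hK : K.FG)
    (χ : N →* Multiplicative ℝ) (hχ : ∀ k ∈ K, χ k = 1) (t : N)
    (ht : Transcendental ℤ (Real.exp (χ t).toAdd)) :
    ∃ s, ev χ s ≠ 0 ∧ ∀ k ∈ K, s * (1 - br k) ∈ Ib N := by
  have := ker_prime χ
  obtain ⟨s, hs, h⟩ := key K hK (RingHom.ker ((ev χ : Rg N →ₐ[ℤ] ℝ) : Rg N →+* ℝ)) (fun k hk => by
    rw [mem_ker_ev, map_sub, map_one, ev_br, hχ k hk]
    simp) t (fun p hp => by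
    rw [mem_ker_ev, ← Polynomial.aeval_algHom_apply, ev_br]
    intro h
    exact hp.ne_zero ((transcendental_iff.1 ht) p h))
  exact ⟨s, hs, h⟩

theorem ev_continuous (χ ψ : N →* Multiplicative ℝ) (χc : ℝ → (N →* Multiplicative ℝ))
    (hχc : ∀ c x, (χc c x).toAdd = (χ x).toAdd + c * (ψ x).toAdd) (r : Rg N) :
    Continuous fun c => ev (χc c) r := by
  induction r using MonoidAlgebra.induction_on with
  | of a =>
    obtain ⟨x, rfl⟩ := QuotientGroup.mk_surjective a
    have : (fun c => ev (χc c) ((MonoidAlgebra.of ℤ (Abelianization N)) (Abelianization.of x))) =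
        fun c => Real.exp ((χ x).toAdd + c * (ψ x).toAdd) := by
      funext c
      rw [← hχc]
      exact ev_br (χc c) x
    show Continuous (fun c => ev (χc c) ((MonoidAlgebra.of ℤ (Abelianization N)) (Abelianization.of x)))
    rw [this]
    fun_prop
  | add f g hf hg =>
    simp only [map_add]
    exact hf.add hg
  | smul n f hf =>
    simp only [map_smul]
    exact hf.const_smul n

/-- finitely generated normal subgroups which are invisible in the real abelianization -/
theorem sep_lemma {S : Type} [Group S] (hS : Spread S) (L : Subgroup S) [hLn : L.Normal] (hL : L.FG)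
    (hLχ : ∀ l ∈ L, ∀ ψ : S →* Multiplicative ℝ, ψ l = 1) : L = ⊥ := by
  have hSfg := hS.fg
  rw [Subgroup.eq_bot_iff_forall]
  intro l hl
  by_contra hl1
  obtain ⟨H, hH, k, hk, ψ, hψ⟩ := hS.sep l hl1
  obtain ⟨χ, -, t0, ht0⟩ := exists_good S hS.exists_char
  obtain ⟨m, hm, ht⟩ : ∃ m : ℕ, 0 < m ∧ t0 ^ m ∈ H := by
    obtain ⟨m, hm, -, h⟩ := Subgroup.exists_pow_mem_of_index_ne_zero hH.index_ne_zero t0
    exact ⟨m, hm, h⟩
  have hHfg : Group.FG H := inferInstance
  have hKfg : (L.subgroupOf H).FG := by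
    have h1 : Group.FG L := (Group.fg_iff_subgroup_fg L).2 hL
    have h2 : (H.subgroupOf L).FiniteIndex := inferInstance
    have h3 : Group.FG (H.subgroupOf L) := inferInstance
    rw [← Group.fg_iff_subgroup_fg]
    let f : H.subgroupOf L →* L.subgroupOf H :=
      { toFun := fun x => ⟨⟨(x : L), x.2⟩, x.1.2⟩
        map_one' := rfl
        map_mul' := fun _ _ => rfl }
    exact Group.fg_of_surjective (f := f) fun y => ⟨⟨⟨y.1, y.2⟩, y.1.2⟩, rfl⟩
  have hKn : (L.subgroupOf H).Normal := inferInstance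
  obtain ⟨s, hs, hsI⟩ := key_char (L.subgroupOf H) hKfg (χ.comp H.subtype)
    (fun x hx => hLχ _ hx χ) ⟨t0 ^ m, ht⟩ (by
      have h1 : ((χ.comp H.subtype) ⟨t0 ^ m, ht⟩).toAdd = m * (χ t0).toAdd := by
        show (χ (t0 ^ m)).toAdd = _
        rw [map_pow, toAdd_pow, nsmul_eq_mul]
      rw [h1, Real.exp_nat_mul]
      exact ht0.pow hm)
  let χc : ℝ → (H →* Multiplicative ℝ) := fun c =>
    { toFun := fun x => Multiplicative.ofAdd (((χ.comp H.subtype) x).toAdd + c * (ψ x).toAdd)
      map_one' := by simp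
      map_mul' := fun x y => by
        show Multiplicative.ofAdd ((χ.comp H.subtype (x * y)).toAdd + c * (ψ (x * y)).toAdd) =
          Multiplicative.ofAdd (((χ.comp H.subtype x).toAdd + c * (ψ x).toAdd) +
            ((χ.comp H.subtype y).toAdd + c * (ψ y).toAdd))
        rw [(χ.comp H.subtype).map_mul, ψ.map_mul, toAdd_mul, toAdd_mul]
        congr 1
        ring }
  have hχc : ∀ c x, (χc c x).toAdd = ((χ.comp H.subtype) x).toAdd + c * (ψ x).toAdd :=
    fun c x => rfl
  have hcont := ev_continuous (χ.comp H.subtype) ψ χc hχc s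
  have hz : ∀ c : ℝ, c ≠ 0 → ev (χc c) s = 0 := by
    intro c hc
    have h1 : (χc c ⟨l ^ k, hk⟩).toAdd = c * (ψ ⟨l ^ k, hk⟩).toAdd := by
      rw [hχc]
      have : ((χ.comp H.subtype) ⟨l ^ k, hk⟩).toAdd = 0 := by
        have := hLχ (l ^ k) (L.pow_mem hl k) χ
        show (χ (l ^ k)).toAdd = 0
        rw [this]; rfl
      rw [this, zero_add]
    have h2 : c * (ψ ⟨l ^ k, hk⟩).toAdd ≠ 0 := mul_ne_zero hc hψ
    have h3 := Ib_le (χc c) ⟨⟨l ^ k, hk⟩, fun h => h2 (by rw [← h1, h]; rfl)⟩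
      (hS.coh H hH (χc c)) (hsI ⟨l ^ k, hk⟩ (L.pow_mem hl k))
    rw [map_mul, map_sub, map_one, ev_br, h1] at h3
    rcases mul_eq_zero.1 h3 with h | h
    · exact h
    · exfalso
      refine h2 ?_
      have : Real.exp (c * (ψ ⟨l ^ k, hk⟩).toAdd) = 1 := by linarith
      exact Real.exp_eq_one_iff _ |>.1 this
  have h0 : ev (χc 0) s = 0 := by
    have hcl : IsClosed {c : ℝ | ev (χc c) s = 0} := isClosed_eq hcont continuous_const
    have hd : Dense ({0}ᶜ : Set ℝ) := dense_compl_singleton 0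
    have h1 : ({0}ᶜ : Set ℝ) ⊆ {c : ℝ | ev (χc c) s = 0} := fun c hc => hz c hc
    exact (hcl.closure_subset_iff.2 h1) (hd.closure_eq ▸ Set.mem_univ (0 : ℝ))
  refine hs ?_
  have h1 : χc 0 = χ.comp H.subtype := by
    ext x
    apply Multiplicative.toAdd.injective
    rw [hχc, zero_mul, add_zero]
  rw [h1] at h0
  exact h0

/-- **a finitely generated group has only finitely many finitely generated normal subgroups with a
spread quotient** -/
theorem finite_fib (N : Type) [Group N] [hN : Group.FG N] :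
    {K : Subgroup N | ∃ _ : K.Normal, K.FG ∧ Spread (N ⧸ K)}.Finite := by
  have main : ∀ K ∈ {K : Subgroup N | ∃ _ : K.Normal, K.FG ∧ Spread (N ⧸ K)},
      ∃ Q ∈ (Ib N).minimalPrimes, (∀ k ∈ K, 1 - br k ∈ Q) ∧
      ∀ hn : K.Normal, ∀ x : N, 1 - br x ∈ Q → ∀ ψ : N ⧸ K →* Multiplicative ℝ,
        ψ (QuotientGroup.mk' K x) = 1 := by
    rintro K ⟨hKn, hK, hS⟩
    have hSfg := hS.fg
    obtain ⟨χ, hχ, t0, ht0⟩ := exists_good (N ⧸ K) hS.exists_char
    obtain ⟨t, rfl⟩ := QuotientGroup.mk'_surjective K t0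
    have h1 : ∀ k ∈ K, (χ.comp (QuotientGroup.mk' K)) k = 1 := by
      intro k hk
      show χ ((k : N) : N ⧸ K) = 1
      rw [(QuotientGroup.eq_one_iff k).2 hk, map_one]
    obtain ⟨s, hs, hsI⟩ := key_char K hK (χ.comp (QuotientGroup.mk' K)) h1 t ht0
    have h2 : ∃ y, (χ.comp (QuotientGroup.mk' K)) y ≠ 1 := by
      refine ⟨t, fun h => ?_⟩
      have h3 : χ (QuotientGroup.mk' K t) = 1 := h
      rw [h3] at ht0
      refine ht0 ?_
      simpa using (isAlgebraic_one : IsAlgebraic ℤ (1 : ℝ))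
    have h3 : NonPrin (χ.comp (QuotientGroup.mk' K)) := by
      obtain ⟨d, hd, hnp⟩ := hS.top χ
      refine ⟨fun x => d (QuotientGroup.mk' K x), fun x y => ?_, ?_⟩
      · show d (QuotientGroup.mk' K (x * y)) = _
        rw [map_mul]
        exact hd _ _
      · rintro ⟨c, hc⟩
        refine hnp ⟨c, fun x => ?_⟩
        obtain ⟨x, rfl⟩ := QuotientGroup.mk'_surjective K x
        exact hc x
    have hprime := ker_prime (χ.comp (QuotientGroup.mk' K))
    have hle : Ib N ≤ RingHom.ker ((ev (χ.comp (QuotientGroup.mk' K)) : Rg N →ₐ[ℤ] ℝ) : Rg N →+* ℝ) :=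
      fun r hr => Ib_le _ h2 h3 hr
    obtain ⟨Q, hQ, hQle⟩ := Ideal.exists_minimalPrimes_le hle
    have hQp : Q.IsPrime := hQ.1.1
    refine ⟨Q, hQ, fun k hk => ?_, fun hn x hx ψ => ?_⟩
    · rcases hQp.mem_or_mem (hQ.1.2 (hsI k hk)) with h | h
      · exact absurd (hQle h) hs
      · exact h
    · refine hχ _ ?_ ψ
      have h4 : ev (χ.comp (QuotientGroup.mk' K)) (1 - br x) = 0 := hQle hx
      rw [map_sub, map_one, ev_br] at h4
      exact exp_eq_one (a := (χ.comp (QuotientGroup.mk' K)) x) (by linarith)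
  choose! F hF1 hF2 hF3 using main
  refine Set.Finite.of_injOn (f := F) (t := (Ib N).minimalPrimes) (fun K hK => hF1 K hK) ?_
    (Ideal.finite_minimalPrimes_of_isNoetherianRing _ _)
  have hle : ∀ K ∈ {K : Subgroup N | ∃ _ : K.Normal, K.FG ∧ Spread (N ⧸ K)},
      ∀ K' ∈ {K : Subgroup N | ∃ _ : K.Normal, K.FG ∧ Spread (N ⧸ K)}, F K = F K' → K ≤ K' := by
    intro K hK K' hK' hFF
    obtain ⟨hKn, hKfg, hS⟩ := hK
    obtain ⟨hKn', hKfg', hS'⟩ := hK'
    have h1 : (K.map (QuotientGroup.mk' K')).Normal := hKn.map _ (QuotientGroup.mk'_surjective K')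
    have h2 : (K.map (QuotientGroup.mk' K')).FG := fg_map hKfg _
    have h3 := sep_lemma hS' (K.map (QuotientGroup.mk' K')) h2 (by
      rintro _ ⟨k, hk, rfl⟩ ψ
      refine hF3 K' ⟨hKn', hKfg', hS'⟩ hKn' k ?_ ψ
      rw [← hFF]
      exact hF2 K ⟨hKn, hKfg, hS⟩ k hk)
    intro k hk
    have h4 : QuotientGroup.mk' K' k ∈ K.map (QuotientGroup.mk' K') := ⟨k, hk, rfl⟩
    rw [h3, Subgroup.mem_bot] at h4
    exact (QuotientGroup.eq_one_iff k).1 h4
  intro K hK K' hK' hFF
  exact le_antisymm (hle K hK K' hK' hFF) (hle K' hK' K hK hFF.symm)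

end Pool.Agent.Helper687_Borel
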