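import Pool.Agent.Helper687_Borel.Chars

/-!
# Groups of deficiency at least two

If `S` has a presentation with `n` generators and at most `n - 2` relators, then every finite index subgroup
`H` of `S` has nonzero first cohomology with coefficients in every character `exp χ` (`coh_def`).
-/

set_option autoImplicit false

namespace Pool.Agent.Helper687_Borel

section

variable {S : Type} [Group S] {H : Subgroup S} (χ : H →* Multiplicative ℝ)

/-- the module coinduced from the character `exp χ` of `H` -/
noncomputable def Vm : Submodule ℝ (S → ℝ) where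
  carrier := {f | ∀ (h : H) (s : S), f (h * s) = Real.exp (χ h).toAdd * f s}
  add_mem' := fun {f g} hf hg h s => by
    rw [Pi.add_apply, Pi.add_apply, hf, hg, mul_add]
  zero_mem' := fun h s => by simp
  smul_mem' := fun c f hf h s => by
    rw [Pi.smul_apply, Pi.smul_apply, hf, smul_eq_mul, smul_eq_mul]
    ring

/-- the action of the group -/
noncomputable def Va (s : S) : Vm χ →ₗ[ℝ] Vm χ where
  toFun f := ⟨fun x => f.1 (x * s), fun h x => by
    show f.1 ((h : S) * x * s) = _
    rw [mul_assoc]
    exact f.2 h (x * s)⟩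
  map_add' f g := rfl
  map_smul' c f := rfl

theorem Va_apply (s : S) (f : Vm χ) (x : S) : (Va χ s f).1 x = f.1 (x * s) := rfl

theorem Va_mul (s t : S) (f : Vm χ) : Va χ (s * t) f = Va χ s (Va χ t f) := by
  apply Subtype.ext
  funext x
  rw [Va_apply, Va_apply, Va_apply, mul_assoc]

theorem Va_one (f : Vm χ) : Va χ 1 f = f := by
  apply Subtype.ext
  funext x
  rw [Va_apply, mul_one]

/-- the action as automorphisms -/
noncomputable def Vφ : S →* MulAut (Multiplicative (Vm χ)) where
  toFun s :=
    { toFun := fun f => Multiplicative.ofAdd (Va χ s f.toAdd)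
      invFun := fun f => Multiplicative.ofAdd (Va χ s⁻¹ f.toAdd)
      left_inv := fun f => by
        show Multiplicative.ofAdd (Va χ s⁻¹ (Va χ s f.toAdd)) = f
        rw [← Va_mul, inv_mul_cancel, Va_one]
        rfl
      right_inv := fun f => by
        show Multiplicative.ofAdd (Va χ s (Va χ s⁻¹ f.toAdd)) = f
        rw [← Va_mul, mul_inv_cancel, Va_one]
        rfl
      map_mul' := fun f g => by
        show Multiplicative.ofAdd (Va χ s (f.toAdd + g.toAdd)) =
          Multiplicative.ofAdd (Va χ s f.toAdd + Va χ s g.toAdd)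
        rw [map_add] }
  map_one' := by
    ext f : 1
    show Multiplicative.ofAdd (Va χ 1 f.toAdd) = f
    rw [Va_one]
    rfl
  map_mul' s t := by
    ext f : 1
    show Multiplicative.ofAdd (Va χ (s * t) f.toAdd) = Multiplicative.ofAdd (Va χ s (Va χ t f.toAdd))
    rw [Va_mul]

theorem Vm_finite [hH : H.FiniteIndex] : Module.Finite ℝ (Vm χ) := by
  classical
  have h1 : Finite (Quotient (QuotientGroup.rightRel H)) := by
    rw [(QuotientGroup.quotientRightRelEquivQuotientLeftRel H).finite_iff]
    infer_instance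
  have h2 := Fintype.ofFinite (Quotient (QuotientGroup.rightRel H))
  let T : Vm χ →ₗ[ℝ] (Quotient (QuotientGroup.rightRel H) → ℝ) :=
    { toFun := fun f q => f.1 q.out
      map_add' := fun f g => rfl
      map_smul' := fun c f => rfl }
  refine Module.Finite.of_injective T ?_
  intro f g hfg
  apply Subtype.ext
  funext s
  have h3 : (Quotient.mk (QuotientGroup.rightRel H) s).out * s⁻¹ ∈ H := by
    have := Quotient.mk_out (s := QuotientGroup.rightRel H) s
    have h4 := QuotientGroup.rightRel_apply.1 this
    have h5 := inv_mem h4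
    rwa [mul_inv_rev, inv_inv] at h5
  have h4 : s = ((⟨_, h3⟩ : H)⁻¹ : H) * (Quotient.mk (QuotientGroup.rightRel H) s).out := by
    show s = ((Quotient.mk (QuotientGroup.rightRel H) s).out * s⁻¹)⁻¹ * _
    group
  have h5 := congrFun hfg (Quotient.mk (QuotientGroup.rightRel H) s)
  have h6 : f.1 (Quotient.mk (QuotientGroup.rightRel H) s).out =
    g.1 (Quotient.mk (QuotientGroup.rightRel H) s).out := h5
  rw [h4, f.2, g.2, h6]

theorem Vm_nontrivial : Nontrivial (Vm χ) := by
  classical
  let f : S → ℝ := fun s => if h : s ∈ H then Real.exp (χ ⟨s, h⟩).toAdd else 0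
  have hf : f ∈ Vm χ := by
    intro h s
    by_cases hs : s ∈ H
    · have h1 : (h : S) * s ∈ H := H.mul_mem h.2 hs
      show (if h' : (h : S) * s ∈ H then Real.exp (χ ⟨(h : S) * s, h'⟩).toAdd else 0) =
        Real.exp (χ h).toAdd * (if h' : s ∈ H then Real.exp (χ ⟨s, h'⟩).toAdd else 0)
      rw [dif_pos h1, dif_pos hs, ← Real.exp_add, ← toAdd_mul, ← map_mul]
      rfl
    · have h1 : (h : S) * s ∉ H := fun h2 => hs (by
        have := H.mul_mem (H.inv_mem h.2) h2
        rwa [inv_mul_cancel_left] at this)
      show (if h' : (h : S) * s ∈ H then Real.exp (χ ⟨(h : S) * s, h'⟩).toAdd else 0) =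
        Real.exp (χ h).toAdd * (if h' : s ∈ H then Real.exp (χ ⟨s, h'⟩).toAdd else 0)
      rw [dif_neg h1, dif_neg hs, mul_zero]
  refine ⟨⟨⟨f, hf⟩, 0, fun h => ?_⟩⟩
  have h1 : f 1 = 0 := congrFun (congrArg Subtype.val h) 1
  have h2 : f 1 = Real.exp (χ ⟨1, H.one_mem⟩).toAdd := dif_pos H.one_mem
  rw [h2] at h1
  exact Real.exp_ne_zero _ h1

/-- principal derivations: if all derivations of `H` are principal, so are those of `S` with values in
the coinduced module -/
theorem prin_coind (hprin : ¬ NonPrin χ) (c : S → Vm χ) (hc : ∀ x y, c (x * y) = c x + Va χ x (c y)) :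
    ∃ v : Vm χ, ∀ s, c s = Va χ s v - v := by
  obtain ⟨lam, hlam⟩ : ∃ lam : ℝ, ∀ h : H, (c h).1 1 = lam * (Real.exp (χ h).toAdd - 1) := by
    by_contra hcon
    refine hprin ⟨fun h => (c h).1 1, fun x y => ?_, hcon⟩
    show (c (x * y)).1 1 = _
    rw [hc]
    show (c x).1 1 + (c y).1 (1 * x) = _
    rw [one_mul]
    have := (c y).2 x 1
    rw [mul_one] at this
    rw [this]
  -- `v x = (c x) 1 + lam ...`
  classical
  have h0 : ∀ (h : H) (x : S), (c (h * x)).1 1 + lam = Real.exp (χ h).toAdd * ((c x).1 1 + lam) := by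
    intro h x
    rw [hc]
    show (c h).1 1 + (c x).1 (1 * h) + lam = _
    have h1 := (c x).2 h 1
    rw [mul_one] at h1
    rw [hlam, one_mul, h1]
    ring
  refine ⟨⟨fun x => (c x).1 1 + lam, h0⟩, fun s => ?_⟩
  apply Subtype.ext
  funext x
  show (c s).1 x = ((c (x * s)).1 1 + lam) - ((c x).1 1 + lam)
  rw [hc]
  show _ = ((c x).1 1 + (c s).1 (1 * x) + lam) - ((c x).1 1 + lam)
  rw [one_mul]
  ring

end

/-- **deficiency at least two** -/
theorem coh_def {S : Type} [Group S] {ι κ : Type} [Fintype ι] [Fintype κ]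
    (hnm : Fintype.card κ + 2 ≤ Fintype.card ι) (π : FreeGroup ι →* S)
    (hπ : Function.Surjective π) (r : κ → FreeGroup ι)
    (hr : π.ker = Subgroup.normalClosure (Set.range r)) (H : Subgroup S) (hH : H.FiniteIndex)
    (χ : H →* Multiplicative ℝ) : NonPrin χ := by
  classical
  by_contra hprin
  have hfin : Module.Finite ℝ (Vm χ) := Vm_finite χ
  have hnt : Nontrivial (Vm χ) := Vm_nontrivial χ
  -- derivations of the free group
  let Φ : (ι → Vm χ) → (FreeGroup ι →* Multiplicative (Vm χ) ⋊[Vφ χ] S) := fun w =>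
    FreeGroup.lift fun i => ⟨Multiplicative.ofAdd (w i), π (FreeGroup.of i)⟩
  have hΦr : ∀ w x, (Φ w x).right = π x := by
    intro w x
    have : (SemidirectProduct.rightHom.comp (Φ w)) = π := by
      ext i
      show (Φ w (FreeGroup.of i)).right = π (FreeGroup.of i)
      simp only [Φ, FreeGroup.lift_apply_of]
    exact DFunLike.congr_fun this x
  obtain ⟨c, hc⟩ : ∃ c : (ι → Vm χ) → FreeGroup ι → Vm χ,
    ∀ w x, c w x = (Φ w x).left.toAdd := ⟨_, fun _ _ => rfl⟩
  have hc1 : ∀ w i, c w (FreeGroup.of i) = w i := by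
    intro w i
    rw [hc]
    simp only [Φ, FreeGroup.lift_apply_of]
    rfl
  have hc2 : ∀ w x y, c w (x * y) = c w x + Va χ (π x) (c w y) := by
    intro w x y
    rw [hc, hc, hc, map_mul, SemidirectProduct.mul_left, hΦr]
    rfl
  have hc3 : ∀ w, c w 1 = 0 := by
    intro w
    have := hc2 w 1 1
    rw [mul_one, map_one, Va_one] at this
    exact left_eq_add.1 this
  have hc4 : ∀ w x, c w x⁻¹ = - Va χ (π x)⁻¹ (c w x) := by
    intro w x
    have := hc2 w x⁻¹ x
    rw [inv_mul_cancel, hc3, map_inv] at this
    exact eq_neg_of_add_eq_zero_left this.symm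
  have hlin1 : ∀ w w' x, c (w + w') x = c w x + c w' x := by
    intro w w' x
    induction x using FreeGroup.induction_on with
    | C1 => rw [hc3, hc3, hc3, add_zero]
    | of i => rw [hc1, hc1, hc1, Pi.add_apply]
    | inv_of i ih => rw [hc4, hc4, hc4, ih, map_add, neg_add]
    | mul x y hx hy => rw [hc2, hc2, hc2, hx, hy, map_add]; abel
  have hlin2 : ∀ (a : ℝ) w x, c (a • w) x = a • c w x := by
    intro a w x
    induction x using FreeGroup.induction_on with
    | C1 => rw [hc3, hc3, smul_zero]
    | of i => rw [hc1, hc1, Pi.smul_apply]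
    | inv_of i ih => rw [hc4, hc4, ih, map_smul, smul_neg]
    | mul x y hx hy => rw [hc2, hc2, hx, hy, map_smul, smul_add]
  let T : (ι → Vm χ) →ₗ[ℝ] (κ → Vm χ) :=
    { toFun := fun w k => c w (r k)
      map_add' := fun w w' => funext fun k => hlin1 w w' (r k)
      map_smul' := fun a w => funext fun k => hlin2 a w (r k) }
  -- the principal derivations
  let P : Vm χ →ₗ[ℝ] (ι → Vm χ) :=
    { toFun := fun v i => Va χ (π (FreeGroup.of i)) v - v
      map_add' := fun v v' => by
        funext i
        show Va χ _ (v + v') - (v + v') = (Va χ _ v - v) + (Va χ _ v' - v')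
        rw [map_add]; abel
      map_smul' := fun a v => by
        funext i
        show Va χ _ (a • v) - a • v = a • (Va χ _ v - v)
        rw [map_smul, smul_sub] }
  have hker : LinearMap.ker T ≤ LinearMap.range P := by
    intro w hw
    have hw' : ∀ k, c w (r k) = 0 := fun k => congrFun hw k
    -- `c w` vanishes on the kernel of `π`
    have hvan : ∀ y, π y = 1 → c w y = 0 := by
      let M : Subgroup (FreeGroup ι) :=
        { carrier := {y | π y = 1 ∧ c w y = 0}
          mul_mem' := by
            rintro x y ⟨h1, h2⟩ ⟨h3, h4⟩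
            refine ⟨by rw [map_mul, h1, h3, mul_one], ?_⟩
            rw [hc2, h2, h4, map_zero, add_zero]
          one_mem' := ⟨map_one _, hc3 w⟩
          inv_mem' := by
            rintro x ⟨h1, h2⟩
            refine ⟨by rw [map_inv, h1, inv_one], ?_⟩
            rw [hc4, h2, map_zero, neg_zero] }
      have hM : M.Normal := by
        refine ⟨?_⟩
        rintro y ⟨h1, h2⟩ x
        refine ⟨by rw [map_mul, map_mul, h1, mul_one, ← map_mul, mul_inv_cancel, map_one], ?_⟩
        rw [hc2, hc2, h2, map_zero, add_zero, map_mul, h1, mul_one]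
        have h3 := hc2 w x x⁻¹
        rw [mul_inv_cancel, hc3] at h3
        exact h3.symm
      have h5 : π.ker ≤ M := by
        rw [hr]
        refine Subgroup.normalClosure_le_normal ?_
        rintro _ ⟨k, rfl⟩
        refine ⟨?_, hw' k⟩
        have : r k ∈ π.ker := by rw [hr]; exact Subgroup.subset_normalClosure ⟨k, rfl⟩
        exact this
      intro y hy
      exact (h5 hy).2
    choose l hl using hπ
    have hcl : ∀ x y, π x = π y → c w x = c w y := by
      intro x y hxy
      have h1 : π (y⁻¹ * x) = 1 := by rw [map_mul, map_inv, hxy, inv_mul_cancel]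
      have h2 := hc2 w y (y⁻¹ * x)
      rw [mul_inv_cancel_left, hvan _ h1, map_zero, add_zero] at h2
      exact h2
    obtain ⟨v, hv⟩ := prin_coind χ hprin (fun s => c w (l s)) (fun x y => by
      have h1 : c w (l (x * y)) = c w (l x * l y) := hcl _ _ (by rw [hl, map_mul, hl, hl])
      rw [h1, hc2, hl])
    refine ⟨v, ?_⟩
    funext i
    show Va χ (π (FreeGroup.of i)) v - v = w i
    rw [← hv, ← hc1 w i]
    exact hcl _ _ (hl _)
  have h1 := LinearMap.finrank_range_add_finrank_ker T
  have h2 : Module.finrank ℝ (LinearMap.range T) ≤ Fintype.card κ * Module.finrank ℝ (Vm χ) := by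
    refine (Submodule.finrank_le _).trans ?_
    rw [Module.finrank_pi_fintype]
    simp
  have h3 : Module.finrank ℝ (ι → Vm χ) = Fintype.card ι * Module.finrank ℝ (Vm χ) := by
    rw [Module.finrank_pi_fintype]
    simp
  have h4 : Module.finrank ℝ (LinearMap.ker T) ≤ Module.finrank ℝ (Vm χ) :=
    (Submodule.finrank_mono hker).trans (LinearMap.finrank_range_le P)
  have h5 : 0 < Module.finrank ℝ (Vm χ) := Module.finrank_pos
  have h6 : (Fintype.card κ + 2) * Module.finrank ℝ (Vm χ) ≤
      Fintype.card ι * Module.finrank ℝ (Vm χ) :=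
    Nat.mul_le_mul_right _ hnm
  rw [h3] at h1
  nlinarith

end Pool.Agent.Helper687_Borel
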