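import Pool.Agent.Helper687_Borel.Aut

/-!
# Classes of groups closed under subgroups, direct products and finite overgroups

Extensions of iterated extensions of groups with trivial centers.
-/

set_option autoImplicit false

namespace Pool.Agent.Helper687_Borel

variable {D : ∀ (G : Type) [Group G], Prop}

/-- classes of groups which contain the trivial groups and are closed under subgroups, direct products and
overgroups of finite index -/
structure DCl (D : ∀ (G : Type) [Group G], Prop) : Prop where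
  triv : ∀ (G : Type) [Group G], Subsingleton G → D G
  of_injective : ∀ (G H : Type) [Group G] [Group H] (f : G →* H), Function.Injective f → D H → D G
  prod : ∀ (G H : Type) [Group G] [Group H], D G → D H → D (G × H)
  finiteIndex : ∀ (G : Type) [Group G] (K : Subgroup G), K.FiniteIndex → D K → D G

/-- all subgroups of finite index have trivial center -/
def VC (N : Type) [Group N] : Prop := ∀ M : Subgroup N, M.FiniteIndex → Subgroup.center M = ⊥

theorem DCl.equiv (hD : DCl D) {G H : Type} [Group G] [Group H] (e : G ≃* H) (h : D G) : D H :=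
  hD.of_injective H G e.symm.toMonoidHom e.symm.injective h

theorem DCl.finite (hD : DCl D) (G : Type) [Group G] [Finite G] : D G :=
  hD.finiteIndex G ⊥ inferInstance (hD.triv _ inferInstance)

theorem VC.center {N : Type} [Group N] (h : VC N) : Subgroup.center N = ⊥ := by
  rw [Subgroup.eq_bot_iff_forall]
  intro z hz
  have h1 : (⟨z, trivial⟩ : (⊤ : Subgroup N)) ∈ Subgroup.center (⊤ : Subgroup N) := by
    rw [Subgroup.mem_center_iff]
    intro x
    exact Subtype.ext (Subgroup.mem_center_iff.1 hz x)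
  rw [h ⊤ inferInstance, Subgroup.mem_bot] at h1
  exact congrArg Subtype.val h1

/-- an element of a subgroup of finite index which commutes with its elements is trivial -/
theorem VC.eq_one {N : Type} [Group N] (h : VC N) (M : Subgroup N) [hM : M.FiniteIndex] {z : N}
    (hz : z ∈ M) (hc : ∀ x ∈ M, x * z = z * x) : z = 1 := by
  have h1 : (⟨z, hz⟩ : M) ∈ Subgroup.center M := by
    rw [Subgroup.mem_center_iff]
    intro x
    exact Subtype.ext (hc x x.2)
  rw [h M hM, Subgroup.mem_bot] at h1
  exact congrArg Subtype.val h1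

theorem vc_of {N : Type} [Group N] (h : ∀ M : Subgroup N, M.FiniteIndex → ∀ z ∈ M,
    (∀ x ∈ M, x * z = z * x) → z = 1) : VC N := by
  intro M hM
  rw [Subgroup.eq_bot_iff_forall]
  intro z hz
  refine Subtype.ext (h M hM z z.2 fun x hx => ?_)
  exact congrArg Subtype.val (Subgroup.mem_center_iff.1 hz ⟨x, hx⟩)

theorem Spread.vc {S : Type} [Group S] (hS : Spread S) : VC S := by
  refine vc_of fun M hM z hz hcz => ?_
  by_contra hz1
  obtain ⟨H, hH, k, hk, ψ, hψ⟩ := hS.sep z hz1
  obtain ⟨ψ', hψ'⟩ : ∃ ψ' : ↥(H ⊓ M) →* Multiplicative ℝ,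
    ψ' = ψ.comp (Subgroup.inclusion inf_le_left) := ⟨_, rfl⟩
  have hk' : z ^ k ∈ H ⊓ M := ⟨hk, M.pow_mem hz k⟩
  have h0 : ψ' ⟨z ^ k, hk'⟩ ≠ 1 := by
    rw [hψ']
    exact hψ
  obtain ⟨d, hd, hnp⟩ := hS.coh (H ⊓ M) inferInstance ψ'
  have hc : ∀ x : ↥(H ⊓ M), (⟨z ^ k, hk'⟩ : ↥(H ⊓ M)) * x = x * ⟨z ^ k, hk'⟩ := fun x =>
    Subtype.ext (by
      have : Commute (x : S) z := hcz x x.2.2
      exact (this.pow_right k).symm)
  have hne : Real.exp (ψ' ⟨z ^ k, hk'⟩).toAdd - 1 ≠ 0 := by
    intro h
    exact h0 (exp_eq_one (by linarith))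
  refine hnp ⟨d ⟨z ^ k, hk'⟩ / (Real.exp (ψ' ⟨z ^ k, hk'⟩).toAdd - 1), fun x => ?_⟩
  have h1 := hd ⟨z ^ k, hk'⟩ x
  have h2 := hd x ⟨z ^ k, hk'⟩
  rw [hc x, h2] at h1
  rw [div_mul_eq_mul_div, eq_div_iff hne]
  linarith

theorem vc_ext {N : Type} [Group N] (K : Subgroup N) [hKn : K.Normal] (hK : VC K) (hQ : VC (N ⧸ K)) :
    VC N := by
  refine vc_of fun M hM z hz hcz => ?_
  have h1 : (M.map (QuotientGroup.mk' K)).FiniteIndex :=
    ⟨fun h => hM.index_ne_zero (Nat.eq_zero_of_zero_dvd (h ▸
      M.index_map_dvd (QuotientGroup.mk'_surjective K)))⟩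
  have h2 : QuotientGroup.mk' K z = 1 := by
    refine hQ.eq_one (M.map (QuotientGroup.mk' K)) ⟨z, hz, rfl⟩ ?_
    rintro _ ⟨x, hx, rfl⟩
    rw [← map_mul, hcz x hx, map_mul]
  have h3 : z ∈ K := (QuotientGroup.eq_one_iff z).1 h2
  have h4 : (M.subgroupOf K).FiniteIndex := inferInstance
  have h5 := hK.eq_one (M.subgroupOf K) (z := ⟨z, h3⟩) hz (fun x hx => Subtype.ext (hcz x hx))
  exact congrArg Subtype.val h5

/-- torsion-free finite overgroups -/
theorem vc_fin {N : Type} [Group N] (K : Subgroup N) [hKf : K.FiniteIndex] (hK : VC K)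
    (ht : ∀ (g : N) (n : ℕ), 0 < n → g ^ n = 1 → g = 1) : VC N := by
  refine vc_of fun M hM z hz hcz => ?_
  obtain ⟨m, hm, -, hmK⟩ := Subgroup.exists_pow_mem_of_index_ne_zero hKf.index_ne_zero z
  refine ht z m hm ?_
  have h4 : (M.subgroupOf K).FiniteIndex := inferInstance
  have h5 := hK.eq_one (M.subgroupOf K) (z := ⟨z ^ m, hmK⟩) (M.pow_mem hz m) (fun x hx =>
    Subtype.ext (by
      have : Commute (x : N) z := hcz x hx
      exact this.pow_right m))
  exact congrArg Subtype.val h5

theorem autD_ext (hD : DCl D) {N : Type} [Group N] (L M : Subgroup N) [hMn : M.Normal] (hML : M ≤ L)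
    (hL : (stab L).FiniteIndex) (hM : (stab M).FiniteIndex) (hZ : Subgroup.center M = ⊥)
    (h1 : D (MulAut L)) (h2 : D (MulAut (N ⧸ M))) : D (MulAut N) := by
  refine hD.finiteIndex _ (stab L ⊓ stab M) inferInstance ?_
  exact hD.of_injective _ _ (rq L M) (rq_injective hML hZ) (hD.prod _ _ h1 h2)

/-- iterated extensions of groups all of whose subgroups of finite index have trivial center -/
inductive ATD (D : ∀ (G : Type) [Group G], Prop) : ∀ (N : Type) [Group N], Prop
  | base (N : Type) [Group N] : Group.FG N → VC N → D (MulAut N) → ATD D N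
  | step (N : Type) [Group N] (K : Subgroup N) [K.Normal] : ATD D K → Spread (N ⧸ K) →
      D (MulAut (N ⧸ K)) → ATD D N
  | fin (N : Type) [Group N] (K : Subgroup N) [K.FiniteIndex] : ATD D K →
      (∀ (g : N) (n : ℕ), 0 < n → g ^ n = 1 → g = 1) → ATD D N

theorem atd_aut (hD : DCl D) {N : Type} [Group N] (h : ATD D N) :
    Group.FG N ∧ VC N ∧ D (MulAut N) := by
  induction h with
  | base N h1 h2 h3 => exact ⟨h1, h2, h3⟩
  | step N K _ h2 h3 ih =>
    obtain ⟨i1, i2, i3⟩ := ih
    have h4 : Group.FG N := fg_ext K i1 h2.fg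
    have h5 := (Group.fg_iff_subgroup_fg K).1 i1
    exact ⟨h4, vc_ext K i2 h2.vc, autD_ext hD K K le_rfl (stab_spread N K h5 h2)
      (stab_spread N K h5 h2) i2.center i3 h3⟩
  | fin N K _ ht ih =>
    obtain ⟨i1, i2, i3⟩ := ih
    have h4 : Group.FG N := fg_fin K i1
    have h5 := vc_fin K i2 ht
    have h6 : Finite (MulAut (N ⧸ K.normalCore)) :=
      Finite.of_injective (fun (σ : MulAut (N ⧸ K.normalCore)) =>
        (σ : N ⧸ K.normalCore → N ⧸ K.normalCore)) DFunLike.coe_injective
    exact ⟨h4, h5, autD_ext hD K K.normalCore K.normalCore_le (stab_index N K) (stab_index N _)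
      (h5 _ inferInstance) i3 (hD.finite _)⟩

theorem conjNormal_ker {G : Type} [Group G] (N : Subgroup G) [hNn : N.Normal] :
    (MulAut.conjNormal : G →* MulAut N).ker = Subgroup.centralizer (N : Set G) := by
  ext g
  rw [MonoidHom.mem_ker, Subgroup.mem_centralizer_iff]
  constructor
  · intro hg x hx
    have h2 : ((MulAut.conjNormal g : MulAut N) ⟨x, hx⟩ : G) = x := by rw [hg]; rfl
    rw [MulAut.conjNormal_apply] at h2
    have h3 : g * x = x * g := by
      calc g * x = g * x * g⁻¹ * g := by group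
        _ = x * g := by rw [h2]
    exact h3.symm
  · intro hg
    ext x
    rw [MulAut.conjNormal_apply]
    show g * x * g⁻¹ = x
    rw [← hg x x.2, mul_inv_cancel_right]

/-- a group with a normal subgroup with trivial center embeds into the direct product of its automorphism
group and the quotient -/
theorem embed {G : Type} [Group G] (N : Subgroup G) [hNn : N.Normal]
    (hZ : Subgroup.center N = ⊥) :
    Function.Injective ((MulAut.conjNormal : G →* MulAut N).prod (QuotientGroup.mk' N)) := by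
  rw [injective_iff_map_eq_one]
  intro g hg
  have h1 : (MulAut.conjNormal : G →* MulAut N) g = 1 := congrArg Prod.fst hg
  have h2 : QuotientGroup.mk' N g = 1 := congrArg Prod.snd hg
  have h3 : g ∈ N := (QuotientGroup.eq_one_iff g).1 h2
  have h4 : g ∈ Subgroup.centralizer (N : Set G) := by
    rw [← conjNormal_ker]; exact h1
  have h5 : (⟨g, h3⟩ : N) ∈ Subgroup.center N := by
    rw [Subgroup.mem_center_iff]
    intro x
    exact Subtype.ext (Subgroup.mem_centralizer_iff.1 h4 x x.2)
  rw [hZ, Subgroup.mem_bot] at h5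
  exact congrArg Subtype.val h5

theorem d_ext (hD : DCl D) {G : Type} [Group G] (N : Subgroup G) [hNn : N.Normal]
    (hZ : Subgroup.center N = ⊥) (h : D (MulAut N)) (hQ : D (G ⧸ N)) : D G :=
  hD.of_injective _ _ _ (embed N hZ) (hD.prod _ _ h hQ)

theorem d_quot (hD : DCl D) {G : Type} [Group G] (N : Subgroup G) [hNn : N.Normal]
    (h : D (MulAut N)) : D (G ⧸ Subgroup.centralizer (N : Set G)) := by
  have h3 := hD.of_injective _ _ (QuotientGroup.kerLift (MulAut.conjNormal : G →* MulAut N))
    (QuotientGroup.kerLift_injective _) h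
  exact hD.equiv (QuotientGroup.quotientMulEquivOfEq (conjNormal_ker N)) h3

end Pool.Agent.Helper687_Borel
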