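import Pool.Agent.Helper687_Borel.Chars
import Pool.Agent.R684.FP.Free

/-!
# Mapping tori of extensions with spread quotients

`MT C N`: all mapping tori `N ⋊ ℤ` of the group `N` are in the class `C`. If `K` is a finitely generated
normal subgroup of `N` with a spread quotient, and if `MT C K` and `MT C (N ⧸ K)`, then `MT C N`.
-/

set_option autoImplicit false

namespace Pool.Agent.Helper687_Borel

open Pool.Agent.Y110.FJ
open Pool.Agent.R684.FP (cyc_real)
open Pool.Agent.R941.FJ (C_equiv C_le C_cyc mem_sup_normal)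

variable {C : ∀ (G : Type) [Group G], Prop}

/-- all mapping tori of `N` are in `C` -/
def MT (C : ∀ (G : Type) [Group G], Prop) (N : Type) [Group N] : Prop :=
  ∀ α : MulAut N, C (N ⋊[zpowersHom (MulAut N) α] Multiplicative ℤ)

/-- the internal form -/
def MTi (C : ∀ (G : Type) [Group G], Prop) (N : Type) [Group N] : Prop :=
  ∀ (G : Type) [Group G] (f : N →* G), Function.Injective f → ∀ g : G,
    (∀ x, x ∈ f.range ↔ g * x * g⁻¹ ∈ f.range) → C ↥(f.range ⊔ Subgroup.zpowers g)

/-- conjugation by an element of the normalizer -/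
def conjN {G : Type} [Group G] (K : Subgroup G) (g : G) (hg : ∀ x, x ∈ K ↔ g * x * g⁻¹ ∈ K) :
    K ≃* K where
  toFun := fun x => ⟨g * x * g⁻¹, (hg x).1 x.2⟩
  invFun := fun x => ⟨g⁻¹ * x * g, by
    rw [hg]
    have : g * (g⁻¹ * x * g) * g⁻¹ = x := by group
    rw [this]
    exact x.2⟩
  left_inv := fun x => Subtype.ext (by show g⁻¹ * (g * x * g⁻¹) * g = x; group)
  right_inv := fun x => Subtype.ext (by show g * (g⁻¹ * x * g) * g⁻¹ = x; group)
  map_mul' := fun x y => Subtype.ext (by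
    show g * (x * y) * g⁻¹ = g * x * g⁻¹ * (g * y * g⁻¹)
    group)

theorem mti_of_mt (hC : ClosedE C) {N : Type} [Group N] (hN : MT C N) : MTi C N := by
  intro G _ f hf g hg
  obtain ⟨e, he⟩ : ∃ e : N ≃* f.range, e = MonoidHom.ofInjective hf := ⟨_, rfl⟩
  obtain ⟨c, hc⟩ : ∃ c : f.range ≃* f.range, c = conjN f.range g hg := ⟨_, rfl⟩
  obtain ⟨α, hα⟩ : ∃ α : MulAut N, α = (e.trans c).trans e.symm := ⟨_, rfl⟩
  refine cyc_real hC f.range g hg
    ((SemidirectProduct.inl (φ := zpowersHom (MulAut N) α)).comp e.symm.toMonoidHom) ?_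
    (SemidirectProduct.inr (Multiplicative.ofAdd 1)) ?_ (hN α)
  · exact SemidirectProduct.inl_injective.comp e.symm.injective
  · intro x y hxy
    have h1 : y = c x := by
      rw [hc]
      exact Subtype.ext hxy
    show SemidirectProduct.inl (e.symm y) = SemidirectProduct.inr (Multiplicative.ofAdd 1) *
      SemidirectProduct.inl (e.symm x) * (SemidirectProduct.inr (Multiplicative.ofAdd 1))⁻¹
    rw [← map_inv, ← SemidirectProduct.inl_aut]
    congr 1
    rw [zpowersHom_apply, toAdd_ofAdd, zpow_one, hα, h1]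
    show e.symm (c x) = e.symm (c (e (e.symm x)))
    rw [e.apply_symm_apply]

theorem mem_semi {N : Type} [Group N] (α : MulAut N) (m : ℤ)
    (x : N ⋊[zpowersHom (MulAut N) α] Multiplicative ℤ) (hx : ∃ j : ℤ, x.right.toAdd = m * j) :
    x ∈ (SemidirectProduct.inl (φ := zpowersHom (MulAut N) α)).range ⊔
      Subgroup.zpowers (SemidirectProduct.inr (Multiplicative.ofAdd m)) := by
  obtain ⟨j, hj⟩ := hx
  rw [← SemidirectProduct.inl_left_mul_inr_right x]
  refine mul_mem (Subgroup.mem_sup_left ⟨x.left, rfl⟩) (Subgroup.mem_sup_right ⟨j, ?_⟩)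
  show (SemidirectProduct.inr (Multiplicative.ofAdd m)) ^ j = _
  rw [← map_zpow]
  congr 1
  apply Multiplicative.toAdd.injective
  rw [toAdd_zpow, toAdd_ofAdd, hj, smul_eq_mul, mul_comm]

theorem inl_range_conj {N : Type} [Group N] (α : MulAut N)
    (g x : N ⋊[zpowersHom (MulAut N) α] Multiplicative ℤ) :
    x ∈ (SemidirectProduct.inl (φ := zpowersHom (MulAut N) α)).range ↔
      g * x * g⁻¹ ∈ (SemidirectProduct.inl (φ := zpowersHom (MulAut N) α)).range := by
  rw [SemidirectProduct.range_inl_eq_ker_rightHom]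
  constructor
  · intro h
    exact (inferInstance : (SemidirectProduct.rightHom
      (φ := zpowersHom (MulAut N) α)).ker.Normal).conj_mem x h g
  · intro h
    have h2 := (inferInstance : (SemidirectProduct.rightHom
      (φ := zpowersHom (MulAut N) α)).ker.Normal).conj_mem _ h g⁻¹
    have h3 : g⁻¹ * (g * x * g⁻¹) * g⁻¹⁻¹ = x := by group
    rwa [h3] at h2

theorem mt_of_mti (hC : ClosedE C) {N : Type} [Group N] (hN : MTi C N) : MT C N := by
  intro α
  have h1 := hN _ (SemidirectProduct.inl (φ := zpowersHom (MulAut N) α))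
    SemidirectProduct.inl_injective (SemidirectProduct.inr (Multiplicative.ofAdd 1))
    (inl_range_conj α _)
  have h2 : (SemidirectProduct.inl (φ := zpowersHom (MulAut N) α)).range ⊔
      Subgroup.zpowers (SemidirectProduct.inr (Multiplicative.ofAdd 1)) = ⊤ := by
    rw [eq_top_iff]
    intro x _
    exact mem_semi α 1 x ⟨x.right.toAdd, by rw [one_mul]⟩
  rw [h2] at h1
  exact C_equiv hC.base Subgroup.topEquiv.symm h1

theorem mti_equiv {N N' : Type} [Group N] [Group N'] (e : N ≃* N') (h : MTi C N) : MTi C N' := by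
  intro G _ f hf g hg
  have h1 : (f.comp e.toMonoidHom).range = f.range := by
    rw [MonoidHom.range_comp]
    have : e.toMonoidHom.range = ⊤ := MonoidHom.range_eq_top.2 e.surjective
    rw [this, ← MonoidHom.range_eq_map]
  have h2 := h G (f.comp e.toMonoidHom) (hf.comp e.injective) g (by rw [h1]; exact hg)
  rw [h1] at h2
  exact h2

theorem mt_equiv (hC : ClosedE C) {N N' : Type} [Group N] [Group N'] (e : N ≃* N') (h : MT C N) :
    MT C N' := mt_of_mti hC (mti_equiv e (mti_of_mt hC h))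

theorem mt_sup (hC : ClosedE C) {G : Type} [Group G] (K : Subgroup G) (hK : MT C K) (g : G)
    (hg : ∀ x, x ∈ K ↔ g * x * g⁻¹ ∈ K) : C ↥(K ⊔ Subgroup.zpowers g) := by
  have h := mti_of_mt hC hK G K.subtype K.subtype_injective g (by rw [K.range_subtype]; exact hg)
  rw [K.range_subtype] at h
  exact h

theorem mt_self (hC : ClosedE C) {N : Type} [Group N] (hN : MT C N) : C N :=
  hC.base.of_injective _ _ (SemidirectProduct.inl (φ := zpowersHom (MulAut N) 1))
    SemidirectProduct.inl_injective (hN 1)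

/-- extensions by groups in `C` -/
theorem ext_top (hC : ClosedE C) {G : Type} [Group G] (N : Subgroup G) [hNn : N.Normal]
    (hN : MT C N) (hQ : C (G ⧸ N)) : C G := by
  refine Pool.Agent.Y529.FJ.t_ext C hC G N (mt_self hC hN) hQ fun g _ => mt_sup hC N hN g ?_
  intro x
  constructor
  · intro h
    exact hNn.conj_mem x h g
  · intro h
    have h2 := hNn.conj_mem _ h g⁻¹
    have h3 : g⁻¹ * (g * x * g⁻¹) * g⁻¹⁻¹ = x := by group
    rwa [h3] at h2

/-- a cyclic extension with an invariant series of length two -/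
theorem ext_internal (hC : ClosedE C) {G : Type} [Group G] (N K : Subgroup G) (g : G) (hKN : K ≤ N)
    (hN : ∀ x, x ∈ N ↔ g * x * g⁻¹ ∈ N) (hK : ∀ x, x ∈ K ↔ g * x * g⁻¹ ∈ K)
    [hn : (K.subgroupOf N).Normal] (h1 : MT C K) (h2 : MT C (N ⧸ K.subgroupOf N)) :
    C ↥(N ⊔ Subgroup.zpowers g) := by
  obtain ⟨H, hH⟩ : ∃ H : Subgroup G, H = N ⊔ Subgroup.zpowers g := ⟨_, rfl⟩
  rw [← hH]
  have hNH : N ≤ H := by rw [hH]; exact le_sup_left
  have hgH : g ∈ H := by rw [hH]; exact Subgroup.mem_sup_right (Subgroup.mem_zpowers g)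
  have hnorm : H ≤ Subgroup.normalizer (K : Set G) := by
    rw [hH, sup_le_iff, Subgroup.zpowers_le]
    refine ⟨fun n hn' => ?_, fun x => hK x⟩
    rw [Subgroup.mem_normalizer_iff]
    have h3 : ∀ n ∈ N, ∀ x ∈ K, n * x * n⁻¹ ∈ K := fun n hn' x hx =>
      hn.conj_mem ⟨x, hKN hx⟩ hx ⟨n, hn'⟩
    intro x
    constructor
    · exact h3 n hn' x
    · intro h
      have h4 := h3 n⁻¹ (inv_mem hn') _ h
      have h5 : n⁻¹ * (n * x * n⁻¹) * n⁻¹⁻¹ = x := by group
      rwa [h5] at h4
  have hn2 : (K.subgroupOf H).Normal := by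
    refine ⟨fun x hx h => ?_⟩
    rw [Subgroup.mem_subgroupOf] at hx ⊢
    exact ((Subgroup.mem_normalizer_iff.1 (hnorm h.2)) x).1 hx
  have hKH : MT C (K.subgroupOf H) :=
    mt_equiv hC (Subgroup.subgroupOfEquivOfLe (hKN.trans hNH)).symm h1
  refine ext_top hC (K.subgroupOf H) hKH ?_
  -- the quotient
  have hle : K.subgroupOf N ≤ (K.subgroupOf H).comap (Subgroup.inclusion hNH) := fun x hx => hx
  obtain ⟨f, hf⟩ : ∃ f : N ⧸ K.subgroupOf N →* H ⧸ K.subgroupOf H,
    f = QuotientGroup.map _ _ (Subgroup.inclusion hNH) hle := ⟨_, rfl⟩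
  have hfx : ∀ x : N, f (x : N ⧸ K.subgroupOf N) = (Subgroup.inclusion hNH x : H) := fun x => by
    rw [hf]; rfl
  have hfi : Function.Injective f := by
    rw [injective_iff_map_eq_one]
    intro a ha
    obtain ⟨x, rfl⟩ := QuotientGroup.mk_surjective a
    rw [hfx, QuotientGroup.eq_one_iff] at ha
    exact (QuotientGroup.eq_one_iff _).2 ha
  obtain ⟨q, hq⟩ : ∃ q : H ⧸ K.subgroupOf H, q = ((⟨g, hgH⟩ : H) : H ⧸ K.subgroupOf H) := ⟨_, rfl⟩
  have hrange : ∀ y : H, (y : H ⧸ K.subgroupOf H) ∈ f.range ↔ (y : G) ∈ N := by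
    intro y
    constructor
    · rintro ⟨a, ha⟩
      obtain ⟨x, rfl⟩ := QuotientGroup.mk_surjective a
      rw [hfx, QuotientGroup.eq] at ha
      have h3 : (x : G)⁻¹ * (y : G) ∈ K := ha
      have h4 := N.mul_mem x.2 (hKN h3)
      rwa [mul_inv_cancel_left] at h4
    · intro hy
      exact ⟨((⟨y, hy⟩ : N) : N ⧸ K.subgroupOf N), by rw [hfx]; rfl⟩
  have h3 := mti_of_mt hC h2 _ f hfi q (by
    intro a
    obtain ⟨y, rfl⟩ := QuotientGroup.mk_surjective a
    rw [hrange, hq, ← QuotientGroup.mk_mul, ← QuotientGroup.mk_inv, ← QuotientGroup.mk_mul, hrange]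
    exact hN y)
  have h4 : f.range ⊔ Subgroup.zpowers q = ⊤ := by
    rw [eq_top_iff]
    have h5 : H ≤ ((f.range ⊔ Subgroup.zpowers q).comap (QuotientGroup.mk' (K.subgroupOf H))).map
        H.subtype := by
      refine hH.le.trans (sup_le ?_ ?_)
      · intro x hx
        exact ⟨⟨x, hNH hx⟩, Subgroup.mem_sup_left ((hrange _).2 hx), rfl⟩
      · rw [Subgroup.zpowers_le]
        refine ⟨⟨g, hgH⟩, Subgroup.mem_sup_right ?_, rfl⟩
        rw [hq]
        exact Subgroup.mem_zpowers _
    intro a _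
    obtain ⟨y, rfl⟩ := QuotientGroup.mk_surjective a
    obtain ⟨z, hz, hzy⟩ := h5 y.2
    have : z = y := Subtype.ext hzy
    rw [← this]
    exact hz
  rw [h4] at h3
  exact C_equiv hC.base Subgroup.topEquiv.symm h3

/-! ### transport of spread groups -/

theorem nonPrin_equiv {H H' : Type} [Group H] [Group H'] (e : H ≃* H') (χ : H' →* Multiplicative ℝ)
    (h : NonPrin (χ.comp e.toMonoidHom)) : NonPrin χ := by
  obtain ⟨d, hd, hnp⟩ := h
  refine ⟨fun x => d (e.symm x), fun x y => ?_, ?_⟩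
  · have h1 := hd (e.symm x) (e.symm y)
    rw [← map_mul] at h1
    have h2 : (χ.comp e.toMonoidHom) (e.symm x) = χ x := by
      show χ (e (e.symm x)) = χ x
      rw [e.apply_symm_apply]
    rw [h2] at h1
    exact h1
  · rintro ⟨c, hc⟩
    refine hnp ⟨c, fun x => ?_⟩
    have h1 : d (e.symm (e x)) = _ := hc (e x)
    rw [e.symm_apply_apply] at h1
    exact h1

theorem Spread.equiv {S S' : Type} [Group S] [Group S'] (e : S ≃* S') (hS : Spread S) :
    Spread S' := by
  refine ⟨?_, fun H' hH' χ => ?_, fun s hs => ?_⟩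
  · have := hS.fg
    exact Group.fg_of_surjective (f := e.toMonoidHom) e.surjective
  · have h1 : (H'.comap e.toMonoidHom).FiniteIndex :=
      ⟨by rw [Subgroup.index_comap_of_surjective _ e.surjective]; exact hH'.index_ne_zero⟩
    let ε : H'.comap e.toMonoidHom ≃* H' :=
      { toFun := fun x => ⟨e x, x.2⟩
        invFun := fun y => ⟨e.symm y, by
          show e (e.symm y) ∈ H'
          rw [e.apply_symm_apply]
          exact y.2⟩
        left_inv := fun x => Subtype.ext (e.symm_apply_apply _)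
        right_inv := fun y => Subtype.ext (e.apply_symm_apply _)
        map_mul' := fun x y => Subtype.ext (map_mul e _ _) }
    exact nonPrin_equiv ε χ (hS.coh _ h1 _)
  · have h1 : e.symm s ≠ 1 := fun h => hs (by rw [← e.apply_symm_apply s, h, map_one])
    obtain ⟨H, hH, k, hk, ψ, hψ⟩ := hS.sep _ h1
    have h2 : (H.comap e.symm.toMonoidHom).FiniteIndex :=
      ⟨by rw [Subgroup.index_comap_of_surjective _ e.symm.surjective]; exact hH.index_ne_zero⟩
    have hk' : s ^ k ∈ H.comap e.symm.toMonoidHom := by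
      show e.symm (s ^ k) ∈ H
      rw [map_pow]
      exact hk
    let f : H.comap e.symm.toMonoidHom →* H :=
      { toFun := fun x => ⟨e.symm x, x.2⟩
        map_one' := Subtype.ext (map_one e.symm)
        map_mul' := fun x y => Subtype.ext (map_mul e.symm _ _) }
    refine ⟨H.comap e.symm.toMonoidHom, h2, k, hk', ψ.comp f, ?_⟩
    have h3 : f ⟨s ^ k, hk'⟩ = ⟨e.symm s ^ k, hk⟩ := Subtype.ext (map_pow e.symm _ _)
    show ψ (f ⟨s ^ k, hk'⟩) ≠ 1
    rw [h3]
    exact hψ

/-- a mapping torus of a group with a normal subgroup which is preserved by a power of the automorphism -/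
theorem ext_power (hC : ClosedE C) (N : Type) [Group N] (K : Subgroup N)
    [hKn : K.Normal] (h1 : MT C K) (h2 : MT C (N ⧸ K)) (α : MulAut N) (m : ℕ) (hm : 0 < m)
    (hαm : K.map (α ^ m : MulAut N).toMonoidHom = K) :
    C (N ⋊[zpowersHom (MulAut N) α] Multiplicative ℤ) := by
  obtain ⟨g, hg⟩ : ∃ g : N ⋊[zpowersHom (MulAut N) α] Multiplicative ℤ,
    g = SemidirectProduct.inr (Multiplicative.ofAdd (m : ℤ)) := ⟨_, rfl⟩
  obtain ⟨ι, hι⟩ : ∃ ι : N →* N ⋊[zpowersHom (MulAut N) α] Multiplicative ℤ,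
    ι = SemidirectProduct.inl := ⟨_, rfl⟩
  have hιi : Function.Injective ι := by rw [hι]; exact SemidirectProduct.inl_injective
  have hgι : ∀ n : N, g * ι n * g⁻¹ = ι ((α ^ m) n) := by
    intro n
    rw [hg, hι, ← map_inv, ← SemidirectProduct.inl_aut, zpowersHom_apply, toAdd_ofAdd, zpow_natCast]
  have hfin : (ι.range ⊔ Subgroup.zpowers g).FiniteIndex := by
    have : NeZero m := ⟨hm.ne'⟩
    let ρ : N ⋊[zpowersHom (MulAut N) α] Multiplicative ℤ →* Multiplicative (ZMod m) :=
      (AddMonoidHom.toMultiplicative (Int.castAddHom (ZMod m))).comp SemidirectProduct.rightHom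
    have h3 : ρ.ker.FiniteIndex := inferInstance
    refine Subgroup.finiteIndex_of_le (H := ρ.ker) ?_
    intro x hx
    have h4 : ((x.right.toAdd : ℤ) : ZMod m) = 0 := hx
    rw [ZMod.intCast_zmod_eq_zero_iff_dvd] at h4
    obtain ⟨j, hj⟩ := h4
    rw [hι, hg]
    exact mem_semi α m x ⟨j, hj⟩
  refine hC.base.finiteIndex _ _ hfin ?_
  have hKN : K.map ι ≤ ι.range := by
    rw [MonoidHom.range_eq_map]
    exact Subgroup.map_mono le_top
  have hn : ((K.map ι).subgroupOf ι.range).Normal := by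
    refine ⟨?_⟩
    rintro ⟨_, ⟨x, rfl⟩⟩ hx ⟨_, ⟨y, rfl⟩⟩
    obtain ⟨k, hk, hkx⟩ := hx
    have : k = x := hιi hkx
    subst this
    exact ⟨y * k * y⁻¹, hKn.conj_mem k hk y, by simp⟩
  refine ext_internal hC ι.range (K.map ι) g hKN ?_ ?_ ?_ ?_
  · rw [hι]
    exact inl_range_conj α g
  · intro x
    constructor
    · rintro ⟨k, hk, rfl⟩
      rw [hgι]
      refine ⟨(α ^ m) k, ?_, rfl⟩
      show (α ^ m) k ∈ K
      rw [← hαm]
      exact ⟨k, hk, rfl⟩
    · rintro ⟨k, hk, hkx⟩
      have hk' : k ∈ K.map (α ^ m : MulAut N).toMonoidHom := by rw [hαm]; exact hk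
      obtain ⟨k', hk', rfl⟩ := hk'
      have h3 : g * ι k' * g⁻¹ = g * x * g⁻¹ := by rw [hgι]; exact hkx
      have h4 : ι k' = x := mul_left_cancel (mul_right_cancel h3)
      exact ⟨k', hk', h4⟩
  · exact mt_equiv hC (K.equivMapOfInjective ι hιi) h1
  · obtain ⟨e, he⟩ : ∃ e : N ≃* ι.range, e = MonoidHom.ofInjective hιi := ⟨_, rfl⟩
    have h3 : K.map e.toMonoidHom = (K.map ι).subgroupOf ι.range := by
      ext y
      constructor
      · rintro ⟨k, hk, rfl⟩
        rw [he]
        exact ⟨k, hk, rfl⟩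
      · rintro ⟨k, hk, hky⟩
        refine ⟨k, hk, ?_⟩
        rw [he]
        exact Subtype.ext hky
    exact mt_equiv hC (QuotientGroup.congr K _ e h3) h2

/-- **extensions with spread quotients** -/
theorem ext_mt (hC : ClosedE C) (N : Type) [Group N] [hNfg : Group.FG N] (K : Subgroup N)
    [hKn : K.Normal] (hK : K.FG) (h1 : MT C K) (hS : Spread (N ⧸ K)) (h2 : MT C (N ⧸ K)) :
    MT C N := by
  intro α
  -- a power of `α` preserves `K`
  obtain ⟨m, hm, hαm⟩ : ∃ m : ℕ, 0 < m ∧ K.map (α ^ m : MulAut N).toMonoidHom = K := by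
    have hmem : ∀ i : ℕ, K.map (α ^ i : MulAut N).toMonoidHom ∈
        {K : Subgroup N | ∃ _ : K.Normal, K.FG ∧ Spread (N ⧸ K)} := by
      intro i
      have hn : (K.map (α ^ i : MulAut N).toMonoidHom).Normal := hKn.map _ (α ^ i : MulAut N).surjective
      refine ⟨hn, fg_map hK _, ?_⟩
      exact Spread.equiv (QuotientGroup.congr K (K.map (α ^ i : MulAut N).toMonoidHom)
        (α ^ i : MulAut N) rfl) hS
    obtain ⟨i, j, hij, h⟩ := Set.Finite.exists_lt_map_eq_of_forall_mem hmem (finite_fib N)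
    refine ⟨j - i, by omega, ?_⟩
    have h3 : (α ^ j : MulAut N).toMonoidHom = ((α ^ i : MulAut N).toMonoidHom).comp
        (α ^ (j - i) : MulAut N).toMonoidHom := by
      have h4 : α ^ j = α ^ i * α ^ (j - i) := by rw [← pow_add]; congr 1; omega
      rw [h4]
      rfl
    rw [h3, ← Subgroup.map_map] at h
    exact (Subgroup.map_injective (f := (α ^ i : MulAut N).toMonoidHom)
      (α ^ i : MulAut N).injective h).symm
  exact ext_power hC N K h1 h2 α m hm hαm

/-- extensions of normal subgroups which are preserved by all automorphisms -/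
theorem ext_inv (hC : ClosedE C) (N : Type) [Group N] (K : Subgroup N) [hKn : K.Normal]
    (hK : ∀ α : MulAut N, K.map α.toMonoidHom = K) (h1 : MT C K) (h2 : MT C (N ⧸ K)) : MT C N :=
  fun α => ext_power hC N K h1 h2 α 1 one_pos (by rw [pow_one]; exact hK α)

theorem fg_ext {N : Type} [Group N] (K : Subgroup N) [K.Normal] (hK : Group.FG K)
    (hQ : Group.FG (N ⧸ K)) : Group.FG N := by
  classical
  obtain ⟨T, hT⟩ := (Group.fg_iff_subgroup_fg K).1 hK
  obtain ⟨U, hU⟩ := Group.fg_def.1 hQ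
  choose l hl using (QuotientGroup.mk'_surjective K)
  refine Group.fg_def.2 ⟨T ∪ U.image l, ?_⟩
  rw [eq_top_iff]
  intro x _
  have h1 : K ≤ Subgroup.closure ((T ∪ U.image l : Finset N) : Set N) := by
    refine hT.ge.trans ?_
    exact Subgroup.closure_mono (by simp)
  have h2 : (Subgroup.closure ((U.image l : Finset N) : Set N)).map (QuotientGroup.mk' K) = ⊤ := by
    rw [MonoidHom.map_closure, ← hU]
    congr 1
    rw [Finset.coe_image, ← Set.image_comp]
    have : (QuotientGroup.mk' K) ∘ l = id := funext fun y => hl y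
    rw [this, Set.image_id]
  have h3 : QuotientGroup.mk' K x ∈ (Subgroup.closure ((U.image l : Finset N) : Set N)).map
      (QuotientGroup.mk' K) := by rw [h2]; trivial
  obtain ⟨y, hy, hyx⟩ := h3
  have h4 : y⁻¹ * x ∈ K := QuotientGroup.eq.1 hyx
  have h5 : y ∈ Subgroup.closure ((T ∪ U.image l : Finset N) : Set N) :=
    Subgroup.closure_mono (by simp) hy
  have h6 := mul_mem h5 (h1 h4)
  rwa [mul_inv_cancel_left] at h6

end Pool.Agent.Helper687_Borel
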