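import Pool.Agent.Helper687_Borel.Sep
import Pool.Agent.Y473.MC.Defs

/-!
# Lifting homomorphisms `H → ℤ/p` of finite index subgroups of surface groups

Each homomorphism `H → ℤ/p`, `H` a finite index subgroup of the fundamental group of a closed oriented
surface, lifts to a homomorphism `H → ℤ` (`surf_lift`).
-/

set_option autoImplicit false

namespace Pool.Agent.Helper687_Borel

open Pool.Agent.Y473.MC (Surf Gen surfRel cm)

section Der

variable {ι S V : Type} [Group S] [AddCommGroup V] [DistribMulAction S V] (π : FreeGroup ι →* S)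

/-- the action as a homomorphism -/
def actM (S V : Type) [Group S] [AddCommGroup V] [DistribMulAction S V] :
    S →* MulAut (Multiplicative V) where
  toFun s :=
    { toFun := fun v => Multiplicative.ofAdd (s • v.toAdd)
      invFun := fun v => Multiplicative.ofAdd (s⁻¹ • v.toAdd)
      left_inv := fun v => by
        show Multiplicative.ofAdd (s⁻¹ • (s • v.toAdd)) = v
        rw [inv_smul_smul]
        rfl
      right_inv := fun v => by
        show Multiplicative.ofAdd (s • (s⁻¹ • v.toAdd)) = v
        rw [smul_inv_smul]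
        rfl
      map_mul' := fun v w => by
        show Multiplicative.ofAdd (s • (v.toAdd + w.toAdd)) = Multiplicative.ofAdd (s • v.toAdd + s • w.toAdd)
        rw [smul_add] }
  map_one' := by
    ext v : 1
    show Multiplicative.ofAdd ((1 : S) • v.toAdd) = v
    rw [one_smul]
    rfl
  map_mul' s t := by
    ext v : 1
    show Multiplicative.ofAdd ((s * t) • v.toAdd) = Multiplicative.ofAdd (s • (t • v.toAdd))
    rw [mul_smul]

/-- derivations of the free group with given values on the generators -/
theorem der_exists (w : ι → V) : ∃ c : FreeGroup ι → V, (∀ i, c (FreeGroup.of i) = w i) ∧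
    ∀ x y, c (x * y) = c x + π x • c y := by
  let Φ : FreeGroup ι →* Multiplicative V ⋊[actM S V] S :=
    FreeGroup.lift fun i => ⟨Multiplicative.ofAdd (w i), π (FreeGroup.of i)⟩
  have hΦr : ∀ x, (Φ x).right = π x := by
    intro x
    have : (SemidirectProduct.rightHom.comp Φ) = π := by
      ext i
      show (Φ (FreeGroup.of i)).right = π (FreeGroup.of i)
      simp only [Φ, FreeGroup.lift_apply_of]
    exact DFunLike.congr_fun this x
  refine ⟨fun x => (Φ x).left.toAdd, fun i => ?_, fun x y => ?_⟩
  · simp only [Φ, FreeGroup.lift_apply_of]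
    rfl
  · show (Φ (x * y)).left.toAdd = _
    rw [map_mul, SemidirectProduct.mul_left, hΦr]
    rfl

/-- the derivation with given values on the generators -/
noncomputable def der (w : ι → V) : FreeGroup ι → V := (der_exists π w).choose

theorem der_of (w : ι → V) (i : ι) : der π w (FreeGroup.of i) = w i :=
  (der_exists π w).choose_spec.1 i

theorem der_mul (w : ι → V) (x y : FreeGroup ι) : der π w (x * y) = der π w x + π x • der π w y :=
  (der_exists π w).choose_spec.2 x y

theorem der_one (w : ι → V) : der π w 1 = 0 := by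
  have := der_mul π w 1 1
  rw [mul_one, map_one, one_smul] at this
  exact left_eq_add.1 this

theorem der_inv (w : ι → V) (x : FreeGroup ι) : der π w x⁻¹ = - ((π x)⁻¹ • der π w x) := by
  have := der_mul π w x⁻¹ x
  rw [inv_mul_cancel, der_one, map_inv] at this
  exact eq_neg_of_add_eq_zero_left this.symm

theorem der_unique (c : FreeGroup ι → V) (hc : ∀ x y, c (x * y) = c x + π x • c y) (x : FreeGroup ι) :
    c x = der π (fun i => c (FreeGroup.of i)) x := by
  have h1 : c 1 = 0 := by
    have := hc 1 1
    rw [mul_one, map_one, one_smul] at this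
    exact left_eq_add.1 this
  induction x using FreeGroup.induction_on with
  | C1 => rw [der_one, h1]
  | of i => rw [der_of]
  | inv_of i ih =>
    have := hc (FreeGroup.of i)⁻¹ (FreeGroup.of i)
    rw [inv_mul_cancel, h1, map_inv] at this
    rw [der_inv, der_of]
    exact eq_neg_of_add_eq_zero_left this.symm
  | mul x y hx hy => rw [hc, der_mul, hx, hy]

theorem der_add (w w' : ι → V) (x : FreeGroup ι) : der π (w + w') x = der π w x + der π w' x := by
  have := der_unique π (fun x => der π w x + der π w' x) (fun x y => by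
    rw [der_mul, der_mul, smul_add]; abel) x
  rw [this]
  congr 1
  funext i
  rw [der_of, der_of]
  rfl

theorem der_neg (w : ι → V) (x : FreeGroup ι) : der π (-w) x = - der π w x := by
  have := der_unique π (fun x => - der π w x) (fun x y => by
    rw [der_mul, smul_neg]; abel) x
  rw [this]
  congr 1
  funext i
  rw [der_of]
  rfl

theorem der_zero (x : FreeGroup ι) : der π (0 : ι → V) x = 0 := by
  have h := der_add π (0 : ι → V) 0 x
  rw [add_zero] at h
  exact left_eq_add.1 h

theorem der_nsmul (n : ℕ) (w : ι → V) (x : FreeGroup ι) : der π (n • w) x = n • der π w x := by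
  induction n with
  | zero => rw [zero_smul, zero_smul, der_zero]
  | succ n ih => rw [succ_nsmul, succ_nsmul, der_add, ih]

theorem der_zsmul (n : ℤ) (w : ι → V) (x : FreeGroup ι) : der π (n • w) x = n • der π w x := by
  obtain ⟨n, rfl | rfl⟩ := n.eq_nat_or_neg
  · rw [natCast_zsmul, natCast_zsmul, der_nsmul]
  · rw [neg_smul, neg_smul, natCast_zsmul, natCast_zsmul, der_neg, der_nsmul]

/-- a derivation which kills the relators descends -/
theorem der_descend (R : Set (FreeGroup ι)) (hR : π.ker = Subgroup.normalClosure R) (w : ι → V)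
    (hw : ∀ r ∈ R, der π w r = 0) (x y : FreeGroup ι) (hxy : π x = π y) : der π w x = der π w y := by
  have hvan : ∀ y, π y = 1 → der π w y = 0 := by
    let M : Subgroup (FreeGroup ι) :=
      { carrier := {y | π y = 1 ∧ der π w y = 0}
        mul_mem' := by
          rintro x y ⟨h1, h2⟩ ⟨h3, h4⟩
          refine ⟨by rw [map_mul, h1, h3, mul_one], ?_⟩
          rw [der_mul, h2, h4, smul_zero, add_zero]
        one_mem' := ⟨map_one _, der_one π w⟩
        inv_mem' := by
          rintro x ⟨h1, h2⟩
          refine ⟨by rw [map_inv, h1, inv_one], ?_⟩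
          rw [der_inv, h2, smul_zero, neg_zero] }
    have hM : M.Normal := by
      refine ⟨?_⟩
      rintro y ⟨h1, h2⟩ x
      refine ⟨by rw [map_mul, map_mul, h1, mul_one, ← map_mul, mul_inv_cancel, map_one], ?_⟩
      rw [der_mul, der_mul, h2, smul_zero, add_zero, map_mul, h1, mul_one]
      have h3 := der_mul π w x x⁻¹
      rw [mul_inv_cancel, der_one] at h3
      exact h3.symm
    have h5 : π.ker ≤ M := by
      rw [hR]
      refine Subgroup.normalClosure_le_normal ?_
      intro r hr
      refine ⟨?_, hw r hr⟩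
      have : r ∈ π.ker := by rw [hR]; exact Subgroup.subset_normalClosure hr
      exact this
    intro y hy
    exact (h5 hy).2
  have h1 : π (y⁻¹ * x) = 1 := by rw [map_mul, map_inv, hxy, inv_mul_cancel]
  have h2 := der_mul π w y (y⁻¹ * x)
  rw [mul_inv_cancel_left, hvan _ h1, smul_zero, add_zero] at h2
  exact h2

end Der

/-! ### functions on the cosets -/

section Mz

variable {S : Type} [Group S] (H : Subgroup S)

/-- the `A`-valued functions on `H \ S` -/
def Mz (A : Type) [AddCommGroup A] : AddSubgroup (S → A) where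
  carrier := {f | ∀ (h : H) (s : S), f (h * s) = f s}
  add_mem' := fun {f g} hf hg h s => by
    rw [Pi.add_apply, Pi.add_apply, hf, hg]
  zero_mem' := fun h s => rfl
  neg_mem' := fun {f} hf h s => by
    rw [Pi.neg_apply, Pi.neg_apply, hf]

variable {A : Type} [AddCommGroup A]

instance : DistribMulAction S (Mz H A) where
  smul g f := ⟨fun s => f.1 (s * g), fun h s => by
    show f.1 ((h : S) * s * g) = _
    rw [mul_assoc]
    exact f.2 h (s * g)⟩
  one_smul f := Subtype.ext (funext fun s => by
    show f.1 (s * 1) = f.1 s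
    rw [mul_one])
  mul_smul g g' f := Subtype.ext (funext fun s => by
    show f.1 (s * (g * g')) = f.1 (s * g * g')
    rw [mul_assoc])
  smul_zero g := rfl
  smul_add g f f' := rfl

theorem Mz_smul (g : S) (f : Mz H A) (s : S) : (g • f).1 s = f.1 (s * g) := rfl

theorem Mz_mem (f : Mz H A) (s t : S) (h : t * s⁻¹ ∈ H) : f.1 t = f.1 s := by
  have := f.2 ⟨t * s⁻¹, h⟩ s
  rw [← this]
  show _ = f.1 (t * s⁻¹ * s)
  rw [inv_mul_cancel_right]

/-- the right cosets -/
abbrev Rc : Type := Quotient (QuotientGroup.rightRel H)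

instance Rc_finite [hH : H.FiniteIndex] : Finite (Rc H) := by
  rw [(QuotientGroup.quotientRightRelEquivQuotientLeftRel H).finite_iff]
  infer_instance

/-- the value on a coset -/
def vl (f : Mz H A) (q : Rc H) : A :=
  Quotient.lift f.1 (fun a b hab => by
    have h1 := QuotientGroup.rightRel_apply.1 hab
    exact (Mz_mem H f a b h1).symm) q

theorem vl_mk (f : Mz H A) (s : S) : vl H f (Quotient.mk _ s) = f.1 s := rfl

/-- the sum of the values -/
noncomputable def tot [H.FiniteIndex] (f : Mz H A) : A := ∑ᶠ q : Rc H, vl H f q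

/-- right translation of the cosets -/
def rtr (g : S) : Rc H → Rc H := Quotient.map (fun s => s * g) (fun a b hab => by
  show QuotientGroup.rightRel H (a * g) (b * g)
  have h1 := QuotientGroup.rightRel_apply.1 hab
  rw [QuotientGroup.rightRel_apply]
  have h2 : b * g * (a * g)⁻¹ = b * a⁻¹ := by group
  rw [h2]
  exact h1)

theorem rtr_rtr (g g' : S) (q : Rc H) : rtr H g (rtr H g' q) = rtr H (g' * g) q := by
  induction q using Quotient.inductionOn with
  | _ s =>
    show (Quotient.mk _ (s * g' * g) : Rc H) = Quotient.mk _ (s * (g' * g))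
    rw [mul_assoc]

theorem rtr_one (q : Rc H) : rtr H 1 q = q := by
  induction q using Quotient.inductionOn with
  | _ s =>
    show (Quotient.mk _ (s * 1) : Rc H) = Quotient.mk _ s
    rw [mul_one]

theorem vl_smul (g : S) (f : Mz H A) (q : Rc H) : vl H (g • f) q = vl H f (rtr H g q) := by
  induction q using Quotient.inductionOn with
  | _ s => rfl

theorem vl_add (f f' : Mz H A) (q : Rc H) : vl H (f + f') q = vl H f q + vl H f' q := by
  induction q using Quotient.inductionOn with
  | _ s => rfl

theorem tot_add [hH : H.FiniteIndex] (f f' : Mz H A) : tot H (f + f') = tot H f + tot H f' := by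
  rw [tot, tot, tot, ← finsum_add_distrib (Set.toFinite _) (Set.toFinite _)]
  exact finsum_congr fun q => vl_add H f f' q

theorem tot_smul [hH : H.FiniteIndex] (g : S) (f : Mz H A) : tot H (g • f) = tot H f := by
  rw [tot, tot]
  have h1 : ∀ q, vl H (g • f) q = vl H f (rtr H g q) := vl_smul H g f
  rw [finsum_congr h1]
  let e : Rc H ≃ Rc H :=
    { toFun := rtr H g
      invFun := rtr H g⁻¹
      left_inv := fun q => by rw [rtr_rtr, mul_inv_cancel, rtr_one]
      right_inv := fun q => by rw [rtr_rtr, inv_mul_cancel, rtr_one] }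
  exact finsum_comp_equiv e (f := vl H f)

end Mz

/-! ### one-relator groups with a transitivity property -/

section Tr

variable {ι S : Type} [Group S] (π : FreeGroup ι →* S) (H : Subgroup S)

/-- the image of the relator map -/
noncomputable def Jr (r : FreeGroup ι) : AddSubgroup (Mz H ℤ) :=
  AddMonoidHom.range ({ toFun := fun w => der π w r
                        map_zero' := der_zero π r
                        map_add' := fun w w' => der_add π w w' r } : (ι → Mz H ℤ) →+ Mz H ℤ)

theorem mem_Jr {r : FreeGroup ι} {m : Mz H ℤ} : m ∈ Jr π H r ↔ ∃ w, der π w r = m := Iff.rfl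

theorem mem_Jr_of_tot [hH : H.FiniteIndex] (r : FreeGroup ι)
    (hall : ∀ (s : S) (m : Mz H ℤ), s • m - m ∈ Jr π H r) (m0 : Mz H ℤ) (h0 : tot H m0 = 0) :
    m0 ∈ Jr π H r := by
  classical
  have hfin := Fintype.ofFinite (Rc H)
  obtain ⟨δ, hδ⟩ : ∃ δ : Mz H ℤ, ∀ s, δ.1 s = if s ∈ H then 1 else 0 := by
    refine ⟨⟨fun s => if s ∈ H then 1 else 0, fun h s => ?_⟩, fun s => rfl⟩
    show (if (h : S) * s ∈ H then (1 : ℤ) else 0) = if s ∈ H then 1 else 0
    by_cases hs : s ∈ H
    · rw [if_pos hs, if_pos (H.mul_mem h.2 hs)]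
    · rw [if_neg hs, if_neg fun h2 => hs ?_]
      have := H.mul_mem (H.inv_mem h.2) h2
      rwa [inv_mul_cancel_left] at this
  have h1 : m0 = ∑ q : Rc H, vl H m0 q • (q.out⁻¹ • δ) := by
    apply Subtype.ext
    funext s
    have h2 : (∑ q : Rc H, vl H m0 q • (q.out⁻¹ • δ)).1 s =
        ∑ q : Rc H, vl H m0 q * (q.out⁻¹ • δ).1 s := by
      have : ∀ (t : Finset (Rc H)), (∑ q ∈ t, vl H m0 q • (q.out⁻¹ • δ)).1 s =
        ∑ q ∈ t, vl H m0 q * (q.out⁻¹ • δ).1 s := by
        intro t
        induction t using Finset.induction_on with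
        | empty => rfl
        | insert a t ha ih =>
          rw [Finset.sum_insert ha, Finset.sum_insert ha, ← ih]
          rfl
      exact this _
    rw [h2, Finset.sum_eq_single (Quotient.mk _ s : Rc H)]
    · rw [vl_mk, Mz_smul, hδ, if_pos, mul_one]
      have h3 := QuotientGroup.rightRel_apply.1 (Quotient.mk_out (s := QuotientGroup.rightRel H) s)
      exact h3
    · intro q _ hq
      rw [Mz_smul, hδ, if_neg, mul_zero]
      intro h3
      refine hq ?_
      rw [← q.out_eq]
      refine Quotient.sound ?_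
      show QuotientGroup.rightRel H _ _
      rw [QuotientGroup.rightRel_apply]
      exact h3
    · intro h; exact absurd (Finset.mem_univ _) h
  have h2 : m0 = ∑ q : Rc H, vl H m0 q • (q.out⁻¹ • δ - δ) := by
    have h3 : ∑ q : Rc H, vl H m0 q • (q.out⁻¹ • δ - δ) =
        ∑ q : Rc H, vl H m0 q • (q.out⁻¹ • δ) - (∑ q : Rc H, vl H m0 q) • δ := by
      rw [Finset.sum_smul, ← Finset.sum_sub_distrib]
      exact Finset.sum_congr rfl fun q _ => smul_sub _ _ _
    have h4 : ∑ q : Rc H, vl H m0 q = 0 := by
      rw [← h0, tot, finsum_eq_sum_of_fintype]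
    rw [h3, h4, zero_smul, sub_zero]
    exact h1
  rw [h2]
  exact AddSubgroup.sum_mem _ fun q _ => AddSubgroup.zsmul_mem _ (hall _ _) _

/-- reduction modulo `p` -/
def redM (p : ℕ) : Mz H ℤ →+ Mz H (ZMod p) where
  toFun f := ⟨fun s => (f.1 s : ZMod p), fun h s => by
    show ((f.1 (h * s) : ℤ) : ZMod p) = (f.1 s : ZMod p)
    rw [f.2 h s]⟩
  map_zero' := Subtype.ext (funext fun s => by
    show (((0 : Mz H ℤ).1 s : ℤ) : ZMod p) = 0
    exact Int.cast_zero)
  map_add' f g := Subtype.ext (funext fun s => by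
    show ((f.1 s + g.1 s : ℤ) : ZMod p) = (f.1 s : ZMod p) + (g.1 s : ZMod p)
    exact Int.cast_add _ _)

theorem redM_smul (p : ℕ) (g : S) (f : Mz H ℤ) : redM H p (g • f) = g • redM H p f := rfl

theorem redM_apply (p : ℕ) (f : Mz H ℤ) (s : S) : (redM H p f).1 s = (f.1 s : ZMod p) := rfl

/-- **the lifting theorem** -/
theorem lift_of_trans (hπ : Function.Surjective π) (r : FreeGroup ι)
    (hr : π.ker = Subgroup.normalClosure {r}) (hrc : r ∈ commutator (FreeGroup ι))
    [hH : H.FiniteIndex] (hall : ∀ (s : S) (m : Mz H ℤ), s • m - m ∈ Jr π H r)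
    (p : ℕ) (hp : p.Prime) (θ : H →* Multiplicative (ZMod p)) :
    ∃ Θ : H →* Multiplicative ℤ, (redP p).comp Θ = θ := by
  classical
  have hpF : Fact p.Prime := ⟨hp⟩
  -- the retraction
  obtain ⟨τ, hτ⟩ : ∃ τ : S → H, ∀ (h : H) (s : S), τ (h * s) = h * τ s := by
    have h1 : ∀ s : S, s * ((Quotient.mk _ s : Rc H).out)⁻¹ ∈ H := fun s =>
      QuotientGroup.rightRel_apply.1 (Quotient.mk_out (s := QuotientGroup.rightRel H) s)
    refine ⟨fun s => ⟨_, h1 s⟩, fun h s => Subtype.ext ?_⟩
    have h2 : (Quotient.mk _ ((h : S) * s) : Rc H) = Quotient.mk _ s := by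
      refine Quotient.sound ?_
      show QuotientGroup.rightRel H _ _
      rw [QuotientGroup.rightRel_apply]
      have h3 : s * ((h : S) * s)⁻¹ = (h : S)⁻¹ := by group
      rw [h3]
      exact H.inv_mem h.2
    show (h : S) * s * ((Quotient.mk _ ((h : S) * s) : Rc H).out)⁻¹ =
      h * (s * ((Quotient.mk _ s : Rc H).out)⁻¹)
    rw [h2, mul_assoc]
  obtain ⟨cb, hcb⟩ : ∃ cb : S → Mz H (ZMod p), ∀ g s,
      (cb g).1 s = (θ (τ (s * g))).toAdd - (θ (τ s)).toAdd := by
    refine ⟨fun g => ⟨fun s => (θ (τ (s * g))).toAdd - (θ (τ s)).toAdd, fun h s => ?_⟩,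
      fun g s => rfl⟩
    show (θ (τ (h * s * g))).toAdd - (θ (τ (h * s))).toAdd = _
    rw [mul_assoc, hτ, hτ, θ.map_mul, θ.map_mul, toAdd_mul, toAdd_mul]
    exact add_sub_add_left_eq_sub _ _ _
  have hcb2 : ∀ g g', cb (g * g') = cb g + g • cb g' := by
    intro g g'
    apply Subtype.ext
    funext s
    show (cb (g * g')).1 s = (cb g).1 s + (cb g').1 (s * g)
    rw [hcb, hcb, hcb, mul_assoc]
    abel
  obtain ⟨w, hw⟩ : ∃ w : ι → Mz H ℤ, ∀ i, redM H p (w i) = cb (π (FreeGroup.of i)) := by
    refine ⟨fun i => ⟨fun s => (((cb (π (FreeGroup.of i))).1 s).val : ℤ), fun h s => ?_⟩,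
      fun i => Subtype.ext (funext fun s => ?_)⟩
    · show (((cb (π (FreeGroup.of i))).1 (h * s)).val : ℤ) = _
      rw [(cb (π (FreeGroup.of i))).2 h s]
    · show ((((cb (π (FreeGroup.of i))).1 s).val : ℤ) : ZMod p) = (cb (π (FreeGroup.of i))).1 s
      rw [Int.cast_natCast, ZMod.natCast_zmod_val]
  have hred : ∀ x, redM H p (der π w x) = cb (π x) := by
    intro x
    have h1 := der_unique π (fun x => redM H p (der π w x)) (fun x y => by
      rw [der_mul, map_add, redM_smul]) x
    have h2 := der_unique π (fun x => cb (π x)) (fun x y => by rw [map_mul, hcb2]) x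
    rw [h1, h2]
    congr 1
    funext i
    rw [der_of, hw]
  have hπr : π r = 1 := by
    have : r ∈ π.ker := by rw [hr]; exact Subgroup.subset_normalClosure rfl
    exact this
  have hcb1 : cb 1 = 0 := by
    have := hcb2 1 1
    rw [mul_one, one_smul] at this
    exact left_eq_add.1 this
  have hdiv : ∀ s, (p : ℤ) ∣ (der π w r).1 s := by
    intro s
    have h1 := hred r
    rw [hπr, hcb1] at h1
    have h2 : (redM H p (der π w r)).1 s = 0 := by rw [h1]; rfl
    rw [redM_apply] at h2
    exact (ZMod.intCast_zmod_eq_zero_iff_dvd _ _).1 h2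
  obtain ⟨m0, hm0⟩ : ∃ m0 : Mz H ℤ, (p : ℤ) • m0 = der π w r := by
    refine ⟨⟨fun s => (der π w r).1 s / p, fun h s => ?_⟩, Subtype.ext (funext fun s => ?_)⟩
    · show (der π w r).1 (h * s) / (p : ℤ) = _
      rw [(der π w r).2 h s]
    · show (p : ℤ) • ((der π w r).1 s / p) = (der π w r).1 s
      rw [smul_eq_mul]
      exact Int.mul_ediv_cancel' (hdiv s)
  have htot0 : tot H (der π w r) = 0 := by
    let T : FreeGroup ι →* Multiplicative ℤ :=
      { toFun := fun x => Multiplicative.ofAdd (tot H (der π w x))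
        map_one' := by
          rw [der_one]
          have h1 := tot_add H (0 : Mz H ℤ) 0
          rw [add_zero] at h1
          rw [left_eq_add.1 h1]
          rfl
        map_mul' := fun x y => by rw [der_mul, tot_add, tot_smul, ofAdd_add] }
    have h1 : r ∈ T.ker := Abelianization.commutator_subset_ker T hrc
    exact h1
  have htotm : tot H m0 = 0 := by
    let T : Mz H ℤ →+ ℤ := AddMonoidHom.mk' (tot H) (tot_add H)
    have h1 : T ((p : ℤ) • m0) = (p : ℤ) • T m0 := map_zsmul T _ _
    rw [hm0] at h1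
    have h2 : (p : ℤ) • T m0 = 0 := by rw [← h1]; exact htot0
    rcases smul_eq_zero.1 h2 with h | h
    · exact absurd (by exact_mod_cast h) hp.ne_zero
    · exact h
  obtain ⟨w', hw'⟩ := (mem_Jr π H).1 (mem_Jr_of_tot π H r hall m0 htotm)
  obtain ⟨v, hv⟩ : ∃ v : ι → Mz H ℤ, v = w + (-((p : ℤ) • w')) := ⟨_, rfl⟩
  have hvder : ∀ x, der π v x = der π w x - (p : ℤ) • der π w' x := by
    intro x
    rw [hv, der_add, der_neg, der_zsmul, sub_eq_add_neg]
  have hvr : der π v r = 0 := by rw [hvder, hw', hm0, sub_self]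
  have hdesc := der_descend π {r} hr v (fun x hx => by rw [Set.mem_singleton_iff.1 hx, hvr])
  choose l hl using hπ
  refine ⟨MonoidHom.mk' (fun h => Multiplicative.ofAdd ((der π v (l h)).1 1)) (fun x y => ?_), ?_⟩
  · have h1 : der π v (l ((x * y : H) : S)) = der π v (l x * l y) := hdesc _ _ (by
      rw [hl, map_mul, hl, hl]; rfl)
    rw [h1, der_mul, hl, ← ofAdd_add]
    congr 1
    show (der π v (l x)).1 1 + (der π v (l y)).1 (1 * x) = _
    rw [one_mul]
    have h2 := (der π v (l y)).2 x 1
    rw [mul_one] at h2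
    rw [h2]
  · ext h
    show Multiplicative.ofAdd (((der π v (l h)).1 1 : ℤ) : ZMod p) = θ h
    have h1 : (((der π v (l h)).1 1 : ℤ) : ZMod p) = (redM H p (der π v (l h))).1 1 := rfl
    rw [h1, hvder, map_sub, map_zsmul, hred, hl]
    have h2 : ((cb h - (p : ℤ) • redM H p (der π w' (l h))).1 1 : ZMod p) =
      (cb h).1 1 - (p : ℤ) • (redM H p (der π w' (l h))).1 1 := rfl
    rw [h2, hcb, one_mul]
    have h3 : (p : ℤ) • (redM H p (der π w' (l h))).1 1 = 0 := by
      rw [zsmul_eq_mul, Int.cast_natCast, ZMod.natCast_self, zero_mul]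
    have h4 : τ (h : S) = h * τ 1 := by
      have := hτ h 1
      rwa [mul_one] at this
    rw [h3, sub_zero, h4, θ.map_mul, toAdd_mul, add_sub_cancel_right]
    rfl

end Tr

end Pool.Agent.Helper687_Borel
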