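import Mathlib

/-!
# The universal derivation of a group over the group ring of its abelianization

`Rg N = ℤ[N^ab]`, `Om N` is the module of differentials `ℤ[N^ab] ⊗ I_N`, generated by the symbols `D x`,
`x ∈ N`, with `D (x y) = D x + x D y`. For a finitely generated normal subgroup `K` of a finitely generated
group `N` and a prime ideal `P` which contains all `1 - k`, `k ∈ K`, and modulo which some `t ∈ N` is not
integral over `ℤ`, there is `s ∉ P` such that all `s (1 - k)`, `k ∈ K`, annihilate the elements
`(1 - y) D x - (1 - x) D y` (`key`).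
-/

set_option autoImplicit false

open Polynomial

namespace Pool.Agent.Helper687_Borel

variable (N : Type) [Group N]

/-- the integral group ring of the abelianization -/
abbrev Rg : Type := MonoidAlgebra ℤ (Abelianization N)

variable {N}

/-- the class of an element in the group ring of the abelianization -/
noncomputable def br (x : N) : Rg N := MonoidAlgebra.of ℤ (Abelianization N) (Abelianization.of x)

@[simp] theorem br_one : br (1 : N) = 1 := by rw [br, map_one, map_one]

theorem br_mul (x y : N) : br (x * y) = br x * br y := by simp [br]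

theorem br_comm (x y : N) : br x * br y = br y * br x := mul_comm _ _

theorem br_inv_mul (x : N) : br x⁻¹ * br x = 1 := by rw [← br_mul]; simp

theorem br_mul_inv (x : N) : br x * br x⁻¹ = 1 := by rw [← br_mul]; simp

theorem br_conj (x k : N) : br (x * k * x⁻¹) = br k := by
  rw [br_mul, br_mul, mul_comm (br x), mul_assoc, br_mul_inv, mul_one]

instance noeth [Group.FG N] : IsNoetherianRing (Rg N) := by
  have h1 : Group.FG (Abelianization N) := by
    exact Group.fg_of_surjective (f := Abelianization.of) (QuotientGroup.mk_surjective)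
  have h2 : Monoid.FG (Abelianization N) := Group.fg_iff_monoid_fg.1 h1
  exact Algebra.FiniteType.isNoetherianRing ℤ (Rg N)

/-! ### the module of differentials -/

variable (N) in
/-- the relations -/
noncomputable def rel : Submodule (Rg N) (N →₀ Rg N) :=
  Submodule.span (Rg N) (Set.range fun p : N × N =>
    Finsupp.single (p.1 * p.2) 1 - Finsupp.single p.1 1 - Finsupp.single p.2 (br p.1))

variable (N) in
/-- the module of differentials -/
abbrev Om : Type := (N →₀ Rg N) ⧸ rel N

/-- the universal derivation -/
noncomputable def D (x : N) : Om N := (rel N).mkQ (Finsupp.single x 1)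

theorem D_mul (x y : N) : D (x * y) = D x + br x • D y := by
  have h : Finsupp.single (x * y) (1 : Rg N) - Finsupp.single x 1 - Finsupp.single y (br x) ∈ rel N :=
    Submodule.subset_span ⟨(x, y), rfl⟩
  have h2 : (rel N).mkQ (Finsupp.single (x * y) (1 : Rg N) - Finsupp.single x 1 -
      Finsupp.single y (br x)) = 0 := by
    rwa [Submodule.mkQ_apply, Submodule.Quotient.mk_eq_zero]
  rw [map_sub, map_sub, sub_sub, sub_eq_zero] at h2
  rw [D, h2, D, D, ← map_smul, Finsupp.smul_single, smul_eq_mul, mul_one]

theorem D_one : D (1 : N) = 0 := by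
  have h := D_mul (1 : N) 1
  rw [mul_one, br_one, one_smul] at h
  exact left_eq_add.1 h

theorem D_inv (x : N) : D x⁻¹ = - (br x⁻¹ • D x) := by
  have h := D_mul x⁻¹ x
  rw [inv_mul_cancel, D_one] at h
  exact eq_neg_of_add_eq_zero_left h.symm

theorem span_D : Submodule.span (Rg N) (Set.range (D : N → Om N)) = ⊤ := by
  rw [eq_top_iff]
  rintro v -
  obtain ⟨w, rfl⟩ := (rel N).mkQ_surjective v
  induction w using Finsupp.induction_linear with
  | zero => rw [map_zero]; exact Submodule.zero_mem _
  | add f g hf hg => rw [map_add]; exact Submodule.add_mem _ hf hg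
  | single x r =>
    have h : Finsupp.single x r = r • Finsupp.single x (1 : Rg N) := by
      rw [Finsupp.smul_single, smul_eq_mul, mul_one]
    rw [h, map_smul]
    exact Submodule.smul_mem _ _ (Submodule.subset_span ⟨x, rfl⟩)

theorem om_finite [hN : Group.FG N] : Module.Finite (Rg N) (Om N) := by
  classical
  obtain ⟨S, hS⟩ := (Group.fg_def.1 hN)
  refine ⟨⟨S.image D, ?_⟩⟩
  rw [eq_top_iff, ← span_D, Submodule.span_le]
  rintro _ ⟨x, rfl⟩
  have hx : x ∈ Subgroup.closure (S : Set N) := by rw [hS]; trivial
  have key : ∀ y ∈ S, D y ∈ Submodule.span (Rg N) ((S.image D : Finset (Om N)) : Set (Om N)) :=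
    fun y hy => Submodule.subset_span (Finset.mem_coe.2 (Finset.mem_image_of_mem _ hy))
  show D x ∈ Submodule.span (Rg N) ((S.image D : Finset (Om N)) : Set (Om N))
  induction hx using Subgroup.closure_induction with
  | mem y hy => exact key y hy
  | one => rw [D_one]; exact Submodule.zero_mem _
  | mul y z _ _ h1 h2 => rw [D_mul]; exact Submodule.add_mem _ h1 (Submodule.smul_mem _ _ h2)
  | inv y _ h1 => rw [D_inv]; exact Submodule.neg_mem _ (Submodule.smul_mem _ _ h1)

/-- derivations with values in a commutative ring to which the group ring is mapped -/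
theorem lift_exists {A : Type} [CommRing A] (φ : Rg N →+* A) (d : N → A)
    (hd : ∀ x y, d (x * y) = d x + φ (br x) * d y) :
    ∃ f : Om N → A, (∀ v w, f (v + w) = f v + f w) ∧ (∀ r v, f (r • v) = φ r * f v) ∧
      ∀ x, f (D x) = d x := by
  let g : (N →₀ Rg N) →ₛₗ[φ] A :=
    { toFun := fun v => v.sum fun x r => φ r * d x
      map_add' := fun v w => by
        refine Finsupp.sum_add_index' (fun x => by simp) (fun x r s => ?_)
        rw [map_add, add_mul]
      map_smul' := fun r v => by
        rw [Finsupp.sum_smul_index' (fun x => by simp), Finsupp.sum, Finsupp.sum, smul_eq_mul,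
          Finset.mul_sum]
        refine Finset.sum_congr rfl fun x _ => ?_
        rw [smul_eq_mul, map_mul, mul_assoc] }
  have hg : ∀ x r, g (Finsupp.single x r) = φ r * d x := fun x r => by
    show (Finsupp.single x r).sum (fun x r => φ r * d x) = _
    rw [Finsupp.sum_single_index (by simp)]
  have hle : rel N ≤ LinearMap.ker g := by
    rw [rel, Submodule.span_le]
    rintro _ ⟨⟨x, y⟩, rfl⟩
    show g _ = 0
    rw [map_sub, map_sub, hg, hg, hg]
    simp only [map_one, one_mul]
    rw [hd]
    ring
  refine ⟨(rel N).liftQ g hle, fun v w => map_add _ _ _, fun r v => ?_, fun x => ?_⟩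
  · rw [map_smulₛₗ, smul_eq_mul]
  · show (rel N).liftQ g hle ((rel N).mkQ _) = _
    rw [Submodule.mkQ_apply, Submodule.liftQ_apply, hg, map_one, one_mul]

/-! ### brackets -/

/-- the bracket -/
noncomputable def bb (x y : N) : Om N := (1 - br y) • D x - (1 - br x) • D y

theorem bb_mul (x y t : N) : bb (x * y) t = bb x t + br x • bb y t := by
  simp only [bb, D_mul, br_mul]
  module

theorem bb_self (t : N) : bb t t = 0 := by rw [bb, sub_self]

theorem bb_one (t : N) : bb 1 t = 0 := by rw [bb, D_one, br_one]; simp

theorem bb_conj (x k t : N) : bb (x * k * x⁻¹) t = (1 - br k) • bb x t + br x • bb k t := by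
  have h : bb (x * k) t = bb (x * k * x⁻¹) t + br k • bb x t := by
    have h1 := bb_mul (x * k * x⁻¹) x t
    rw [br_conj, inv_mul_cancel_right] at h1
    exact h1
  rw [bb_mul] at h
  rw [sub_smul, one_smul]
  rw [eq_sub_of_add_eq h.symm]
  abel

theorem bb_three (x y t : N) : (1 - br t) • bb x y = (1 - br y) • bb x t - (1 - br x) • bb y t := by
  simp only [bb]
  module

variable (N) in
/-- the annihilator of the brackets -/
def Ib : Ideal (Rg N) where
  carrier := {r | ∀ x y : N, r • bb x y = 0}
  add_mem' := fun {a b} ha hb x y => by rw [add_smul, ha, hb, add_zero]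
  zero_mem' := fun x y => zero_smul _ _
  smul_mem' := fun c r hr x y => by rw [smul_eq_mul, mul_smul, hr, smul_zero]

theorem mem_Ib {r : Rg N} : r ∈ Ib N ↔ ∀ x y : N, r • bb x y = 0 := Iff.rfl

/-- **the key lemma** -/
theorem key [hN : Group.FG N] (K : Subgroup N) [hKn : K.Normal] (hK : K.FG) (P : Ideal (Rg N))
    [hP : P.IsPrime] (hKP : ∀ k ∈ K, 1 - br k ∈ P) (t : N)
    (ht : ∀ p : ℤ[X], p.Monic → aeval (br t) p ∉ P) :
    ∃ s, s ∉ P ∧ ∀ k ∈ K, s * (1 - br k) ∈ Ib N := by
  classical
  have hfin : Module.Finite (Rg N) (Om N) := om_finite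
  have hnoe : IsNoetherian (Rg N) (Om N) := inferInstance
  obtain ⟨E, hE⟩ : ∃ E : Submodule (Rg N) (Om N), E = Submodule.span (Rg N)
    ((fun k => bb k t) '' (K : Set N)) := ⟨_, rfl⟩
  have hEk : ∀ k ∈ K, bb k t ∈ E := fun k hk => by
    rw [hE]; exact Submodule.subset_span ⟨k, hk, rfl⟩
  -- (E1)
  have hE1 : ∀ k ∈ K, ∀ x : N, (1 - br k) • bb x t ∈ E := by
    intro k hk x
    have h := bb_conj x k t
    rw [eq_sub_of_add_eq h.symm]
    exact E.sub_mem (hEk _ (hKn.conj_mem k hk x)) (E.smul_mem _ (hEk k hk))
  -- (E2)
  have hE2 : ∀ k : N, br t • bb k t = bb (t * k * t⁻¹) t := by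
    intro k
    rw [bb_conj, bb_self, smul_zero, zero_add]
  -- the monic integer polynomial
  obtain ⟨p, hp, hpE⟩ : ∃ p : ℤ[X], p.Monic ∧ ∀ k ∈ K, aeval (br t) p • bb k t ∈ P • E := by
    obtain ⟨T, hT⟩ := hK
    obtain ⟨q, hq⟩ : ∃ q : Om N →ₗ[Rg N] (Om N ⧸ (P • E)), q = (P • E).mkQ := ⟨_, rfl⟩
    have hq0 : ∀ v, q v = 0 ↔ v ∈ P • E := fun v => by
      rw [hq, Submodule.mkQ_apply, Submodule.Quotient.mk_eq_zero]
    obtain ⟨Λ, hΛ⟩ : ∃ Λ : Submodule ℤ (Om N ⧸ (P • E)), Λ = Submodule.span ℤ
      ((fun k => q (bb k t)) '' (T : Set N)) := ⟨_, rfl⟩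
    have hΛfg : Λ.FG := by
      rw [hΛ]
      exact Submodule.fg_span (T.finite_toSet.image _)
    have hΛK : ∀ k ∈ K, q (bb k t) ∈ Λ := by
      intro k hk
      rw [← hT] at hk
      have hTK : ∀ y ∈ Subgroup.closure (T : Set N), y ∈ K := fun y hy => by rwa [hT] at hy
      induction hk using Subgroup.closure_induction with
      | mem y hy => rw [hΛ]; exact Submodule.subset_span ⟨y, hy, rfl⟩
      | one => rw [bb_one, map_zero]; exact Λ.zero_mem
      | mul y z hy hz h1 h2 =>
        have h3 : q (bb (y * z) t) = q (bb y t) + q (bb z t) := by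
          rw [← sub_eq_zero, ← map_add, ← map_sub, hq0, bb_mul]
          have : bb y t + br y • bb z t - (bb y t + bb z t) = -((1 - br y) • bb z t) := by module
          rw [this]
          exact Submodule.neg_mem _ (Submodule.smul_mem_smul (hKP y (hTK y hy)) (hEk z (hTK z hz)))
        rw [h3]
        exact Λ.add_mem h1 h2
      | inv y hy h1 =>
        have h3 : q (bb y⁻¹ t) = - q (bb y t) := by
          have h4 := bb_mul y⁻¹ y t
          rw [inv_mul_cancel, bb_one] at h4
          rw [← sub_eq_zero, ← map_neg, ← map_sub, hq0]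
          have : bb y⁻¹ t - -bb y t = (1 - br y⁻¹) • bb y t := by
            rw [eq_neg_of_add_eq_zero_left h4.symm]; module
          rw [this]
          exact Submodule.smul_mem_smul (hKP _ (inv_mem (hTK y hy))) (hEk y (hTK y hy))
        rw [h3]
        exact Λ.neg_mem h1
    -- multiplication by `t`
    obtain ⟨g, hg⟩ : ∃ g : Module.End ℤ (Om N ⧸ (P • E)), ∀ v, g v = br t • v :=
      ⟨{ toFun := fun v => br t • v
         map_add' := fun v w => smul_add _ _ _
         map_smul' := fun n v => by rw [RingHom.id_apply, smul_comm] }, fun v => rfl⟩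
    have hgΛ : ∀ v ∈ Λ, g v ∈ Λ := by
      intro v hv
      rw [hΛ] at hv
      induction hv using Submodule.span_induction with
      | mem v hv =>
        obtain ⟨k, hk, rfl⟩ := hv
        show g (q (bb k t)) ∈ Λ
        rw [hg, ← map_smul, hE2]
        have hkK : k ∈ K := by rw [← hT]; exact Subgroup.subset_closure hk
        exact hΛK _ (hKn.conj_mem k hkK t)
      | zero => rw [map_zero]; exact Λ.zero_mem
      | add v w _ _ h1 h2 => rw [map_add]; exact Λ.add_mem h1 h2
      | smul n v _ h1 => rw [map_smul]; exact Λ.smul_mem _ h1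
    have : Module.Finite ℤ Λ := Module.Finite.iff_fg.2 hΛfg
    obtain ⟨p, hp, hp0⟩ := LinearMap.exists_monic_and_aeval_eq_zero ℤ (g.restrict hgΛ)
    refine ⟨p, hp, fun k hk => ?_⟩
    rw [← hq0, map_smul]
    have h1 : ∀ (p : ℤ[X]) (v : Λ), ((aeval (g.restrict hgΛ) p v : Λ) : Om N ⧸ (P • E)) =
        aeval (br t) p • (v : Om N ⧸ (P • E)) := by
      intro p v
      induction p using Polynomial.induction_on' with
      | add p r hp hr =>
        rw [map_add, map_add, add_smul, LinearMap.add_apply, Submodule.coe_add, hp, hr]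
      | monomial n a =>
        rw [← Polynomial.C_mul_X_pow_eq_monomial, map_mul, map_mul, aeval_C, aeval_C, map_pow,
          map_pow, aeval_X, aeval_X, Module.End.mul_apply]
        have h2 : ∀ (n : ℕ) (v : Λ), ((((g.restrict hgΛ) ^ n) v : Λ) : Om N ⧸ (P • E)) =
            (br t) ^ n • (v : Om N ⧸ (P • E)) := by
          intro n
          induction n with
          | zero => intro v; rw [pow_zero, pow_zero, one_smul]; rfl
          | succ n ih =>
            intro v
            rw [pow_succ, pow_succ, Module.End.mul_apply, ih, mul_smul]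
            congr 1
            exact hg v
        rw [mul_smul, ← h2, Module.algebraMap_end_apply, algebraMap_smul]
        rfl
    have h3 := h1 p ⟨q (bb k t), hΛK k hk⟩
    rw [hp0] at h3
    exact h3.symm
  obtain ⟨c, hc⟩ : ∃ c, c = aeval (br t) p := ⟨_, rfl⟩
  rw [← hc] at hpE
  have hcP : c ∉ P := by rw [hc]; exact ht p hp
  -- multiplication by `c` on `E`
  obtain ⟨s, hsP, hsE⟩ : ∃ s, s ∉ P ∧ ∀ v ∈ E, s • v = 0 := by
    obtain ⟨g, hg⟩ : ∃ g : Module.End (Rg N) E, ∀ v, g v = c • v := ⟨c • LinearMap.id, fun v => rfl⟩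
    have hrange : LinearMap.range g ≤ P • (⊤ : Submodule (Rg N) E) := by
      rintro _ ⟨v, rfl⟩
      rw [hg]
      have h1 : ∀ w ∈ E, c • w ∈ P • E := by
        intro w hw
        rw [hE] at hw
        induction hw using Submodule.span_induction with
        | mem w hw => obtain ⟨k, hk, rfl⟩ := hw; exact hpE k hk
        | zero => rw [smul_zero]; exact Submodule.zero_mem _
        | add v w _ _ h1 h2 => rw [smul_add]; exact Submodule.add_mem _ h1 h2
        | smul r v _ h1 => rw [smul_comm]; exact Submodule.smul_mem _ _ h1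
      have h2 := h1 v v.2
      have h3 : Submodule.map E.subtype (P • (⊤ : Submodule (Rg N) E)) = P • E := by
        rw [Submodule.map_smul'', Submodule.map_top, Submodule.range_subtype]
      rw [← h3] at h2
      obtain ⟨w, hw, hwv⟩ := h2
      have : w = c • v := Subtype.ext hwv
      rwa [← this]
    have : Module.Finite (Rg N) E := Module.Finite.iff_fg.2 (hnoe.noetherian E)
    obtain ⟨f, hf, -, hf2, hf3⟩ :=
      LinearMap.exists_monic_and_natDegree_eq_and_coeff_mem_pow_and_aeval_eq_zero (Rg N) g P hrange
    refine ⟨f.eval c, ?_, ?_⟩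
    · intro hmem
      have h1 : f.eval c - c ^ f.natDegree ∈ P := by
        rw [eval_eq_sum_range, Finset.sum_range_succ, hf.coeff_natDegree, one_mul, add_sub_cancel_right]
        refine Ideal.sum_mem _ fun i hi => ?_
        rw [Finset.mem_range] at hi
        refine Ideal.mul_mem_right _ _ ?_
        exact Ideal.pow_le_self (by omega) (hf2 i)
      have h2 : c ^ f.natDegree ∈ P := by
        have := P.sub_mem hmem h1
        rwa [sub_sub_cancel] at this
      exact hcP (hP.mem_of_pow_mem _ h2)
    · intro v hv
      have h1 : ∀ (f : (Rg N)[X]) (v : E), aeval g f v = f.eval c • v := by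
        intro f v
        induction f using Polynomial.induction_on' with
        | add p r hp hr => rw [map_add, eval_add, add_smul, LinearMap.add_apply, hp, hr]
        | monomial n a =>
          rw [← Polynomial.C_mul_X_pow_eq_monomial, map_mul, aeval_C, map_pow,
            aeval_X, Module.End.mul_apply, eval_mul, eval_C, eval_pow, eval_X]
          have h2 : ∀ (n : ℕ) (v : E), (g ^ n) v = c ^ n • v := by
            intro n
            induction n with
            | zero => intro v; rw [pow_zero, pow_zero, one_smul]; rfl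
            | succ n ih =>
              intro v
              rw [pow_succ, pow_succ, Module.End.mul_apply, ih, mul_smul, hg]
          rw [h2, Module.algebraMap_end_apply, mul_smul]
      have h2 := h1 f ⟨v, hv⟩
      rw [hf3] at h2
      exact (congrArg Subtype.val h2).symm
  refine ⟨s * (1 - br t), ?_, ?_⟩
  · intro hmem
    rcases hP.mem_or_mem hmem with h | h
    · exact hsP h
    · refine ht (X - 1) (by simpa using monic_X_sub_C (1 : ℤ)) ?_
      rw [map_sub, aeval_X, map_one, ← neg_sub]
      exact P.neg_mem h
  · intro k hk x y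
    have h1 : ∀ x : N, (s * (1 - br k)) • bb x t = 0 := fun x => by
      rw [mul_smul]
      exact hsE _ (hE1 k hk x)
    have h2 : (s * (1 - br t) * (1 - br k)) • bb x y = (s * (1 - br k)) • ((1 - br t) • bb x y) := by
      rw [smul_smul]
      congr 1
      ring
    rw [h2, bb_three, smul_sub, smul_comm _ (1 - br y), smul_comm _ (1 - br x), h1, h1, smul_zero,
      smul_zero, sub_zero]

end Pool.Agent.Helper687_Borel
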