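import Pool.Agent.Helper687_Borel.Dir

/-!
# Outer automorphism groups of iterated extensions
-/

set_option autoImplicit false

namespace Pool.Agent.Helper687_Borel

variable {E : ∀ (G : Type) [Group G], Prop}

/-- classes of groups which contain the finite groups and are closed under subgroups and extensions -/
structure ECl (E : ∀ (G : Type) [Group G], Prop) : Prop where
  finite : ∀ (G : Type) [Group G], Finite G → E G
  of_injective : ∀ (G H : Type) [Group G] [Group H] (f : G →* H), Function.Injective f → E H → E G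
  ext : ∀ (G : Type) [Group G] (N : Subgroup G) [N.Normal], E N → E (G ⧸ N) → E G

theorem ECl.equiv (hE : ECl E) {G H : Type} [Group G] [Group H] (e : G ≃* H) (h : E G) : E H :=
  hE.of_injective H G e.symm.toMonoidHom e.symm.injective h

theorem ECl.dcl (hE : ECl E) : DCl E where
  triv G _ h := hE.finite G inferInstance
  of_injective := hE.of_injective
  prod G H _ _ h1 h2 := by
    refine hE.ext (G × H) (MonoidHom.fst G H).ker ?_ ?_
    · let f : (MonoidHom.fst G H).ker →* H := (MonoidHom.snd G H).comp (Subgroup.subtype _)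
      refine hE.of_injective _ _ f ?_ h2
      intro x y hxy
      have hx : (x : G × H).1 = 1 := x.2
      have hy : (y : G × H).1 = 1 := y.2
      exact Subtype.ext (Prod.ext (hx.trans hy.symm) hxy)
    · exact hE.of_injective _ _ (QuotientGroup.kerLift (MonoidHom.fst G H))
        (QuotientGroup.kerLift_injective _) h1
  finiteIndex G _ K hK h := by
    refine hE.ext G K.normalCore ?_ (hE.finite _ inferInstance)
    exact hE.of_injective _ _ (Subgroup.inclusion K.normalCore_le) (Subgroup.inclusion_injective _) h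

/-- the group of inner automorphisms -/
def Inn (N : Type) [Group N] : Subgroup (MulAut N) := (MulAut.conj : N →* MulAut N).range

theorem conj_aut {N : Type} [Group N] (σ : MulAut N) (n : N) :
    σ * MulAut.conj n * σ⁻¹ = MulAut.conj (σ n) := by
  ext x
  show σ (n * σ⁻¹ x * n⁻¹) = σ n * x * (σ n)⁻¹
  rw [map_mul, map_mul, map_inv, MulAut.apply_inv_self]

instance inn_normal (N : Type) [Group N] : (Inn N).Normal := by
  refine ⟨?_⟩
  rintro _ ⟨n, rfl⟩ σ
  exact ⟨σ n, (conj_aut σ n).symm⟩

/-- the outer automorphism group -/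
abbrev OutG (N : Type) [Group N] : Type := MulAut N ⧸ Inn N

/-- the image of a subgroup in a quotient -/
theorem sub_quot (hE : ECl E) {A : Type} [Group A] (R : Subgroup A) [hR : R.Normal] (B : Subgroup A)
    (h : E (B ⧸ R.subgroupOf B)) : E ↥(B.map (QuotientGroup.mk' R)) := by
  let g : B ⧸ R.subgroupOf B →* A ⧸ R := QuotientGroup.map _ _ B.subtype le_rfl
  have hg : Function.Injective g := by
    rw [injective_iff_map_eq_one]
    intro a ha
    obtain ⟨b, rfl⟩ := QuotientGroup.mk_surjective a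
    have h1 : ((b : A) : A ⧸ R) = 1 := ha
    rw [QuotientGroup.eq_one_iff] at h1
    exact (QuotientGroup.eq_one_iff b).2 h1
  have hr : g.range = B.map (QuotientGroup.mk' R) := by
    ext x
    constructor
    · rintro ⟨a, rfl⟩
      obtain ⟨b, rfl⟩ := QuotientGroup.mk_surjective a
      exact ⟨b, b.2, rfl⟩
    · rintro ⟨b, hb, rfl⟩
      exact ⟨((⟨b, hb⟩ : B) : B ⧸ R.subgroupOf B), rfl⟩
  have h2 : E g.range := hE.equiv (MonoidHom.ofInjective hg) h
  rw [hr] at h2
  exact h2

theorem of_cover (hE : ECl E) {A : Type} [Group A] (R : Subgroup A) [hR : R.Normal] (B : Subgroup A)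
    (hB : ∀ a : A, ∃ b ∈ B, b⁻¹ * a ∈ R) (h : E (B ⧸ R.subgroupOf B)) : E (A ⧸ R) := by
  have h1 := sub_quot hE R B h
  have h2 : B.map (QuotientGroup.mk' R) = ⊤ := by
    rw [eq_top_iff]
    intro x _
    obtain ⟨a, rfl⟩ := QuotientGroup.mk_surjective x
    obtain ⟨b, hb, hba⟩ := hB a
    exact ⟨b, hb, QuotientGroup.eq.2 hba⟩
  rw [h2] at h1
  exact hE.equiv Subgroup.topEquiv h1

theorem of_map (hE : ECl E) {A A' : Type} [Group A] [Group A'] (f : A →* A') (R : Subgroup A)
    [hR : R.Normal] (R' : Subgroup A') [hR' : R'.Normal] (h : R ≤ R'.comap f) (h1 : E (A' ⧸ R'))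
    (h2 : E (R'.comap f ⧸ R.subgroupOf (R'.comap f))) : E (A ⧸ R) := by
  have h3 := sub_quot hE R (R'.comap f) h2
  have h4 : (R'.comap f).map (QuotientGroup.mk' R) = (QuotientGroup.map R R' f h).ker := by
    ext x
    obtain ⟨a, rfl⟩ := QuotientGroup.mk_surjective x
    rw [MonoidHom.mem_ker]
    constructor
    · rintro ⟨b, hb, hba⟩
      have h5 : (QuotientGroup.map R R' f h) (b : A ⧸ R) = 1 :=
        (QuotientGroup.eq_one_iff (f b)).2 hb
      have h6 : (b : A ⧸ R) = (a : A ⧸ R) := hba
      rw [← h6]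
      exact h5
    · intro ha
      refine ⟨a, ?_, rfl⟩
      have h5 : ((f a : A') : A' ⧸ R') = 1 := ha
      show f a ∈ R'
      exact (QuotientGroup.eq_one_iff (f a)).1 h5
  rw [h4] at h3
  exact hE.ext _ _ h3 (hE.of_injective _ _ (QuotientGroup.kerLift (QuotientGroup.map R R' f h))
    (QuotientGroup.kerLift_injective _) h1)

theorem of_finite_index (hE : ECl E) {A : Type} [Group A] (R : Subgroup A) [hR : R.Normal]
    (B : Subgroup A) [hB : B.FiniteIndex] (h : E (B ⧸ R.subgroupOf B)) : E (A ⧸ R) := by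
  have h1 := sub_quot hE R B h
  have h2 : (B.map (QuotientGroup.mk' R)).FiniteIndex :=
    ⟨fun h => hB.index_ne_zero (Nat.eq_zero_of_zero_dvd (h ▸
      B.index_map_dvd (QuotientGroup.mk'_surjective R)))⟩
  exact hE.dcl.finiteIndex _ _ h2 h1

/-- the general step -/
theorem out_step (hE : ECl E) (N : Type) [Group N] (K : Subgroup N) [hKn : K.Normal]
    (hs : (stab K).FiniteIndex) (hZ : Subgroup.center K = ⊥) (hZ' : Subgroup.center (N ⧸ K) = ⊥)
    (h1 : E (OutG K)) (h2 : E (OutG (N ⧸ K))) : E (OutG N) := by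
  refine of_finite_index hE (Inn N) (stab K) ?_
  obtain ⟨R, hR⟩ : ∃ R, R = (Inn N).subgroupOf (stab K) := ⟨_, rfl⟩
  have hRn : R.Normal := by rw [hR]; infer_instance
  have hconj : ∀ n : N, MulAut.conj n ∈ stab K := by
    intro n x
    show n * x * n⁻¹ ∈ K ↔ x ∈ K
    exact (hKn.mem_comm_iff (a := n * x) (b := n⁻¹)).trans (by rw [inv_mul_cancel_left])
  have hle : R ≤ (Inn (N ⧸ K)).comap (quo K) := by
    intro σ hσ
    rw [hR] at hσ
    obtain ⟨n, hn⟩ := hσ
    refine ⟨(n : N ⧸ K), ?_⟩
    ext x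
    obtain ⟨x, rfl⟩ := QuotientGroup.mk_surjective x
    rw [quo_apply]
    have h3 : σ.1 x = n * x * n⁻¹ := by
      have h4 : MulAut.conj n = σ.1 := hn
      rw [← h4]; rfl
    rw [h3]
    rfl
  have hmain : E (stab K ⧸ R) := by
    refine of_map hE (quo K) R (Inn (N ⧸ K)) hle h2 ?_
    -- the automorphisms which are trivial on the quotient
    obtain ⟨I, hI⟩ : ∃ I, I = (Inn (N ⧸ K)).comap (quo K) := ⟨_, rfl⟩
    rw [← hI]
    obtain ⟨B, hB⟩ : ∃ B : Subgroup I, B = (quo K).ker.subgroupOf I := ⟨_, rfl⟩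
    have hBm : ∀ b : I, b ∈ B ↔ quo K b.1 = 1 := fun b => by
      rw [hB, Subgroup.mem_subgroupOf, MonoidHom.mem_ker]
    refine of_cover hE (R.subgroupOf I) B ?_ ?_
    · rintro ⟨σ, hσ⟩
      have hσ' := hσ
      rw [hI] at hσ'
      obtain ⟨q, hq⟩ := hσ'
      obtain ⟨n, rfl⟩ := QuotientGroup.mk_surjective q
      have hcR : (⟨MulAut.conj n, hconj n⟩ : stab K) ∈ R := by
        rw [hR]; exact ⟨n, rfl⟩
      have hcI : (⟨MulAut.conj n, hconj n⟩ : stab K) ∈ I := by rw [hI]; exact hle hcR
      refine ⟨⟨σ * (⟨MulAut.conj n, hconj n⟩ : stab K)⁻¹, I.mul_mem hσ (I.inv_mem hcI)⟩, ?_, ?_⟩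
      · rw [hB, Subgroup.mem_subgroupOf, MonoidHom.mem_ker]
        show quo K (σ * (⟨MulAut.conj n, hconj n⟩ : stab K)⁻¹) = 1
        have h3 : quo K (⟨MulAut.conj n, hconj n⟩ : stab K) = MulAut.conj (n : N ⧸ K) := by
          ext x
          obtain ⟨x, rfl⟩ := QuotientGroup.mk_surjective x
          rfl
        rw [map_mul, map_inv, h3, ← hq]
        exact mul_inv_cancel _
      · rw [Subgroup.mem_subgroupOf]
        show (σ * (⟨MulAut.conj n, hconj n⟩ : stab K)⁻¹)⁻¹ * σ ∈ R
        have h4 : (σ * (⟨MulAut.conj n, hconj n⟩ : stab K)⁻¹)⁻¹ * σ =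
          ⟨MulAut.conj n, hconj n⟩ := by group
        rw [h4]
        exact hcR
    · -- restriction to `K`
      obtain ⟨R2, hR2⟩ : ∃ R2, R2 = (R.subgroupOf I).subgroupOf B := ⟨_, rfl⟩
      have hR2n : R2.Normal := by rw [hR2]; infer_instance
      refine hE.equiv (QuotientGroup.quotientMulEquivOfEq hR2) ?_
      obtain ⟨ρ, hρ⟩ : ∃ ρ : B →* MulAut K, ρ = (res K).comp (I.subtype.comp B.subtype) := ⟨_, rfl⟩
      have hBq : ∀ b : B, ∀ x : N, x⁻¹ * b.1.1.1 x ∈ K := by
        intro b x
        have h3 : quo K b.1.1 = 1 := (hBm b.1).1 b.2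
        have h4 : quo K b.1.1 (x : N ⧸ K) = (x : N ⧸ K) := by rw [h3]; rfl
        rw [quo_apply] at h4
        exact QuotientGroup.eq.1 h4.symm
      have hρi : Function.Injective ρ := by
        rw [injective_iff_map_eq_one]
        intro b hb
        have h5 : (b.1.1.1 : MulAut N) ∈ stab K ⊓ stab K := ⟨b.1.1.2, b.1.1.2⟩
        have h6 : rq K K ⟨b.1.1.1, h5⟩ = 1 := by
          refine Prod.ext ?_ ?_
          · rw [hρ] at hb
            exact hb
          · exact (hBm b.1).1 b.2
        have h7 := rq_injective (le_refl K) hZ (h6.trans (map_one _).symm)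
        have h8 : b.1.1.1 = 1 := congrArg Subtype.val h7
        exact Subtype.ext (Subtype.ext (Subtype.ext h8))
      have hR2m : ∀ b : B, b ∈ R2 ↔ ρ b ∈ Inn K := by
        intro b
        constructor
        · intro hb
          rw [hR2, Subgroup.mem_subgroupOf, Subgroup.mem_subgroupOf, hR, Subgroup.mem_subgroupOf] at hb
          obtain ⟨n, hn⟩ := hb
          have hn' : MulAut.conj n = b.1.1.1 := hn
          -- `n` is central modulo `K`
          have h3 : (n : N ⧸ K) ∈ Subgroup.center (N ⧸ K) := by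
            rw [Subgroup.mem_center_iff]
            intro y
            obtain ⟨y, rfl⟩ := QuotientGroup.mk_surjective y
            have h4 := hBq b y
            rw [← hn'] at h4
            have h5 : y⁻¹ * (n * y * n⁻¹) ∈ K := h4
            have h6 : ((y : N) : N ⧸ K) = ((n * y * n⁻¹ : N) : N ⧸ K) := QuotientGroup.eq.2 h5
            rw [QuotientGroup.mk_mul, QuotientGroup.mk_mul, QuotientGroup.mk_inv] at h6
            exact eq_mul_inv_iff_mul_eq.1 h6
          rw [hZ', Subgroup.mem_bot] at h3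
          have hnK : n ∈ K := (QuotientGroup.eq_one_iff n).1 h3
          refine ⟨⟨n, hnK⟩, ?_⟩
          rw [hρ]
          ext x
          show n * x * n⁻¹ = b.1.1.1 x
          rw [← hn']
          rfl
        · rintro ⟨k, hk⟩
          rw [hR2, Subgroup.mem_subgroupOf, Subgroup.mem_subgroupOf, hR, Subgroup.mem_subgroupOf]
          refine ⟨(k : N), ?_⟩
          -- both automorphisms have the same restrictions
          have hcI : (⟨MulAut.conj (k : N), hconj k⟩ : stab K) ∈ I := by
            rw [hI]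
            refine hle ?_
            rw [hR]
            exact ⟨k, rfl⟩
          have hcB : (⟨⟨MulAut.conj (k : N), hconj k⟩, hcI⟩ : I) ∈ B := by
            rw [hB, Subgroup.mem_subgroupOf, MonoidHom.mem_ker]
            ext x
            obtain ⟨x, rfl⟩ := QuotientGroup.mk_surjective x
            show (((k : N) * x * (k : N)⁻¹ : N) : N ⧸ K) = (x : N ⧸ K)
            rw [QuotientGroup.mk_mul, QuotientGroup.mk_mul, QuotientGroup.mk_inv,
              (QuotientGroup.eq_one_iff (k : N)).2 k.2, one_mul, inv_one, mul_one]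
          have h3 : ρ ⟨⟨⟨MulAut.conj (k : N), hconj k⟩, hcI⟩, hcB⟩ = ρ b := by
            rw [← hk, hρ]
            ext x
            rfl
          have h4 := hρi h3
          exact congrArg (fun z : B => z.1.1.1) h4
      have hle2 : R2 ≤ (Inn K).comap ρ := fun b hb => (hR2m b).1 hb
      refine hE.of_injective _ _ (QuotientGroup.map R2 (Inn K) ρ hle2) ?_ h1
      rw [injective_iff_map_eq_one]
      intro a ha
      obtain ⟨b, rfl⟩ := QuotientGroup.mk_surjective a
      have h3 : ((ρ b : MulAut K) : MulAut K ⧸ Inn K) = 1 := ha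
      rw [QuotientGroup.eq_one_iff] at h3
      exact (QuotientGroup.eq_one_iff b).2 ((hR2m b).2 h3)
  exact hE.equiv (QuotientGroup.quotientMulEquivOfEq hR) hmain

end Pool.Agent.Helper687_Borel
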