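import Pool.Agent.Helper687_Borel.OutTower
import Pool.Agent.Helper687_Borel.FJ

/-!
# Outer automorphism groups in Farrell-Jones classes
-/

set_option autoImplicit false

namespace Pool.Agent.Helper687_Borel

open Pool.Agent.Y110.FJ
open Pool.Agent.R941.FJ (C_equiv C_le C_cyc)

variable {C : ∀ (G : Type) [Group G], Prop}

theorem sub_quotC (hC : ClosedE C) {A : Type} [Group A] (R : Subgroup A) [hR : R.Normal]
    (B : Subgroup A) (h : C (B ⧸ R.subgroupOf B)) : C ↥(B.map (QuotientGroup.mk' R)) := by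
  let g : B ⧸ R.subgroupOf B →* A ⧸ R := QuotientGroup.map _ _ B.subtype le_rfl
  have hg : Function.Injective g := by
    rw [injective_iff_map_eq_one]
    intro a ha
    obtain ⟨b, rfl⟩ := QuotientGroup.mk_surjective a
    have h1 : ((b : A) : A ⧸ R) = 1 := ha
    rw [QuotientGroup.eq_one_iff] at h1
    exact (QuotientGroup.eq_one_iff b).2 h1
  have hr : g.range = B.map (QuotientGroup.mk' R) := by
    ext x
    constructor
    · rintro ⟨a, rfl⟩
      obtain ⟨b, rfl⟩ := QuotientGroup.mk_surjective a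
      exact ⟨b, b.2, rfl⟩
    · rintro ⟨b, hb, rfl⟩
      exact ⟨((⟨b, hb⟩ : B) : B ⧸ R.subgroupOf B), rfl⟩
  have h2 : C g.range := C_equiv hC.base (MonoidHom.ofInjective hg).symm h
  rw [hr] at h2
  exact h2

section step

variable {N : Type} [Group N] (K : Subgroup N) [hKn : K.Normal]

theorem conj_mem_stab (n : N) : MulAut.conj n ∈ stab K := by
  intro x
  show n * x * n⁻¹ ∈ K ↔ x ∈ K
  exact (hKn.mem_comm_iff (a := n * x) (b := n⁻¹)).trans (by rw [inv_mul_cancel_left])

/-- the inner automorphisms, as a subgroup of the stabilizer -/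
def InnS : Subgroup (stab K) := (Inn N).subgroupOf (stab K)

instance : (InnS K).Normal := by unfold InnS; infer_instance

/-- the inner automorphism as an element of the stabilizer -/
def cj (n : N) : stab K := ⟨MulAut.conj n, conj_mem_stab K n⟩

theorem cj_mem (n : N) : cj K n ∈ InnS K := ⟨n, rfl⟩

theorem mem_innS {σ : stab K} (h : σ ∈ InnS K) : ∃ n : N, σ = cj K n := by
  obtain ⟨n, hn⟩ := h
  exact ⟨n, Subtype.ext hn.symm⟩

theorem quo_cj (n : N) : quo K (cj K n) = MulAut.conj (n : N ⧸ K) := by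
  ext x
  obtain ⟨x, rfl⟩ := QuotientGroup.mk_surjective x
  rfl

theorem innS_le : InnS K ≤ (Inn (N ⧸ K)).comap (quo K) := by
  intro σ hσ
  obtain ⟨n, rfl⟩ := mem_innS K hσ
  exact ⟨(n : N ⧸ K), (quo_cj K n).symm⟩

theorem conj_eq_one {Q : Type} [Group Q] (hZ : Subgroup.center Q = ⊥) {q : Q}
    (h : (MulAut.conj q : MulAut Q) = 1) : q = 1 := by
  have h3 : q ∈ Subgroup.center Q := by
    rw [Subgroup.mem_center_iff]
    intro x
    have h4 : q * x * q⁻¹ = x := by
      have : (MulAut.conj q : MulAut Q) x = x := by rw [h]; rfl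
      exact this
    calc x * q = q * x * q⁻¹ * q := by rw [h4]
      _ = q * x := by group
  rw [hZ, Subgroup.mem_bot] at h3
  exact h3

/-- the key embedding -/
theorem key_embed (hC : ClosedE C) (hZ : Subgroup.center K = ⊥) (hZ' : Subgroup.center (N ⧸ K) = ⊥)
    (h1 : C (OutG K)) (φ : MulAut (N ⧸ K)) (hφ : ∀ j : ℤ, φ ^ j ∈ Inn (N ⧸ K) → φ ^ j = 1) :
    C ↥(((Subgroup.zpowers φ).comap (quo K)).map (QuotientGroup.mk' (InnS K))) := by
  obtain ⟨W, hW⟩ : ∃ W, W = (Subgroup.zpowers φ).comap (quo K) := ⟨_, rfl⟩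
  rw [← hW]
  refine sub_quotC hC (InnS K) W ?_
  have hWm' : ∀ σ : stab K, σ ∈ W ↔ quo K σ ∈ Subgroup.zpowers φ := fun σ => by rw [hW]; rfl
  have hWm : ∀ w : W, quo K w.1 ∈ Subgroup.zpowers φ := fun w => (hWm' w.1).1 w.2
  let Ψ : W →* OutG K × Subgroup.zpowers φ :=
    { toFun := fun w => (((res K w.1 : MulAut K) : OutG K), ⟨quo K w.1, hWm w⟩)
      map_one' := Prod.ext (by
          show ((res K (1 : stab K) : MulAut K) : OutG K) = 1
          rw [map_one]
          rfl) (Subtype.ext (by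
          show quo K (1 : stab K) = 1
          exact map_one _))
      map_mul' := fun a b => Prod.ext (by
          show ((res K (a.1 * b.1) : MulAut K) : OutG K) = _
          rw [map_mul]
          rfl) (Subtype.ext (by
          show quo K (a.1 * b.1) = _
          rw [map_mul]
          rfl)) }
  have hker : ∀ w : W, w ∈ (InnS K).subgroupOf W ↔ Ψ w = 1 := by
    intro w
    rw [Subgroup.mem_subgroupOf]
    constructor
    · intro hw
      obtain ⟨n, hn⟩ := mem_innS K hw
      obtain ⟨j, hj⟩ := hWm w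
      have h2 : φ ^ j = quo K w.1 := hj
      have h3 : quo K w.1 = MulAut.conj (n : N ⧸ K) := by rw [hn, quo_cj]
      have h4 : φ ^ j = 1 := hφ j (by rw [h2, h3]; exact ⟨_, rfl⟩)
      have h5 : (n : N ⧸ K) = 1 := conj_eq_one hZ' (by rw [← h3, ← h2, h4])
      have h6 : n ∈ K := (QuotientGroup.eq_one_iff n).1 h5
      refine Prod.ext ?_ (Subtype.ext ?_)
      · show ((res K w.1 : MulAut K) : OutG K) = 1
        rw [QuotientGroup.eq_one_iff]
        refine ⟨⟨n, h6⟩, ?_⟩
        rw [hn]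
        ext x
        rfl
      · show quo K w.1 = 1
        rw [← h2, h4]
    · intro hw
      have h2 : ((res K w.1 : MulAut K) : OutG K) = 1 := congrArg Prod.fst hw
      have h3 : quo K w.1 = 1 := congrArg (fun z : OutG K × Subgroup.zpowers φ => z.2.1) hw
      rw [QuotientGroup.eq_one_iff] at h2
      obtain ⟨k, hk⟩ := h2
      have h4 : w.1 = cj K (k : N) := by
        have h5 : ((w.1 : stab K) : MulAut N) ∈ stab K ⊓ stab K := ⟨w.1.2, w.1.2⟩
        have h6 : ((cj K (k : N) : stab K) : MulAut N) ∈ stab K ⊓ stab K :=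
          ⟨(cj K (k : N)).2, (cj K (k : N)).2⟩
        have h7 : rq K K ⟨_, h5⟩ = rq K K ⟨_, h6⟩ := by
          refine Prod.ext ?_ ?_
          · show res K w.1 = res K (cj K (k : N))
            rw [← hk]
            ext x
            rfl
          · show quo K w.1 = quo K (cj K (k : N))
            rw [h3, quo_cj, (QuotientGroup.eq_one_iff (k : N)).2 k.2, map_one]
        have h8 := rq_injective (le_refl K) hZ h7
        exact Subtype.ext (congrArg (fun z : ↥(stab K ⊓ stab K) => (z : MulAut N)) h8)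
      rw [h4]
      exact cj_mem K _
  have hle : (InnS K).subgroupOf W ≤ Ψ.ker := fun w hw => (hker w).1 hw
  refine hC.base.of_injective _ _ (QuotientGroup.lift ((InnS K).subgroupOf W) Ψ hle) ?_
    (hC.base.prod _ _ h1 (C_cyc hC.base φ))
  rw [injective_iff_map_eq_one]
  intro a ha
  obtain ⟨w, rfl⟩ := QuotientGroup.mk_surjective a
  exact (QuotientGroup.eq_one_iff w).2 ((hker w).2 ha)

/-- the stabilizer modulo inner automorphisms -/
theorem stab_quot (hC : ClosedE C) (hZ : Subgroup.center K = ⊥)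
    (hZ' : Subgroup.center (N ⧸ K) = ⊥) (h1 : C (OutG K)) (h2 : C (OutG (N ⧸ K))) :
    C (stab K ⧸ InnS K) := by
  obtain ⟨π, hπ⟩ : ∃ π : stab K ⧸ InnS K →* OutG (N ⧸ K),
    π = QuotientGroup.map (InnS K) (Inn (N ⧸ K)) (quo K) (innS_le K) := ⟨_, rfl⟩
  have hπm : ∀ σ : stab K, π (σ : stab K ⧸ InnS K) = ((quo K σ : MulAut (N ⧸ K)) : OutG (N ⧸ K)) :=
    fun σ => by rw [hπ]; rfl
  have hkerm : ∀ σ : stab K, (σ : stab K ⧸ InnS K) ∈ π.ker ↔ quo K σ ∈ Inn (N ⧸ K) := fun σ => by
    rw [MonoidHom.mem_ker, hπm, QuotientGroup.eq_one_iff]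
  have himg : ∀ φ : stab K, (((Subgroup.zpowers (quo K φ)).comap (quo K)).map
      (QuotientGroup.mk' (InnS K))) = π.ker ⊔ Subgroup.zpowers (φ : stab K ⧸ InnS K) := by
    intro φ
    apply le_antisymm
    · rintro _ ⟨σ, ⟨j, hj⟩, rfl⟩
      have h3 : quo K φ ^ j = quo K σ := hj
      have h4 : ((σ * (φ ^ j)⁻¹ : stab K) : stab K ⧸ InnS K) ∈ π.ker := by
        rw [hkerm, map_mul, map_inv, map_zpow, h3, mul_inv_cancel]
        exact one_mem _
      have h5 : QuotientGroup.mk' (InnS K) σ =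
          ((σ * (φ ^ j)⁻¹ : stab K) : stab K ⧸ InnS K) * (φ : stab K ⧸ InnS K) ^ j := by
        rw [← QuotientGroup.mk_zpow, ← QuotientGroup.mk_mul, inv_mul_cancel_right]
        rfl
      rw [h5]
      exact mul_mem (Subgroup.mem_sup_left h4) (Subgroup.mem_sup_right ⟨j, rfl⟩)
    · refine sup_le ?_ ?_
      · intro x hx
        obtain ⟨σ, rfl⟩ := QuotientGroup.mk_surjective x
        obtain ⟨q, hq⟩ := (hkerm σ).1 hx
        obtain ⟨n, rfl⟩ := QuotientGroup.mk_surjective q
        refine ⟨σ * (cj K n)⁻¹, ?_, ?_⟩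
        · show quo K (σ * (cj K n)⁻¹) ∈ Subgroup.zpowers (quo K φ)
          rw [map_mul, map_inv, quo_cj, ← hq]
          have h6 : (MulAut.conj (n : N ⧸ K) : MulAut (N ⧸ K)) * (MulAut.conj (n : N ⧸ K))⁻¹ = 1 :=
            mul_inv_cancel _
          rw [h6]
          exact one_mem _
        · refine QuotientGroup.eq.2 ?_
          have h6 : (σ * (cj K n)⁻¹)⁻¹ * σ = cj K n := by group
          rw [h6]
          exact cj_mem K n
      · rw [Subgroup.zpowers_le]
        exact ⟨φ, Subgroup.mem_zpowers _, rfl⟩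
  have hN : C π.ker := by
    have h3 := key_embed K hC hZ hZ' h1 (quo K 1) (fun j _ => by rw [map_one, one_zpow])
    rw [himg 1] at h3
    have h4 : Subgroup.zpowers ((1 : stab K) : stab K ⧸ InnS K) = ⊥ := by
      rw [QuotientGroup.mk_one, Subgroup.zpowers_one_eq_bot]
    rw [h4, sup_bot_eq] at h3
    exact h3
  refine Pool.Agent.Y529.FJ.t_ext C hC (stab K ⧸ InnS K) π.ker hN ?_ ?_
  · exact hC.base.of_injective _ _ (QuotientGroup.kerLift π) (QuotientGroup.kerLift_injective _) h2
  · intro g hg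
    obtain ⟨φ, rfl⟩ := QuotientGroup.mk_surjective g
    rw [← himg φ]
    refine key_embed K hC hZ hZ' h1 (quo K φ) ?_
    intro j hj
    have h3 : ((φ ^ j : stab K) : stab K ⧸ InnS K) ∈ π.ker := by
      rw [hkerm, map_zpow]
      exact hj
    rcases Int.lt_trichotomy j 0 with hj0 | hj0 | hj0
    · exfalso
      refine hg (-j).toNat (by omega) ?_
      have h4 : ((φ : stab K ⧸ InnS K) ^ (-j).toNat) = ((φ ^ j : stab K) : stab K ⧸ InnS K)⁻¹ := by
        rw [QuotientGroup.mk_zpow, ← zpow_neg, ← zpow_natCast, Int.toNat_of_nonneg (by omega)]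
      rw [h4]
      exact inv_mem h3
    · rw [hj0, zpow_zero]
    · exfalso
      refine hg j.toNat (by omega) ?_
      have h4 : ((φ : stab K ⧸ InnS K) ^ j.toNat) = ((φ ^ j : stab K) : stab K ⧸ InnS K) := by
        rw [QuotientGroup.mk_zpow, ← zpow_natCast, Int.toNat_of_nonneg (by omega)]
      rw [h4]
      exact h3

/-- **the step** -/
theorem outC_step (hC : ClosedE C) (hs : (stab K).FiniteIndex) (hZ : Subgroup.center K = ⊥)
    (hZ' : Subgroup.center (N ⧸ K) = ⊥) (h1 : C (OutG K)) (h2 : C (OutG (N ⧸ K))) :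
    C (OutG N) := by
  have h3 : C (stab K ⧸ (Inn N).subgroupOf (stab K)) := stab_quot K hC hZ hZ' h1 h2
  have h4 := sub_quotC hC (Inn N) (stab K) h3
  have h5 : ((stab K).map (QuotientGroup.mk' (Inn N))).FiniteIndex :=
    ⟨fun h => hs.index_ne_zero (Nat.eq_zero_of_zero_dvd (h ▸
      (stab K).index_map_dvd (QuotientGroup.mk'_surjective (Inn N))))⟩
  exact hC.base.finiteIndex _ _ h5 h4

end step

/-- iterated extensions of groups with trivial center whose outer automorphism groups are in `C` -/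
inductive OC (C : ∀ (G : Type) [Group G], Prop) : ∀ (N : Type) [Group N], Prop
  | base (N : Type) [Group N] : Group.FG N → Subgroup.center N = ⊥ → C (OutG N) → OC C N
  | step (N : Type) [Group N] (K : Subgroup N) [K.Normal] : OC C K → Spread (N ⧸ K) →
      C (OutG (N ⧸ K)) → OC C N

theorem oc_out (hC : ClosedE C) {N : Type} [Group N] (h : OC C N) :
    Group.FG N ∧ Subgroup.center N = ⊥ ∧ C (OutG N) := by
  induction h with
  | base N h1 h2 h3 => exact ⟨h1, h2, h3⟩
  | step N K _ h2 h3 ih =>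
    obtain ⟨i1, i2, i3⟩ := ih
    have h5 : Group.FG N := fg_ext K i1 h2.fg
    have h6 := (Group.fg_iff_subgroup_fg K).1 i1
    exact ⟨h5, center_ext K i2 h2.vc.center,
      outC_step K hC (stab_spread N K h6 h2) i2 h2.vc.center i3 h3⟩

end Pool.Agent.Helper687_Borel
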