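import Pool.Agent.Helper687_Borel.Out

/-!
# Outer automorphism groups of iterated extensions with spread quotients
-/

set_option autoImplicit false

namespace Pool.Agent.Helper687_Borel

variable {E : ∀ (G : Type) [Group G], Prop}

/-- iterated extensions of groups with trivial center in `E` whose outer automorphism groups are in `E` -/
inductive OT (E : ∀ (G : Type) [Group G], Prop) : ∀ (N : Type) [Group N], Prop
  | base (N : Type) [Group N] : Group.FG N → Subgroup.center N = ⊥ → E N → E (OutG N) → OT E N
  | step (N : Type) [Group N] (K : Subgroup N) [K.Normal] : OT E K → Spread (N ⧸ K) → E (N ⧸ K) →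
      E (OutG (N ⧸ K)) → OT E N

theorem center_ext {N : Type} [Group N] (K : Subgroup N) [hKn : K.Normal]
    (hZ : Subgroup.center K = ⊥) (hZ' : Subgroup.center (N ⧸ K) = ⊥) : Subgroup.center N = ⊥ := by
  rw [Subgroup.eq_bot_iff_forall]
  intro z hz
  have h1 : (z : N ⧸ K) ∈ Subgroup.center (N ⧸ K) := by
    rw [Subgroup.mem_center_iff]
    intro y
    obtain ⟨y, rfl⟩ := QuotientGroup.mk_surjective y
    rw [← QuotientGroup.mk_mul, ← QuotientGroup.mk_mul, Subgroup.mem_center_iff.1 hz y]
  rw [hZ', Subgroup.mem_bot] at h1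
  have h2 : z ∈ K := (QuotientGroup.eq_one_iff z).1 h1
  have h3 : (⟨z, h2⟩ : K) ∈ Subgroup.center K := by
    rw [Subgroup.mem_center_iff]
    intro x
    exact Subtype.ext (Subgroup.mem_center_iff.1 hz x)
  rw [hZ, Subgroup.mem_bot] at h3
  exact congrArg Subtype.val h3

theorem aut_of_out (hE : ECl E) {N : Type} [Group N] (hZ : Subgroup.center N = ⊥) (h1 : E N)
    (h2 : E (OutG N)) : E (MulAut N) := by
  have hi : Function.Injective (MulAut.conj : N →* MulAut N) := by
    rw [injective_iff_map_eq_one]
    intro n hn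
    have h3 : n ∈ Subgroup.center N := by
      rw [Subgroup.mem_center_iff]
      intro x
      have h4 : n * x * n⁻¹ = x := by
        have : (MulAut.conj n : MulAut N) x = x := by rw [hn]; rfl
        exact this
      calc x * n = n * x * n⁻¹ * n := by rw [h4]
        _ = n * x := by group
    rw [hZ, Subgroup.mem_bot] at h3
    exact h3
  exact hE.ext (MulAut N) (Inn N) (hE.equiv (MonoidHom.ofInjective hi) h1) h2

theorem ot_out (hE : ECl E) {N : Type} [Group N] (h : OT E N) :
    Group.FG N ∧ Subgroup.center N = ⊥ ∧ E N ∧ E (OutG N) := by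
  induction h with
  | base N h1 h2 h3 h4 => exact ⟨h1, h2, h3, h4⟩
  | step N K _ h2 h3 h4 ih =>
    obtain ⟨i1, i2, i3, i4⟩ := ih
    have h5 : Group.FG N := fg_ext K i1 h2.fg
    have h6 := (Group.fg_iff_subgroup_fg K).1 i1
    exact ⟨h5, center_ext K i2 h2.vc.center, hE.ext N K i3 h3,
      out_step hE N K (stab_spread N K h6 h2) i2 h2.vc.center i4 h4⟩

/-- the centralizer decides -/
theorem e_iff (hE : ECl E) {G : Type} [Group G] (N : Subgroup G) [hNn : N.Normal]
    (h : E (MulAut N)) : E G ↔ E (Subgroup.centralizer (N : Set G)) :=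
  ⟨fun hG => hE.of_injective _ _ (Subgroup.subtype _) (Subgroup.subtype_injective _) hG,
    fun hZ => hE.ext G (Subgroup.centralizer (N : Set G)) hZ (d_quot hE.dcl N h)⟩

end Pool.Agent.Helper687_Borel
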