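import Pool.Agent.Helper687_Borel.Lift
import Pool.Agent.Y473.MC.Cover2
import Pool.Agent.Y473.MC.Herm3
import Pool.Agent.H698R4.Malcev

/-!
# Fundamental groups of closed oriented surfaces of genus at least two are spread
-/

set_option autoImplicit false

namespace Pool.Agent.Helper687_Borel

open Pool.Agent.Y473.MC (Surf Gen surfRel cm)

section Eqv

variable {ι S : Type} [Group S] (π : FreeGroup ι →* S) (H : Subgroup S) (r : FreeGroup ι)

/-- equivalent elements: they act in the same way modulo the image of the relator map -/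
def Eqv (s t : S) : Prop := ∀ m : Mz H ℤ, s • m - t • m ∈ Jr π H r

variable {π H r}

theorem Eqv.symm {s t : S} (h : Eqv π H r s t) : Eqv π H r t s := fun m => by
  have := (Jr π H r).neg_mem (h m)
  rwa [neg_sub] at this

theorem Eqv.trans {s t u : S} (h : Eqv π H r s t) (h' : Eqv π H r t u) : Eqv π H r s u := fun m => by
  have := (Jr π H r).add_mem (h m) (h' m)
  rwa [sub_add_sub_cancel] at this

theorem Eqv.mul {s t : S} (h : Eqv π H r s t) (u : S) : Eqv π H r (s * u) (t * u) := fun m => by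
  have := h (u • m)
  rwa [← mul_smul, ← mul_smul] at this

theorem Eqv.refl (s : S) : Eqv π H r s s := fun m => by
  rw [sub_self]
  exact (Jr π H r).zero_mem

end Eqv

theorem der_cm {ι S V : Type} [Group S] [AddCommGroup V] [DistribMulAction S V] (π : FreeGroup ι →* S)
    (w : ι → V) (x y : FreeGroup ι) : der π w (cm x y) = der π w x + π x • der π w y -
      π (x * y * x⁻¹) • der π w x - π (cm x y) • der π w y := by
  have h1 : π (x * y) • (π x)⁻¹ • der π w x = π (x * y * x⁻¹) • der π w x := by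
    rw [← mul_smul, map_mul π (x * y), map_inv]
  have h2 : π (x * y * x⁻¹) • (π y)⁻¹ • der π w y = π (cm x y) • der π w y := by
    rw [← mul_smul, cm, map_mul π (x * y * x⁻¹), map_inv]
  rw [cm, der_mul, der_mul, der_mul, der_inv, der_inv, smul_neg, smul_neg, h1, h2]
  rw [cm]
  abel

/-- the generator `a_i` -/
def ga (g i : ℕ) : FreeGroup (Gen g) := if h : i < g then FreeGroup.of (⟨i, h⟩, false) else 1

/-- the generator `b_i` -/
def gb (g i : ℕ) : FreeGroup (Gen g) := if h : i < g then FreeGroup.of (⟨i, h⟩, true) else 1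

/-- the partial products of commutators -/
def Pp (g j : ℕ) : FreeGroup (Gen g) := ((List.range j).map fun i => cm (ga g i) (gb g i)).prod

theorem Pp_zero (g : ℕ) : Pp g 0 = 1 := rfl

theorem Pp_succ (g j : ℕ) : Pp g (j + 1) = Pp g j * cm (ga g j) (gb g j) := by
  rw [Pp, List.prod_range_succ, Pp]

theorem Pp_self (g : ℕ) : surfRel g = Pp g g := by
  rw [surfRel, Pp]
  congr 1
  refine List.ext_getElem (by simp) (fun i h1 h2 => ?_)
  have hi : i < g := by simpa using h1
  simp [ga, gb, hi]

theorem Pp_mem (g j : ℕ) : Pp g j ∈ commutator (FreeGroup (Gen g)) := by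
  induction j with
  | zero => exact one_mem _
  | succ j ih =>
    rw [Pp_succ]
    refine mul_mem ih ?_
    rw [commutator_def]
    exact Subgroup.commutator_mem_commutator (Subgroup.mem_top _) (Subgroup.mem_top _)

theorem der_Pp {g : ℕ} {S V : Type} [Group S] [AddCommGroup V] [DistribMulAction S V]
    (π : FreeGroup (Gen g) →* S) (w : Gen g → V) (k : ℕ)
    (hw : ∀ i, i ≠ k → der π w (cm (ga g i) (gb g i)) = 0) (j : ℕ) :
    der π w (Pp g j) = if k < j then π (Pp g k) • der π w (cm (ga g k) (gb g k)) else 0 := by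
  induction j with
  | zero => rw [Pp_zero, der_one, if_neg (Nat.not_lt_zero k)]
  | succ j ih =>
    rw [Pp_succ, der_mul, ih]
    rcases lt_trichotomy k j with h | h | h
    · rw [if_pos h, if_pos (by omega), hw j (by omega), smul_zero, add_zero]
    · subst h
      rw [if_neg (lt_irrefl k), if_pos (Nat.lt_succ_self k), zero_add]
    · rw [if_neg (by omega), if_neg (by omega), hw j (by omega), smul_zero, add_zero]

section Main

variable {g : ℕ} {S : Type} [Group S] (π : FreeGroup (Gen g) →* S) (H : Subgroup S)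

theorem eqv_one (k : ℕ) (hk : k < g) : Eqv π H (surfRel g) (π (Pp g k))
    (π (Pp g k) * π (ga g k * gb g k * (ga g k)⁻¹)) := by
  classical
  intro m
  obtain ⟨w, hw⟩ : ∃ w : Gen g → Mz H ℤ, w = fun x => if x = (⟨k, hk⟩, false) then m else 0 := ⟨_, rfl⟩
  have ha : ∀ i, der π w (ga g i) = if i = k then m else 0 := by
    intro i
    by_cases hi : i < g
    · rw [ga, dif_pos hi, der_of, hw]
      simp
    · rw [ga, dif_neg hi, der_one, if_neg (by omega)]
  have hb : ∀ i, der π w (gb g i) = 0 := by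
    intro i
    by_cases hi : i < g
    · rw [gb, dif_pos hi, der_of, hw]
      simp
    · rw [gb, dif_neg hi, der_one]
  have h1 : der π w (surfRel g) = π (Pp g k) • der π w (cm (ga g k) (gb g k)) := by
    rw [Pp_self, der_Pp π w k (fun i hi => by
      rw [der_cm, ha, hb, if_neg hi]; simp), if_pos hk]
  rw [der_cm, ha, hb, if_pos rfl, smul_zero, smul_zero, add_zero, sub_zero, smul_sub, ← mul_smul] at h1
  exact ⟨w, h1⟩

theorem eqv_two (k : ℕ) (hk : k < g) : Eqv π H (surfRel g) (π (Pp g k) * π (ga g k))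
    (π (Pp g (k + 1))) := by
  classical
  intro m
  obtain ⟨w, hw⟩ : ∃ w : Gen g → Mz H ℤ, w = fun x => if x = (⟨k, hk⟩, true) then m else 0 := ⟨_, rfl⟩
  have hb : ∀ i, der π w (gb g i) = if i = k then m else 0 := by
    intro i
    by_cases hi : i < g
    · rw [gb, dif_pos hi, der_of, hw]
      simp
    · rw [gb, dif_neg hi, der_one, if_neg (by omega)]
  have ha : ∀ i, der π w (ga g i) = 0 := by
    intro i
    by_cases hi : i < g
    · rw [ga, dif_pos hi, der_of, hw]
      simp
    · rw [ga, dif_neg hi, der_one]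
  have h1 : der π w (surfRel g) = π (Pp g k) • der π w (cm (ga g k) (gb g k)) := by
    rw [Pp_self, der_Pp π w k (fun i hi => by
      rw [der_cm, ha, hb, if_neg hi]; simp), if_pos hk]
  rw [der_cm, ha, hb, if_pos rfl, smul_zero, zero_add, sub_zero, smul_sub, ← mul_smul,
    ← mul_smul, ← map_mul π (Pp g k) (cm _ _), ← Pp_succ] at h1
  exact ⟨w, h1⟩

theorem eqv_step (k : ℕ) (hk : k < g) : Eqv π H (surfRel g) (π (Pp g k) * π (ga g k)) (π (Pp g k)) ∧
    Eqv π H (surfRel g) (π (Pp g k) * (π (gb g k))⁻¹) (π (Pp g k)) ∧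
    Eqv π H (surfRel g) (π (Pp g (k + 1))) (π (Pp g k)) := by
  have hA := eqv_one π H k hk
  have hB := eqv_two π H k hk
  obtain ⟨P, hP⟩ : ∃ P, P = π (Pp g k) := ⟨_, rfl⟩
  obtain ⟨a, ha⟩ : ∃ a, a = π (ga g k) := ⟨_, rfl⟩
  obtain ⟨b, hb⟩ : ∃ b, b = π (gb g k) := ⟨_, rfl⟩
  have hP' : π (Pp g (k + 1)) = P * (a * b * a⁻¹ * b⁻¹) := by
    rw [Pp_succ, map_mul, cm, map_mul, map_mul, map_mul, map_inv, map_inv, hP, ha, hb]
  have hab : π (ga g k * gb g k * (ga g k)⁻¹) = a * b * a⁻¹ := by
    rw [map_mul, map_mul, map_inv, ha, hb]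
  rw [hab, ← hP] at hA
  rw [hP', ← hP, ← ha] at hB
  rw [hP', ← hP, ← ha, ← hb]
  have h1 := hB.mul b
  have h2 : P * (a * b * a⁻¹ * b⁻¹) * b = P * (a * b * a⁻¹) := by group
  rw [h2] at h1
  have h3 : Eqv π H (surfRel g) (P * a * b) P := h1.trans hA.symm
  have h4 := hA.mul a
  have h5 : P * (a * b * a⁻¹) * a = P * a * b := by group
  rw [h5] at h4
  have h6 : Eqv π H (surfRel g) (P * a) P := h4.trans h3
  have h7 : Eqv π H (surfRel g) (P * (a * b * a⁻¹ * b⁻¹)) P := hB.symm.trans h6
  have h8 := hA.mul b⁻¹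
  have h9 : P * (a * b * a⁻¹) * b⁻¹ = P * (a * b * a⁻¹ * b⁻¹) := by group
  rw [h9] at h8
  exact ⟨h6, h8.trans h7, h7⟩

theorem eqv_P (k : ℕ) (hk : k ≤ g) : Eqv π H (surfRel g) (π (Pp g k)) 1 := by
  induction k with
  | zero => rw [Pp_zero, map_one]; exact Eqv.refl 1
  | succ k ih => exact (eqv_step π H k hk).2.2.trans (ih (by omega))

theorem eqv_gen (x : Gen g) : Eqv π H (surfRel g) (π (FreeGroup.of x)) 1 := by
  obtain ⟨⟨k, hk⟩, e⟩ := x
  have h0 := eqv_P π H k hk.le
  obtain ⟨h1, h2, -⟩ := eqv_step π H k hk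
  cases e with
  | false =>
    have h3 := h0.mul (π (ga g k))
    rw [one_mul] at h3
    have h4 : ga g k = FreeGroup.of (⟨k, hk⟩, false) := by rw [ga, dif_pos hk]
    rw [← h4]
    exact h3.symm.trans (h1.trans h0)
  | true =>
    have h3 := h0.mul (π (gb g k))⁻¹
    rw [one_mul] at h3
    have h4 : gb g k = FreeGroup.of (⟨k, hk⟩, true) := by rw [gb, dif_pos hk]
    rw [← h4]
    have h5 := (h3.symm.trans (h2.trans h0)).mul (π (gb g k))
    rw [inv_mul_cancel, one_mul] at h5
    exact h5.symm

theorem eqv_all (x : FreeGroup (Gen g)) : Eqv π H (surfRel g) (π x) 1 := by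
  induction x using FreeGroup.induction_on with
  | C1 => rw [map_one]; exact Eqv.refl 1
  | of i => exact eqv_gen π H i
  | inv_of i ih =>
    have h := (eqv_gen π H i).mul (π (FreeGroup.of i))⁻¹
    rw [mul_inv_cancel, one_mul] at h
    rw [map_inv]
    exact h.symm
  | mul x y hx hy =>
    have h := hx.mul (π y)
    rw [one_mul] at h
    rw [map_mul]
    exact h.trans hy

end Main

theorem surf_ker (g : ℕ) : (PresentedGroup.mk ({surfRel g} : Set (FreeGroup (Gen g)))).ker =
    Subgroup.normalClosure {surfRel g} := QuotientGroup.ker_mk' _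

theorem surf_surj (g : ℕ) : Function.Surjective
    (PresentedGroup.mk ({surfRel g} : Set (FreeGroup (Gen g)))) := QuotientGroup.mk'_surjective _

/-- finite index subgroups of closed oriented surface groups have torsion-free abelianization, in the
form of a lifting property -/
theorem surf_lift (g : ℕ) (H : Subgroup (Surf g)) (hH : H.FiniteIndex) (p : ℕ) (hp : p.Prime)
    (θ : H →* Multiplicative (ZMod p)) : ∃ Θ : H →* Multiplicative ℤ, (redP p).comp Θ = θ := by
  refine lift_of_trans (PresentedGroup.mk ({surfRel g} : Set (FreeGroup (Gen g)))) H (surf_surj g)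
    (surfRel g) (surf_ker g) (by rw [Pp_self]; exact Pp_mem g g) (fun s m => ?_) p hp θ
  obtain ⟨x, rfl⟩ := surf_surj g s
  have h := eqv_all (PresentedGroup.mk ({surfRel g} : Set (FreeGroup (Gen g)))) H x m
  rwa [one_smul] at h

/-- surface groups are residually finite -/
theorem surf_rf (g : ℕ) (hg : 2 ≤ g) (s : Surf g) (hs : s ≠ 1) :
    ∃ (Q : Type) (_ : Group Q) (_ : Finite Q) (f : Surf g →* Q), f s ≠ 1 := by
  obtain ⟨j, hj⟩ := Pool.Agent.Y473.MC.exists_nice hg
  let π := Pool.Agent.Y473.MC.prm 0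
  let ψ : Surf g →* Matrix (Fin 2) (Fin 2) ℂ :=
    { toFun := fun x => (π.rep (j x)).1
      map_one' := by rw [map_one, map_one]; rfl
      map_mul' := fun x y => by rw [map_mul, map_mul]; rfl }
  refine Pool.Agent.H698R4.malcev (ι := Gen g) (fun x => PresentedGroup.of x)
    (PresentedGroup.closure_range_of _) ψ s fun h => hs ?_
  have h1 : π.rep (j s) = 1 := Subtype.ext h
  have h2 := π.rep_faithful (j s) (Or.inl h1)
  exact (injective_iff_map_eq_one j).1 hj.inj s h2

/-- **closed oriented surface groups of genus at least two are spread** -/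
theorem spread_surf (g : ℕ) (hg : 2 ≤ g) : Spread (Surf g) := by
  refine spread_of_def (SepC.of_lift (surf_rf g hg) (fun H hH p hp θ => surf_lift g H hH p hp θ))
    (ι := Gen g) (κ := Unit) (by simp; omega) _ (surf_surj g) (fun _ => surfRel g) ?_
  rw [surf_ker, Set.range_const]

end Pool.Agent.Helper687_Borel
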