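import Pool.Agent.Helper687_Borel.FJ

/-!
# Towers

Subgroups of finite index, and the class of groups which are obtained from finitely generated groups all of
whose mapping tori are in `C` by extensions with spread quotients and by finite extensions.
-/

set_option autoImplicit false

namespace Pool.Agent.Helper687_Borel

open Pool.Agent.Y110.FJ

variable {C : ∀ (G : Type) [Group G], Prop}

/-- a finitely generated group has only finitely many subgroups of a given index -/
theorem finite_index (N : Type) [Group N] [hN : Group.FG N] (n : ℕ) (hn : n ≠ 0) :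
    {K : Subgroup N | K.index = n}.Finite := by
  classical
  obtain ⟨T, hT⟩ := Group.fg_def.1 hN
  -- finitely many homomorphisms to the symmetric group
  have h1 : Finite (N →* Equiv.Perm (Fin n)) := by
    refine Finite.of_injective (fun (f : N →* Equiv.Perm (Fin n)) (t : T) => f t) ?_
    intro f f' hff
    refine MonoidHom.eq_of_eqOn_dense hT ?_
    intro t ht
    exact congrFun hff ⟨t, ht⟩
  let F : (N →* Equiv.Perm (Fin n)) × Fin n → Subgroup N := fun p =>
    { carrier := {x | p.1 x p.2 = p.2}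
      mul_mem' := fun {x y} hx hy => by
        show p.1 (x * y) p.2 = p.2
        rw [map_mul, Equiv.Perm.mul_apply, hy, hx]
      one_mem' := by
        show p.1 1 p.2 = p.2
        rw [map_one]; rfl
      inv_mem' := fun {x} hx => by
        show p.1 x⁻¹ p.2 = p.2
        rw [map_inv, Equiv.Perm.inv_eq_iff_eq]
        exact Eq.symm hx }
  refine (Set.finite_range F).subset ?_
  intro K hK
  have hK' : K.index = n := hK
  have hKf : K.FiniteIndex := ⟨by rw [hK']; exact hn⟩
  have h2 : Nat.card (N ⧸ K) = n := hK'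
  have h3 : Finite (N ⧸ K) := inferInstance
  let e : N ⧸ K ≃ Fin n := (Finite.equivFin (N ⧸ K)).trans (finCongr h2)
  let f : N →* Equiv.Perm (Fin n) :=
    (e.permCongrHom.toMonoidHom).comp (MulAction.toPermHom N (N ⧸ K))
  refine ⟨(f, e ((1 : N) : N ⧸ K)), ?_⟩
  ext x
  show f x (e ((1 : N) : N ⧸ K)) = e ((1 : N) : N ⧸ K) ↔ x ∈ K
  have h4 : f x (e ((1 : N) : N ⧸ K)) = e ((x : N) : N ⧸ K) := by
    show e (MulAction.toPermHom N (N ⧸ K) x (e.symm (e ((1 : N) : N ⧸ K)))) = _
    rw [e.symm_apply_apply]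
    show e (((x * 1 : N)) : N ⧸ K) = _
    rw [mul_one]
  rw [h4, e.apply_eq_iff_eq, eq_comm, QuotientGroup.eq, inv_one, one_mul]

/-- **finite extensions** -/
theorem fin_mt (hC : ClosedE C) (N : Type) [Group N] [hNfg : Group.FG N] (K : Subgroup N)
    [hKf : K.FiniteIndex] (h1 : MT C K) : MT C N := by
  intro α
  obtain ⟨m, hm, hαm⟩ : ∃ m : ℕ, 0 < m ∧ K.map (α ^ m : MulAut N).toMonoidHom = K := by
    have hmem : ∀ i : ℕ, K.map (α ^ i : MulAut N).toMonoidHom ∈
        {L : Subgroup N | L.index = K.index} := by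
      intro i
      exact Subgroup.index_map_of_bijective (α ^ i : MulAut N).bijective K
    obtain ⟨i, j, hij, h⟩ := Set.Finite.exists_lt_map_eq_of_forall_mem hmem
      (finite_index N K.index hKf.index_ne_zero)
    refine ⟨j - i, by omega, ?_⟩
    have h3 : (α ^ j : MulAut N).toMonoidHom = ((α ^ i : MulAut N).toMonoidHom).comp
        (α ^ (j - i) : MulAut N).toMonoidHom := by
      have h4 : α ^ j = α ^ i * α ^ (j - i) := by rw [← pow_add]; congr 1; omega
      rw [h4]
      rfl
    rw [h3, ← Subgroup.map_map] at h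
    exact (Subgroup.map_injective (f := (α ^ i : MulAut N).toMonoidHom)
      (α ^ i : MulAut N).injective h).symm
  obtain ⟨g, hg⟩ : ∃ g : N ⋊[zpowersHom (MulAut N) α] Multiplicative ℤ,
    g = SemidirectProduct.inr (Multiplicative.ofAdd (m : ℤ)) := ⟨_, rfl⟩
  obtain ⟨ι, hι⟩ : ∃ ι : N →* N ⋊[zpowersHom (MulAut N) α] Multiplicative ℤ,
    ι = SemidirectProduct.inl := ⟨_, rfl⟩
  have hιi : Function.Injective ι := by rw [hι]; exact SemidirectProduct.inl_injective
  have hgι : ∀ n : N, g * ι n * g⁻¹ = ι ((α ^ m) n) := by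
    intro n
    rw [hg, hι, ← map_inv, ← SemidirectProduct.inl_aut, zpowersHom_apply, toAdd_ofAdd, zpow_natCast]
  obtain ⟨G0, hG0⟩ : ∃ G0, G0 = K.map ι ⊔ Subgroup.zpowers g := ⟨_, rfl⟩
  have hgG0 : ∀ q : ℤ, g ^ q ∈ G0 := fun q => by
    rw [hG0]; exact Subgroup.mem_sup_right ⟨q, rfl⟩
  have hKG0 : ∀ k ∈ K, ι k ∈ G0 := fun k hk => by
    rw [hG0]; exact Subgroup.mem_sup_left ⟨k, hk, rfl⟩
  have hfin : G0.FiniteIndex := by
    rw [Subgroup.finiteIndex_iff_finite_quotient]
    let t : ℤ → N ⋊[zpowersHom (MulAut N) α] Multiplicative ℤ := fun i =>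
      SemidirectProduct.inr (Multiplicative.ofAdd i)
    let F : Fin m × (N ⧸ K) → (N ⋊[zpowersHom (MulAut N) α] Multiplicative ℤ) ⧸ G0 := fun p =>
      Quotient.liftOn p.2 (fun n => ((t (p.1 : ℕ) * ι n :
        N ⋊[zpowersHom (MulAut N) α] Multiplicative ℤ) :
          (N ⋊[zpowersHom (MulAut N) α] Multiplicative ℤ) ⧸ G0)) (fun a b hab => by
          have h2 : a⁻¹ * b ∈ K := QuotientGroup.leftRel_apply.1 hab
          refine QuotientGroup.eq.2 ?_
          have h3 : (t (p.1 : ℕ) * ι a)⁻¹ * (t (p.1 : ℕ) * ι b) = ι (a⁻¹ * b) := by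
            rw [map_mul, map_inv]; group
          rw [h3]
          exact hKG0 _ h2)
    refine Finite.of_surjective F ?_
    intro y
    obtain ⟨x, rfl⟩ := QuotientGroup.mk_surjective y
    obtain ⟨j, hj⟩ : ∃ j : ℤ, x.right = Multiplicative.ofAdd j := ⟨_, rfl⟩
    obtain ⟨i, hi⟩ : ∃ i : ℕ, (i : ℤ) = j % m := ⟨(j % m).toNat, Int.toNat_of_nonneg
      (Int.emod_nonneg _ (by exact_mod_cast hm.ne'))⟩
    have him : i < m := by
      have := Int.emod_lt_of_pos j (b := (m : ℤ)) (by exact_mod_cast hm)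
      omega
    obtain ⟨n, hn⟩ : ∃ n : N, ι n = (t i)⁻¹ * x * (g ^ (j / m))⁻¹ := by
      have h2 : (t i)⁻¹ * x * (g ^ (j / m))⁻¹ ∈
          (SemidirectProduct.inl (φ := zpowersHom (MulAut N) α)).range := by
        rw [SemidirectProduct.range_inl_eq_ker_rightHom, MonoidHom.mem_ker, map_mul, map_mul,
          map_inv, map_inv, map_zpow, hg]
        show (Multiplicative.ofAdd (i : ℤ))⁻¹ * x.right * ((Multiplicative.ofAdd (m : ℤ)) ^ (j / m))⁻¹ = 1
        rw [hj]
        apply Multiplicative.toAdd.injective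
        rw [toAdd_mul, toAdd_mul, toAdd_inv, toAdd_inv, toAdd_zpow, toAdd_ofAdd, toAdd_ofAdd,
          toAdd_ofAdd, toAdd_one, smul_eq_mul, hi]
        have := Int.emod_add_mul_ediv j m
        linarith [mul_comm (j / (m : ℤ)) (m : ℤ)]
      obtain ⟨n, hn⟩ := h2
      exact ⟨n, by rw [hι]; exact hn⟩
    refine ⟨(⟨i, him⟩, (n : N ⧸ K)), ?_⟩
    show ((t i * ι n : N ⋊[zpowersHom (MulAut N) α] Multiplicative ℤ) :
      (N ⋊[zpowersHom (MulAut N) α] Multiplicative ℤ) ⧸ G0) = _
    rw [hn]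
    refine QuotientGroup.eq.2 ?_
    have h3 : (t i * ((t i)⁻¹ * x * (g ^ (j / m))⁻¹))⁻¹ * x = g ^ (j / m) := by group
    rw [h3]
    exact hgG0 _
  refine hC.base.finiteIndex _ G0 hfin ?_
  rw [hG0]
  refine mt_sup hC (K.map ι) (mt_equiv hC (K.equivMapOfInjective ι hιi) h1) g ?_
  intro x
  constructor
  · rintro ⟨k, hk, rfl⟩
    rw [hgι]
    refine ⟨(α ^ m) k, ?_, rfl⟩
    show (α ^ m) k ∈ K
    rw [← hαm]
    exact ⟨k, hk, rfl⟩
  · rintro ⟨k, hk, hkx⟩
    have hk' : k ∈ K.map (α ^ m : MulAut N).toMonoidHom := by rw [hαm]; exact hk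
    obtain ⟨k', hk', rfl⟩ := hk'
    have h3 : g * ι k' * g⁻¹ = g * x * g⁻¹ := by rw [hgι]; exact hkx
    have h4 : ι k' = x := mul_left_cancel (mul_right_cancel h3)
    exact ⟨k', hk', h4⟩

theorem fg_fin {N : Type} [Group N] (K : Subgroup N) [hKf : K.FiniteIndex] (hK : Group.FG K) :
    Group.FG N := by
  classical
  obtain ⟨T, hT⟩ := (Group.fg_iff_subgroup_fg K).1 hK
  have h1 : Finite (N ⧸ K) := inferInstance
  have h2 := Fintype.ofFinite (N ⧸ K)
  let U : Finset N := Finset.univ.image (fun q : N ⧸ K => q.out)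
  refine Group.fg_def.2 ⟨T ∪ U, ?_⟩
  rw [eq_top_iff]
  intro x _
  have h3 : ((x : N ⧸ K).out)⁻¹ * x ∈ K := by
    rw [← QuotientGroup.eq]
    exact Quotient.out_eq _
  have h4 : ((x : N ⧸ K).out) ∈ Subgroup.closure ((T ∪ U : Finset N) : Set N) := by
    refine Subgroup.subset_closure ?_
    rw [Finset.coe_union]
    exact Or.inr (Finset.mem_coe.2 (Finset.mem_image_of_mem _ (Finset.mem_univ _)))
  have h5 : K ≤ Subgroup.closure ((T ∪ U : Finset N) : Set N) := by
    refine hT.ge.trans ?_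
    exact Subgroup.closure_mono (by simp)
  have h6 := mul_mem h4 (h5 h3)
  rwa [mul_inv_cancel_left] at h6

/-- groups which are obtained from finitely generated groups all of whose mapping tori are in `C` by
extensions with spread quotients all of whose mapping tori are in `C` and by finite extensions -/
inductive Tower (C : ∀ (G : Type) [Group G], Prop) : ∀ (N : Type) [Group N], Prop
  | base (N : Type) [Group N] : Group.FG N → MT C N → Tower C N
  | step (N : Type) [Group N] (K : Subgroup N) [K.Normal] : Tower C K → Spread (N ⧸ K) →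
      MT C (N ⧸ K) → Tower C N
  | fin (N : Type) [Group N] (K : Subgroup N) [K.FiniteIndex] : Tower C K → Tower C N

theorem tower_mt (hC : ClosedE C) {N : Type} [Group N] (h : Tower C N) : Group.FG N ∧ MT C N := by
  induction h with
  | base N h1 h2 => exact ⟨h1, h2⟩
  | step N K _ h2 h3 ih =>
    have h4 : Group.FG N := fg_ext K ih.1 h2.fg
    exact ⟨h4, ext_mt hC N K ((Group.fg_iff_subgroup_fg K).1 ih.1) ih.2 h2 h3⟩
  | fin N K _ ih =>
    have h4 : Group.FG N := fg_fin K ih.1
    exact ⟨h4, fin_mt hC N K ih.2⟩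

end Pool.Agent.Helper687_Borel
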